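import Pool.Agent.H20.KH.Stmts
import Pool.Agent.H49.KG.TKL

/-!
# Project KH, module QL2: the quadratic Poincare constant with real parameters
-/

set_option autoImplicit false

open MeasureTheory Set Filter Topology
open scoped ContDiff

namespace Pool.Agent.H20.KH

open Pool.Agent.H84 Pool.Agent.H84.Sym Pool.Agent.H84.Sym.P2x Pool.Agent.H19.KL
open Pool.Agent.H73.KG

/-- the variance is nonnegative -/
theorem ql2_var {E : Type} [NormedAddCommGroup E] [InnerProductSpace ℝ E]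
    [FiniteDimensional ℝ E] [MeasurableSpace E] [BorelSpace E] {U : E → ℝ} {t : ℝ} (hU : PP U t)
    {f : E → ℝ} (hf : GC f) : 0 ≤ cv U f f := by
  obtain ⟨⟨C, hU⟩, hP⟩ := hU
  have i1 : Integrable (fun x => f x ^ 2) (mu U) := hf.sq.integrable hU
  have i2 : Integrable f (mu U) := hf.integrable hU
  set m := ∫ x, f x ∂(mu U) with hm
  have i12 : Integrable (fun x => f x ^ 2 - 2 * m * f x) (mu U) := i1.sub (i2.const_mul _)
  have h1 : 0 ≤ ∫ x, (f x - m) ^ 2 ∂(mu U) := integral_nonneg fun x => sq_nonneg _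
  have h2 : ∫ x, (f x - m) ^ 2 ∂(mu U) = (∫ x, f x ^ 2 ∂(mu U)) - 2 * m * m + m ^ 2 := by
    have e : ∫ x, (f x - m) ^ 2 ∂(mu U) = ∫ x, ((f x ^ 2 - 2 * m * f x) + m ^ 2) ∂(mu U) := by
      refine integral_congr_ae (Eventually.of_forall fun x => ?_)
      simp only
      ring
    rw [e, integral_add i12 (integrable_const _), integral_sub i1 (i2.const_mul _),
      integral_const_mul, integral_const, probReal_univ, one_smul]
  have e2 : ∫ x, f x * f x ∂(mu U) = ∫ x, f x ^ 2 ∂(mu U) := by simp only [pow_two]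
  unfold Pool.Agent.H73.KG.cv
  rw [e2, ← hm]
  rw [h2] at h1
  nlinarith [h1]

/-- QL2 -/
theorem ql2_thm (hA : TA2Stmt) : QL2Stmt := by
  obtain ⟨C, hC, hA⟩ := hA
  have hl2 : 0 < Real.log 2 := Real.log_pos (by norm_num)
  have hlC : 0 ≤ Real.log C / Real.log 2 := div_nonneg (Real.log_nonneg hC) hl2.le
  refine ⟨C * (11 + Real.log C / Real.log 2), by nlinarith, ?_⟩
  intro E _ _ _ _ _ s hs hs2
  obtain ⟨g, hg1, hg2, hg3⟩ := tkl_num C hC (Module.finrank ℝ E) s hs hs2
  have hg4 : C * (1 + Nat.log 2 (Module.finrank ℝ E + 1)) ≤ 2 ^ g * s ^ 7 := by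
    refine hg2.trans (mul_le_mul_of_nonneg_left ?_ (by positivity))
    exact pow_le_pow_left₀ (by positivity) (by linarith) 7
  have h := hA E s g hs (by linarith) hg1 hg4
  intro U hU hc ψ hψ ι _ b
  refine (h U hU hc ψ hψ ι b).trans ?_
  have hC0 : 0 ≤ C := by linarith
  have h5 := mul_le_mul_of_nonneg_right (mul_le_mul_of_nonneg_left hg3 hC0) (ql2_var hU hψ)
  refine h5.trans (le_of_eq ?_)
  ring

end Pool.Agent.H20.KH
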