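import Mathlib

/-!
# The counting forms of the arithmetic inequality with dense sets of times
-/

set_option autoImplicit false

open MeasureTheory Set

namespace Pool.Agent.H49.KH

/-- The counting form of the arithmetic inequality with dense sets of times: lines `u i + t v i`
with distinct rounded directions, each with a set `A i` of times of measure at least `l`; at every
time `t` the lines with `t ∈ A i` have at most `M` rounded positions. -/
def Count1 (d : ℕ) (a K : ℝ) : Prop :=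
  ∃ C : ℝ, 0 < C ∧ ∀ (I : Type) [Fintype I] (u v : I → Fin d → ℝ) (A : I → Set ℝ) (l M : ℝ),
    0 < l → l ≤ 1 → 1 ≤ M → (∀ i, MeasurableSet (A i)) → (∀ i, A i ⊆ Icc 0 1) →
    (∀ i, ENNReal.ofReal l ≤ volume (A i)) →
    (Function.Injective fun i => fun k => ⌊v i k⌋) →
    (∀ t ∈ Icc (0 : ℝ) 1, ((Set.ncard {z : Fin d → ℤ | ∃ i, t ∈ A i ∧
      z = fun k => ⌊u i k + t * v i k⌋} : ℕ) : ℝ) ≤ M) →
    (Fintype.card I : ℝ) ≤ C * l ^ (-K) * M ^ a

/-- The same for sets of times which are not concentrated near one point: no interval of radius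
`ρ` contains more than an eighth of the set. The constant may depend on `ρ`. -/
def Count2 (d : ℕ) (a K : ℝ) : Prop :=
  ∀ ρ : ℝ, 0 < ρ → ∃ C : ℝ, 0 < C ∧
  ∀ (I : Type) [Fintype I] (u v : I → Fin d → ℝ) (A : I → Set ℝ) (l M : ℝ),
    0 < l → l ≤ 1 → 1 ≤ M → (∀ i, MeasurableSet (A i)) → (∀ i, A i ⊆ Icc 0 1) →
    (∀ i, ENNReal.ofReal l ≤ volume (A i)) →
    (∀ i s, volume (A i ∩ Icc (s - ρ) (s + ρ)) ≤ volume (A i) / 8) →
    (Function.Injective fun i => fun k => ⌊v i k⌋) →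
    (∀ t ∈ Icc (0 : ℝ) 1, ((Set.ncard {z : Fin d → ℤ | ∃ i, t ∈ A i ∧
      z = fun k => ⌊u i k + t * v i k⌋} : ℕ) : ℝ) ≤ M) →
    (Fintype.card I : ℝ) ≤ C * l ^ (-K) * M ^ a

end Pool.Agent.H49.KH
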