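import Mathlib
import Pool.Agent.H49.KH.CountDefs
import Pool.Agent.H70.Dense.X7a

/-!
# From real times to the grid of times
-/

set_option autoImplicit false

open MeasureTheory Set
open scoped ENNReal

namespace Pool.Agent.H49.KH

open Pool.Agent.H32.Dense Pool.Agent.H70.Dense

/-- the real times of a finite set of grid times -/
def rt' (m : ℕ) (A : Finset ℤ) : Set ℝ := {t | ⌊(2 : ℝ) ^ m * t⌋ ∈ A}

theorem rt'_eq (m : ℕ) (A : Finset ℤ) :
    rt' m A = ⋃ j ∈ A, Ico ((j : ℝ) / 2 ^ m) ((j + 1) / 2 ^ m) := by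
  have h2 : (0 : ℝ) < 2 ^ m := by positivity
  ext t
  simp only [rt', Set.mem_ofPred_eq, Set.mem_iUnion, exists_prop, Set.mem_Ico]
  constructor
  · intro h
    refine ⟨_, h, ?_, ?_⟩
    · rw [div_le_iff₀ h2, mul_comm t]
      exact Int.floor_le _
    · rw [lt_div_iff₀ h2, mul_comm t]
      exact Int.lt_floor_add_one _
  · rintro ⟨j, hj, h3, h4⟩
    have : ⌊(2 : ℝ) ^ m * t⌋ = j := by
      rw [Int.floor_eq_iff]
      rw [div_le_iff₀ h2] at h3
      rw [lt_div_iff₀ h2] at h4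
      constructor <;> linarith
    rw [this]
    exact hj

theorem rt'_meas (m : ℕ) (A : Finset ℤ) : MeasurableSet (rt' m A) := by
  rw [rt'_eq]
  exact Finset.measurableSet_biUnion _ (fun _ _ => measurableSet_Ico)

theorem rt'_vol (m : ℕ) (A : Finset ℤ) :
    volume (rt' m A) = ENNReal.ofReal (A.card / 2 ^ m) := by
  have h2 : (0 : ℝ) < 2 ^ m := by positivity
  rw [rt'_eq, measure_biUnion_finset]
  · have : ∀ j ∈ A, volume (Ico ((j : ℝ) / 2 ^ m) ((j + 1) / 2 ^ m)) =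
        ENNReal.ofReal (1 / 2 ^ m) := by
      intro j _
      rw [Real.volume_Ico]
      congr 1
      field_simp
      ring
    rw [Finset.sum_congr rfl this, Finset.sum_const, nsmul_eq_mul,
      ← ENNReal.ofReal_natCast, ← ENNReal.ofReal_mul (Nat.cast_nonneg _)]
    congr 1
    ring
  · intro i _ j _ hij
    rw [Function.onFun, Set.disjoint_left]
    rintro t ⟨h3, h4⟩ ⟨h5, h6⟩
    rw [div_le_iff₀ h2] at h3 h5
    rw [lt_div_iff₀ h2] at h4 h6
    apply hij
    have e1 : (i : ℝ) < j + 1 := by linarith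
    have e2 : (j : ℝ) < i + 1 := by linarith
    have e1' : i < j + 1 := by exact_mod_cast e1
    have e2' : j < i + 1 := by exact_mod_cast e2
    omega
  · intro j _
    exact measurableSet_Ico

theorem rt'_sub {m : ℕ} {A : Finset ℤ} (hA : A ⊆ Finset.Ico 0 (2 ^ m : ℤ)) :
    rt' m A ⊆ Icc 0 1 := by
  have h2 : (0 : ℝ) < 2 ^ m := by positivity
  intro t ht
  have h3 := Finset.mem_Ico.mp (hA ht)
  have h4 := Int.floor_le ((2 : ℝ) ^ m * t)
  have h5 := Int.lt_floor_add_one ((2 : ℝ) ^ m * t)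
  have h6 : (0 : ℝ) ≤ ⌊(2 : ℝ) ^ m * t⌋ := by exact_mod_cast h3.1
  have h7 : (⌊(2 : ℝ) ^ m * t⌋ : ℝ) + 1 ≤ 2 ^ m := by
    have : ⌊(2 : ℝ) ^ m * t⌋ + 1 ≤ 2 ^ m := h3.2
    exact_mod_cast this
  constructor
  · by_contra h
    push Not at h
    have := mul_neg_of_pos_of_neg h2 h
    linarith
  · by_contra h
    push Not at h
    have : (2 : ℝ) ^ m * 1 < 2 ^ m * t := mul_lt_mul_of_pos_left h h2
    linarith

/-- The part of a set of times with two ends in a short interval. -/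
theorem two_ends {m k : ℕ} {A : Finset ℤ} {e₀ : ℝ} (hne : A.Nonempty)
    (hk : ((2 : ℝ) ^ k)⁻¹ ^ e₀ ≤ 1 / 32)
    (hE : ∀ l ≤ m, ∀ q : ℤ, ((A.filter fun y => y / 2 ^ l = q).card : ℝ) ≤
      2 * ((2 : ℝ) ^ l / 2 ^ m) ^ e₀ * A.card) (s : ℝ) :
    volume (rt' m A ∩ Icc (s - 1 / 2 ^ (k + 4)) (s + 1 / 2 ^ (k + 4))) ≤ volume (rt' m A) / 8 := by
  have h2m : (0 : ℝ) < 2 ^ m := by positivity
  have h2k : (0 : ℝ) < 2 ^ k := by positivity
  have hc1 : (1 : ℝ) ≤ A.card := by exact_mod_cast hne.card_pos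
  have h8 : volume (rt' m A) / 8 = ENNReal.ofReal (A.card / 2 ^ m / 8) := by
    rw [rt'_vol, ENNReal.ofReal_div_of_pos (by norm_num : (0 : ℝ) < 8)]
    norm_num
  rw [h8]
  rcases le_or_gt k m with hkm | hkm
  · -- two dyadic intervals
    obtain ⟨l, rfl⟩ := Nat.exists_eq_add_of_le hkm
    have hq : ∀ t : ℝ, ⌊(2 : ℝ) ^ (k + l) * t⌋ / (2 : ℤ) ^ l = ⌊(2 : ℝ) ^ k * t⌋ := by
      intro t
      have e1 : (2 : ℝ) ^ k * t = (2 : ℝ) ^ (k + l) * t / ((2 ^ l : ℕ) : ℝ) := by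
        push_cast
        rw [pow_add]
        field_simp
      rw [e1, Int.floor_div_natCast]
      push_cast
      rfl
    set q0 : ℤ := ⌊(2 : ℝ) ^ k * (s - 1 / 2 ^ (k + 4))⌋ with hq0
    have hsub : rt' (k + l) A ∩ Icc (s - 1 / 2 ^ (k + 4)) (s + 1 / 2 ^ (k + 4)) ⊆
        rt' (k + l) (A.filter fun y => y / 2 ^ l = q0) ∪
        rt' (k + l) (A.filter fun y => y / 2 ^ l = q0 + 1) := by
      rintro t ⟨ht, ht1, ht2⟩
      have g1 : (q0 : ℝ) ≤ 2 ^ k * t := by
        have := Int.floor_le ((2 : ℝ) ^ k * (s - 1 / 2 ^ (k + 4)))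
        rw [← hq0] at this
        exact this.trans (mul_le_mul_of_nonneg_left ht1 h2k.le)
      have g2 : (2 : ℝ) ^ k * t < q0 + 2 := by
        have e1 := Int.lt_floor_add_one ((2 : ℝ) ^ k * (s - 1 / 2 ^ (k + 4)))
        rw [← hq0] at e1
        have e2 := mul_le_mul_of_nonneg_left ht2 h2k.le
        have e3 : (2 : ℝ) ^ k * (s + 1 / 2 ^ (k + 4)) =
            2 ^ k * (s - 1 / 2 ^ (k + 4)) + 1 / 8 := by
          rw [pow_add]
          field_simp
          ring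
        linarith
      have g3 : ⌊(2 : ℝ) ^ k * t⌋ = q0 ∨ ⌊(2 : ℝ) ^ k * t⌋ = q0 + 1 := by
        have f1 : q0 ≤ ⌊(2 : ℝ) ^ k * t⌋ := Int.le_floor.mpr g1
        have f2 : ⌊(2 : ℝ) ^ k * t⌋ < q0 + 2 := by
          rw [Int.floor_lt]
          push_cast
          exact g2
        omega
      rcases g3 with g3 | g3
      · left
        refine Finset.mem_filter.mpr ⟨ht, ?_⟩
        rw [hq, g3]
      · right
        refine Finset.mem_filter.mpr ⟨ht, ?_⟩
        rw [hq, g3]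
    refine (measure_mono hsub).trans ((measure_union_le _ _).trans ?_)
    rw [rt'_vol, rt'_vol, ← ENNReal.ofReal_add (by positivity) (by positivity)]
    refine ENNReal.ofReal_le_ofReal ?_
    have f1 := hE l (by omega) q0
    have f2 := hE l (by omega) (q0 + 1)
    have f3 : (2 : ℝ) ^ l / 2 ^ (k + l) = (2 ^ k)⁻¹ := by
      rw [pow_add]; field_simp
    rw [f3] at f1 f2
    have f4 : ((A.filter fun y => y / 2 ^ l = q0).card : ℝ) +
        ((A.filter fun y => y / 2 ^ l = q0 + 1).card : ℝ) ≤ A.card / 8 := by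
      have : 2 * ((2 : ℝ) ^ k)⁻¹ ^ e₀ * A.card ≤ 2 * (1 / 32) * A.card := by gcongr
      linarith
    rw [← add_div, div_right_comm]
    gcongr
  · -- few times
    refine (measure_mono Set.inter_subset_right).trans ?_
    rw [Real.volume_Icc]
    refine ENNReal.ofReal_le_ofReal ?_
    have e1 : s + 1 / 2 ^ (k + 4) - (s - 1 / 2 ^ (k + 4)) = 1 / 2 ^ k / 8 := by
      rw [pow_add]; field_simp; ring
    rw [e1]
    have e2 : (1 : ℝ) / 2 ^ k ≤ A.card / 2 ^ m := by
      rw [div_le_div_iff₀ h2k h2m]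
      have : (2 : ℝ) ^ m ≤ 2 ^ k := pow_le_pow_right₀ (by norm_num) hkm.le
      nlinarith
    linarith

/-- The cells of nearby positions. -/
theorem cells_near {d : ℕ} (P : Finset (Fin d → ℤ)) (Z : Set (Fin d → ℤ))
    (h : ∀ z ∈ Z, ∃ c ∈ P, ∀ k, |z k - c k| ≤ 1) : (Z.ncard : ℝ) ≤ 3 ^ d * P.card := by
  classical
  have hsub : Z ⊆ ((P ×ˢ (Fintype.piFinset fun _ : Fin d => Finset.Icc (-1 : ℤ) 1)).image
      (fun x => fun k => x.1 k + x.2 k) : Finset (Fin d → ℤ)) := by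
    intro z hz
    obtain ⟨c, hc, hcz⟩ := h z hz
    rw [Finset.coe_image, Set.mem_image]
    refine ⟨(c, fun k => z k - c k), ?_, ?_⟩
    · rw [Finset.mem_coe, Finset.mem_product, Fintype.mem_piFinset]
      refine ⟨hc, fun k => ?_⟩
      rw [Finset.mem_Icc]
      exact abs_le.mp (hcz k)
    · funext k
      simp
  have h1 := Set.ncard_le_ncard hsub (Finset.finite_toSet _)
  rw [Set.ncard_coe_finset] at h1
  have h2 := h1.trans Finset.card_image_le
  rw [Finset.card_product, Fintype.card_piFinset] at h2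
  have h3 : (Finset.Icc (-1 : ℤ) 1).card = 3 := by simp
  rw [Finset.prod_const, Finset.card_univ, Fintype.card_fin, h3] at h2
  calc (Z.ncard : ℝ) ≤ ((P.card * 3 ^ d : ℕ) : ℝ) := by exact_mod_cast h2
    _ = 3 ^ d * P.card := by push_cast; ring

theorem near_cell {d m : ℕ} {u : Fin d → ℝ} {v : Fin d → ℤ} (hv : ∀ k, |v k| ≤ 2 ^ m) (t : ℝ)
    (k : Fin d) : |⌊u k + t * v k⌋ - rd (pos (2 ^ m) u v ⌊(2 : ℝ) ^ m * t⌋) k| ≤ 1 := by
  have h2m : (0 : ℝ) < 2 ^ m := by positivity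
  have f1 := Int.floor_le ((2 : ℝ) ^ m * t)
  have f2 := Int.lt_floor_add_one ((2 : ℝ) ^ m * t)
  set j : ℤ := ⌊(2 : ℝ) ^ m * t⌋ with hj
  have g1 : |t - j / 2 ^ m| < 1 / 2 ^ m := by
    rw [abs_lt]
    have e1 : (j : ℝ) / 2 ^ m ≤ t := by rw [div_le_iff₀ h2m]; linarith
    have e2 : t < j / 2 ^ m + 1 / 2 ^ m := by
      rw [← add_div, lt_div_iff₀ h2m]; linarith
    have e3 : (0 : ℝ) < 1 / 2 ^ m := by positivity
    constructor <;> linarith
  have g2 : |(u k + t * v k) - (u k + (j : ℝ) / ((2 ^ m : ℕ) : ℝ) * v k)| < 1 := by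
    have e1 : (u k + t * v k) - (u k + (j : ℝ) / ((2 ^ m : ℕ) : ℝ) * v k) =
        (t - j / 2 ^ m) * v k := by push_cast; ring
    rw [e1, abs_mul]
    have e2 : |(v k : ℝ)| ≤ 2 ^ m := by
      have := hv k
      have h3 : ((|v k| : ℤ) : ℝ) ≤ ((2 ^ m : ℤ) : ℝ) := by exact_mod_cast this
      rw [Int.cast_abs] at h3
      simpa using h3
    rcases eq_or_ne (|(v k : ℝ)|) 0 with h0 | h0
    · rw [h0, mul_zero]; exact one_pos
    · have h0' : 0 < |(v k : ℝ)| := lt_of_le_of_ne (abs_nonneg _) (Ne.symm h0)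
      calc |t - j / 2 ^ m| * |(v k : ℝ)| < 1 / 2 ^ m * |(v k : ℝ)| :=
            mul_lt_mul_of_pos_right g1 h0'
        _ ≤ 1 / 2 ^ m * 2 ^ m := by gcongr
        _ = 1 := by field_simp
  simp only [rd, pos]
  rw [abs_lt] at g2
  rw [abs_le]
  constructor
  · have : (⌊u k + (j : ℝ) / ((2 ^ m : ℕ) : ℝ) * v k⌋ : ℤ) ≤ ⌊u k + t * v k⌋ + 1 := by
      rw [← Int.floor_add_one]
      exact Int.floor_le_floor (by linarith [g2.1])
    omega
  · have : (⌊u k + t * v k⌋ : ℤ) ≤ ⌊u k + (j : ℝ) / ((2 ^ m : ℕ) : ℝ) * v k⌋ + 1 := by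
      rw [← Int.floor_add_one]
      exact Int.floor_le_floor (by linarith [g2.2])
    omega

/-- The bridge from real times to the grid. -/
theorem strong_of_count2 {d : ℕ} {a K : ℝ} (h : Count2 d a K) :
    StrongCount d a K := by
  classical
  intro e₀ he₀
  obtain ⟨k, hk⟩ : ∃ k : ℕ, ((2 : ℝ) ^ k)⁻¹ ^ e₀ ≤ 1 / 32 := by
    have h1 : Filter.Tendsto (fun k : ℕ => (((1 : ℝ) / 2) ^ e₀) ^ k) Filter.atTop (nhds 0) := by
      refine tendsto_pow_atTop_nhds_zero_of_lt_one (by positivity) ?_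
      exact Real.rpow_lt_one (by norm_num) (by norm_num) he₀
    obtain ⟨k, hk⟩ := ((h1.eventually (gt_mem_nhds (by norm_num : (0 : ℝ) < 1 / 32)))).exists
    refine ⟨k, ?_⟩
    have e1 : ((2 : ℝ) ^ k)⁻¹ ^ e₀ = (((1 : ℝ) / 2) ^ e₀) ^ k := by
      rw [← Real.rpow_natCast, ← Real.rpow_natCast, ← Real.rpow_mul (by norm_num),
        ← Real.rpow_neg (by norm_num), ← Real.rpow_mul (by norm_num), one_div,
        Real.inv_rpow (by norm_num), ← Real.rpow_neg (by norm_num)]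
      congr 1
      ring
    rw [e1]
    exact hk.le
  obtain ⟨C, hC, H⟩ := h (1 / 2 ^ (k + 4)) (by positivity)
  refine ⟨C * (3 ^ d) ^ a, by positivity, ?_⟩
  intro m N u v A κ R hκ hinj hv hA hcard hE hR
  rcases Nat.eq_zero_or_pos N with rfl | hN
  · have hR0 : 0 ≤ R := le_trans (Nat.cast_nonneg _) (hR 0)
    rw [Nat.cast_zero]
    positivity
  have h2m : (0 : ℝ) < 2 ^ m := by positivity
  have hAne : ∀ i, (A i).Nonempty := by
    intro i
    rw [← Finset.card_pos]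
    have := hcard i
    have h3 : (0 : ℝ) < (A i).card := lt_of_lt_of_le (by positivity) this
    exact_mod_cast h3
  have i0 : Fin N := ⟨0, hN⟩
  have hR1 : 1 ≤ R := by
    obtain ⟨j, hj⟩ := hAne i0
    refine le_trans ?_ (hR j)
    have : 0 < ((Finset.univ.filter fun i => j ∈ A i).image
        fun i => rd (pos (2 ^ m) (u i) (v i) j)).card := by
      refine Finset.card_pos.mpr ⟨_, Finset.mem_image_of_mem _
        (Finset.mem_filter.mpr ⟨Finset.mem_univ i0, hj⟩)⟩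
    exact_mod_cast this
  have hκ1 : κ ≤ 1 := by
    have h3 := Finset.card_le_card (hA i0)
    rw [Int.card_Ico] at h3
    have h4 : ((A i0).card : ℝ) ≤ 2 ^ m := by
      have : ((2 : ℤ) ^ m - 0).toNat = 2 ^ m := by
        rw [sub_zero]
        have : ((2 : ℤ) ^ m) = ((2 ^ m : ℕ) : ℤ) := by push_cast; rfl
        rw [this, Int.toNat_natCast]
      rw [this] at h3
      exact_mod_cast h3
    have h5 := (hcard i0).trans h4
    by_contra hcon
    push Not at hcon
    have := mul_lt_mul_of_pos_right hcon h2m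
    linarith
  have h3d : (1 : ℝ) ≤ 3 ^ d := one_le_pow₀ (by norm_num)
  have key := H (Fin N) u (fun i k => (v i k : ℝ)) (fun i => rt' m (A i)) κ (3 ^ d * R) hκ hκ1
    (by nlinarith) (fun i => rt'_meas m (A i)) (fun i => rt'_sub (hA i)) (by
      intro i
      rw [rt'_vol]
      refine ENNReal.ofReal_le_ofReal ?_
      rw [le_div_iff₀ h2m]
      exact hcard i) (fun i s => two_ends (hAne i) hk (hE i) s) (by
      intro i j hij
      apply hinj
      funext k
      have := congrFun hij k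
      simpa using this) (by
      intro t _
      refine (cells_near ((Finset.univ.filter fun i => ⌊(2 : ℝ) ^ m * t⌋ ∈ A i).image
        fun i => rd (pos (2 ^ m) (u i) (v i) ⌊(2 : ℝ) ^ m * t⌋)) _ ?_).trans
        (mul_le_mul_of_nonneg_left (hR _) (by positivity))
      rintro z ⟨i, hi, rfl⟩
      exact ⟨_, Finset.mem_image_of_mem _ (Finset.mem_filter.mpr ⟨Finset.mem_univ i, hi⟩),
        fun k => near_cell (hv i) t k⟩)
  rw [Fintype.card_fin, Real.mul_rpow (by positivity) (by linarith)] at key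
  calc (N : ℝ) ≤ C * κ ^ (-K) * ((3 ^ d) ^ a * R ^ a) := key
    _ = C * (3 ^ d) ^ a * κ ^ (-K) * R ^ a := by ring

end Pool.Agent.H49.KH
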