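import Mathlib
import Pool.Agent.H49.Ent

/-!
# The slope inequality at unit scale, with real times chosen in dense sets of times
-/

set_option autoImplicit false

open MeasureTheory

namespace Pool.Agent.H49.KH

open Pool.Agent.H49.Ent

/-- coordinatewise rounding down -/
noncomputable def rd {d : ℕ} (x : Fin d → ℝ) : Fin d → ℤ := fun i => ⌊x i⌋

/-- The slope inequality at unit scale in dimension `d`, with real times `T`, weights `w` and
additive error `κ`. -/
def AKd (d : ℕ) (T : Finset ℝ) (w : ℝ → ℝ) (κ : ℝ) : Prop :=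
  ∀ (Ω : Type) [Fintype Ω] (p : Ω → ℝ) (f g : Ω → Fin d → ℝ), (∀ ω, 0 ≤ p ω) → ∑ ω, p ω = 1 →
    H p (fun ω => rd (g ω)) ≤ ∑ t ∈ T, w t * H p (fun ω => rd (f ω + t • g ω)) + κ

/-- Every set of times of measure at least `l` in `[0,1]` contains a set of at most `m` times for
which the slope inequality holds with exponent `a`, with an error logarithmic in `1 / l`. -/
def DG (d : ℕ) (a : ℝ) : Prop :=
  ∃ (C : ℝ) (m : ℕ), 0 ≤ C ∧ ∀ (l : ℝ) (S : Set ℝ), 0 < l → l ≤ 1 → MeasurableSet S →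
    S ⊆ Set.Icc 0 1 → ENNReal.ofReal l ≤ volume S →
    ∃ (T : Finset ℝ) (w : ℝ → ℝ), (∀ t ∈ T, t ∈ S) ∧ T.card ≤ m ∧ (∀ t ∈ T, 0 ≤ w t) ∧
      ∑ t ∈ T, w t = a ∧ AKd d T w (C * (1 + Real.log (1 / l)))

theorem rd_close {d : ℕ} {x y : Fin d → ℝ} (h : rd x = rd y) (i : Fin d) :
    |x i - y i| < 1 :=
  Int.abs_sub_lt_one_of_floor_eq_floor (congrFun h i)

/-- The counting form of the slope inequality. -/
theorem AKd.card_le {d : ℕ} {T : Finset ℝ} {w : ℝ → ℝ} {κ a : ℝ} (h : AKd d T w κ)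
    (hw : ∀ t ∈ T, 0 ≤ w t) (ha : ∑ t ∈ T, w t = a) {A : Type} [Fintype A] [Nonempty A]
    (f g : A → Fin d → ℝ) {M : ℝ} (hM : 1 ≤ M)
    (hN : ∀ t ∈ T, ((Finset.univ.image (fun x => rd (f x + t • g x))).card : ℝ) ≤ M) :
    ((Finset.univ.image (fun x => rd (g x))).card : ℝ) ≤ Real.exp κ * M ^ a := by
  classical
  obtain ⟨B, hB⟩ : ∃ B, B = Finset.univ.image (fun x => rd (g x)) := ⟨_, rfl⟩
  rw [← hB]
  have hsec : ∀ x : B, ∃ z, rd (g z) = x.1 := by
    rintro ⟨x, hx⟩
    rw [hB] at hx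
    obtain ⟨z, _, hz⟩ := Finset.mem_image.mp hx
    exact ⟨z, hz⟩
  choose σ hσ using hsec
  have hBne : Nonempty B :=
    ⟨⟨rd (g (Classical.arbitrary A)), hB ▸ Finset.mem_image_of_mem _ (Finset.mem_univ _)⟩⟩
  have hinj : Function.Injective (fun x : B => rd (g (σ x))) := by
    intro x y hxy
    simp only [hσ] at hxy
    exact Subtype.ext hxy
  have hc : (0 : ℝ) < Fintype.card B := by exact_mod_cast Fintype.card_pos
  have hsum : ∑ _x : B, (Fintype.card B : ℝ)⁻¹ = 1 := by
    rw [Finset.sum_const, Finset.card_univ, nsmul_eq_mul, mul_inv_cancel₀ hc.ne']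
  have h1 := h B (fun _ => (Fintype.card B : ℝ)⁻¹) (fun x => f (σ x)) (fun x => g (σ x))
    (fun _ => by positivity) hsum
  rw [H_uniform hinj] at h1
  have h2 : ∀ t ∈ T, w t * H (fun _ : B => (Fintype.card B : ℝ)⁻¹)
      (fun x => rd (f (σ x) + t • g (σ x))) ≤ w t * Real.log M := by
    intro t ht
    refine mul_le_mul_of_nonneg_left ?_ (hw t ht)
    refine (H_le_log_card (fun _ => by positivity) hsum _
      (Finset.univ.image (fun x => rd (f x + t • g x)))
      (fun x _ => Finset.mem_image_of_mem (fun x => rd (f x + t • g x))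
        (Finset.mem_univ _))).trans ?_
    refine Real.log_le_log ?_ (hN t ht)
    have : 0 < (Finset.univ.image (fun x => rd (f x + t • g x))).card :=
      Finset.card_pos.mpr ⟨_, Finset.mem_image_of_mem _ (Finset.mem_univ (Classical.arbitrary A))⟩
    exact_mod_cast this
  have h3 : Real.log (Fintype.card B) ≤ a * Real.log M + κ := by
    refine h1.trans (add_le_add_left ((Finset.sum_le_sum h2).trans_eq ?_) κ)
    rw [← Finset.sum_mul, ha]
  have hcard : (Fintype.card B : ℝ) = B.card := by rw [Fintype.card_coe]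
  rw [hcard] at h3 hc
  have hM0 : 0 < M := by linarith
  rw [← Real.log_rpow hM0] at h3
  calc ((B.card : ℕ) : ℝ) = Real.exp (Real.log B.card) := (Real.exp_log hc).symm
    _ ≤ Real.exp (Real.log (M ^ a) + κ) := Real.exp_le_exp.mpr h3
    _ = Real.exp κ * M ^ a := by
        rw [Real.exp_add, Real.exp_log (Real.rpow_pos_of_pos hM0 _)]; ring

end Pool.Agent.H49.KH
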