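import Mathlib
import Pool.Agent.H49.KH.Defs

/-!
# Families of lines at unit scale

The two- and three-line configurations and the basic inequalities between their entropies, with
errors `d * log (8 R + 2)`, where `R` bounds the inverse distances of the times involved.
-/

set_option autoImplicit false

open Finset Real
open scoped BigOperators

namespace Pool.Agent.H49.KH

open Pool.Agent.H49.Ent

section Basic

variable {Ω : Type*} [Fintype Ω]

/-- number of values of a rounded vector known up to `K` -/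
theorem H_rd_le {S : Type*} {d : ℕ} {p : Ω → ℝ} (hp : ∀ ω, 0 ≤ p ω) (h1 : ∑ ω, p ω = 1)
    (X : Ω → S) (v : Ω → Fin d → ℝ) {K : ℝ} (hK : 0 ≤ K)
    (h : ∀ ω ω', 0 < p ω → 0 < p ω' → X ω = X ω' → ∀ i, |v ω i - v ω' i| ≤ K) :
    H p (fun ω => (rd (v ω), X ω)) ≤ H p X + d * Real.log (2 * K + 2) := by
  classical
  have hCH : CH p (fun ω => rd (v ω)) X ≤ d * Real.log (2 * K + 2) := by
    rw [CH_eq_sum hp]
    have hsum : ∑ z ∈ univ.image X, law p X z * (d * Real.log (2 * K + 2)) =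
        d * Real.log (2 * K + 2) := by
      rw [← Finset.sum_mul, sum_law, h1, one_mul]
    rw [← hsum]
    refine Finset.sum_le_sum (fun z _ => ?_)
    refine mul_le_mul_of_nonneg_left ?_ (law_nonneg hp X z)
    by_cases hz : law p X z = 0
    · have hc : (Ent.cond p X z) = fun _ => 0 := by
        funext ω
        unfold Ent.cond
        rw [hz]
        simp
      rw [hc]
      unfold H
      simp only [zero_mul, Finset.sum_const_zero, neg_zero]
      exact mul_nonneg (Nat.cast_nonneg _) (Real.log_nonneg (by linarith))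
    · obtain ⟨ω0, hω0, hX0⟩ : ∃ ω0, 0 < p ω0 ∧ X ω0 = z := by
        by_contra hcon
        push Not at hcon
        apply hz
        unfold law
        refine Finset.sum_eq_zero (fun ω _ => ?_)
        split_ifs with hx
        · by_contra h0
          exact hcon ω (lt_of_le_of_ne (hp ω) (Ne.symm h0)) hx
        · rfl
      have h2 := H_le_log_card (cond_nonneg hp X z) (sum_cond p X hz) (fun ω => rd (v ω))
        (Fintype.piFinset fun i => Finset.Icc ⌊v ω0 i - K⌋ ⌊v ω0 i + K⌋) (by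
          intro ω hω
          obtain ⟨h3, h4⟩ := (cond_pos_iff hp X z ω).mp hω
          rw [Fintype.mem_piFinset]
          intro i
          have h5 := abs_le.mp (h ω ω0 h3 hω0 (h4.trans hX0.symm) i)
          rw [Finset.mem_Icc]
          exact ⟨Int.floor_le_floor (by linarith [h5.1]), Int.floor_le_floor (by linarith [h5.2])⟩)
      refine h2.trans ?_
      rw [Fintype.card_piFinset]
      have h6 : ∀ i : Fin d, ((Finset.Icc ⌊v ω0 i - K⌋ ⌊v ω0 i + K⌋).card : ℝ) ≤ 2 * K + 2 := by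
        intro i
        rw [Int.card_Icc]
        have h7 : ⌊v ω0 i - K⌋ ≤ ⌊v ω0 i + K⌋ := Int.floor_le_floor (by linarith)
        have h8 : (((⌊v ω0 i + K⌋ + 1 - ⌊v ω0 i - K⌋).toNat : ℤ) : ℝ) ≤ 2 * K + 2 := by
          rw [Int.toNat_of_nonneg (by omega)]
          push_cast
          have h9 := Int.floor_le (v ω0 i + K)
          have h10 := Int.lt_floor_add_one (v ω0 i - K)
          linarith
        exact_mod_cast h8
      have h11 : ((∏ i : Fin d, (Finset.Icc ⌊v ω0 i - K⌋ ⌊v ω0 i + K⌋).card : ℕ) : ℝ) ≤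
          (2 * K + 2) ^ d := by
        push_cast
        refine (Finset.prod_le_prod (fun i _ => Nat.cast_nonneg _) (fun i _ => h6 i)).trans_eq ?_
        simp
      have hpos : (0 : ℝ) < ((∏ i : Fin d, (Finset.Icc ⌊v ω0 i - K⌋ ⌊v ω0 i + K⌋).card : ℕ) : ℝ) := by
        have : 0 < ∏ i : Fin d, (Finset.Icc ⌊v ω0 i - K⌋ ⌊v ω0 i + K⌋).card := by
          refine Finset.prod_pos (fun i _ => Finset.card_pos.mpr ?_)
          exact Finset.nonempty_Icc.mpr (Int.floor_le_floor (by linarith))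
        exact_mod_cast this
      rw [← Real.log_pow]
      exact Real.log_le_log hpos h11
  unfold CH at hCH
  linarith

/-- entropy of a variable determined by `X` and a rounded vector which `X` determines
up to `K` -/
theorem H_le_close {S W : Type*} {d : ℕ} {p : Ω → ℝ} (hp : ∀ ω, 0 ≤ p ω) (h1 : ∑ ω, p ω = 1)
    {X : Ω → S} {Y : Ω → W} (v : Ω → Fin d → ℝ) {K : ℝ} (hK : 0 ≤ K)
    (h : ∀ ω ω', 0 < p ω → 0 < p ω' → X ω = X ω' → ∀ i, |v ω i - v ω' i| ≤ K)
    (hY : ∀ ω ω', 0 < p ω → 0 < p ω' → X ω = X ω' → rd (v ω) = rd (v ω') → Y ω = Y ω') :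
    H p Y ≤ H p X + d * Real.log (2 * K + 2) := by
  refine (H_mono hp (X := fun ω => (rd (v ω), X ω)) ?_).trans (H_rd_le hp h1 X v hK h)
  intro ω ω' hω hω' he
  simp only [Prod.mk.injEq] at he
  exact hY ω ω' hω hω' he.2 he.1

/-- The slope inequality, conditional on `Z`, with the total weight collected. -/
theorem AKd.ineq {d : ℕ} {T : Finset ℝ} {w : ℝ → ℝ} {a κ : ℝ} (h : AKd d T w κ)
    (ha : ∑ t ∈ T, w t = a) {Ω : Type} [Fintype Ω] {p : Ω → ℝ} (hp : ∀ ω, 0 ≤ p ω)
    (h1 : ∑ ω, p ω = 1) (f g : Ω → Fin d → ℝ) {U : Type*} (Z : Ω → U) :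
    H p (fun ω => (rd (g ω), Z ω)) + (a - 1) * H p Z ≤
      ∑ t ∈ T, w t * H p (fun ω => (rd (f ω + t • g ω), Z ω)) + κ := by
  classical
  have h2 : CH p (fun ω => rd (g ω)) Z ≤
      ∑ t ∈ T, w t * CH p (fun ω => rd (f ω + t • g ω)) Z + κ := by
    have hκ : κ = ∑ z ∈ univ.image Z, law p Z z * κ := by
      rw [← Finset.sum_mul, sum_law, h1, one_mul]
    rw [CH_eq_sum hp]
    simp_rw [CH_eq_sum hp, Finset.mul_sum]
    rw [Finset.sum_comm]
    conv_rhs => rw [hκ]
    rw [← Finset.sum_add_distrib]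
    refine Finset.sum_le_sum (fun z _ => ?_)
    by_cases hz : law p Z z = 0
    · simp [hz]
    · have hz' : 0 < law p Z z := lt_of_le_of_ne (law_nonneg hp Z z) (Ne.symm hz)
      have h3 := h Ω (Ent.cond p Z z) f g (cond_nonneg hp Z z) (sum_cond p Z hz)
      have h4 := mul_le_mul_of_nonneg_left h3 hz'.le
      rw [mul_add, Finset.mul_sum] at h4
      refine h4.trans_eq ?_
      congr 1
      exact Finset.sum_congr rfl (fun t _ => by ring)
  unfold CH at h2
  have h5 : ∑ t ∈ T, w t * (H p (fun ω => (rd (f ω + t • g ω), Z ω)) - H p Z)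
      = ∑ t ∈ T, w t * H p (fun ω => (rd (f ω + t • g ω), Z ω)) - a * H p Z := by
    simp only [mul_sub, Finset.sum_sub_distrib]
    rw [← Finset.sum_mul, ha]
  rw [h5] at h2
  linarith

end Basic

theorem bound4 {q a b A B C C' R y : ℝ} (h : q * y = a * A + b * B + b * (C - C'))
    (ha : |a| ≤ 1) (hb : |b| ≤ 1) (hA : |A| ≤ 1) (hB : |B| ≤ 1) (hC : |C| ≤ 1) (hC' : |C'| ≤ 1)
    (hq : 1 ≤ R * |q|) : |y| ≤ 4 * R := by
  have h1 : |q| * |y| ≤ 4 := by
    rw [← abs_mul, h]
    have e1 : |a * A| ≤ 1 := by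
      rw [abs_mul]; exact mul_le_one₀ ha (abs_nonneg _) hA
    have e2 : |b * B| ≤ 1 := by
      rw [abs_mul]; exact mul_le_one₀ hb (abs_nonneg _) hB
    have e3 : |b * (C - C')| ≤ 2 := by
      rw [abs_mul]
      have : |C - C'| ≤ 2 := (abs_sub _ _).trans (by linarith)
      nlinarith [abs_nonneg b, abs_nonneg (C - C')]
    calc |a * A + b * B + b * (C - C')| ≤ |a * A + b * B| + |b * (C - C')| := abs_add_le _ _
      _ ≤ |a * A| + |b * B| + |b * (C - C')| := by linarith [abs_add_le (a * A) (b * B)]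
      _ ≤ 4 := by linarith
  have hq0 : 0 < R * |q| := by linarith
  have hR : 0 < R := by
    by_contra hn
    push Not at hn
    have := mul_nonpos_of_nonpos_of_nonneg hn (abs_nonneg q)
    linarith
  have h2 : |y| ≤ (R * |q|) * |y| := le_mul_of_one_le_left (abs_nonneg y) hq
  nlinarith

theorem bound2 {q A B R y : ℝ} (h : q * y = A - B) (hA : |A| ≤ 1) (hB : |B| ≤ 1)
    (hq : 1 ≤ R * |q|) : |y| ≤ 4 * R := by
  refine bound4 (q := q) (a := 1) (b := -1) (A := A) (B := B) (C := 0) (C' := 0) ?_ ?_ ?_ hA hB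
    ?_ ?_ hq
  · rw [h]; ring
  all_goals norm_num

/-- A family of lines: a finite law on lines `(f, g)`; the rounded direction determines the
line on the support. -/
structure Fam (d : ℕ) where
  /-- the sample space -/
  Ω : Type
  [fin : Fintype Ω]
  /-- the law -/
  p : Ω → ℝ
  hp : ∀ ω, 0 ≤ p ω
  h1 : ∑ ω, p ω = 1
  /-- the point of the line at time `0` -/
  f : Ω → Fin d → ℝ
  /-- the direction of the line -/
  g : Ω → Fin d → ℝ
  inj : ∀ ω ω', 0 < p ω → 0 < p ω' → rd (g ω) = rd (g ω') → ω = ω'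

attribute [instance] Fam.fin

/-- the unit of error -/
noncomputable def er (d : ℕ) (R : ℝ) : ℝ := d * Real.log (2 * (4 * R) + 2)

namespace Fam

variable {d : ℕ} (F : Fam d)

/-- the point of the line at time `t` -/
def pt (t : ℝ) (ω : F.Ω) : Fin d → ℝ := F.f ω + t • F.g ω

/-- the rounded point of the line at time `t` -/
noncomputable def P (t : ℝ) (ω : F.Ω) : Fin d → ℤ := rd (F.f ω + t • F.g ω)

/-- entropy of the line -/
noncomputable def L : ℝ := H F.p (fun ω => ω)

/-- entropy of the point at time `t` -/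
noncomputable def S (t : ℝ) : ℝ := H F.p (F.P t)

/-- two lines of the family through a common cell at time `t` -/
noncomputable def two (t : ℝ) : F.Ω × F.Ω → ℝ := glue F.p F.p (F.P t) (F.P t)

/-- the point functional `pt s (w₀) + c g(w₁)` -/
def X (s c : ℝ) (w : F.Ω × F.Ω) : Fin d → ℝ := F.pt s w.1 + c • F.g w.2

/-- entropy of `X` -/
noncomputable def x (t s c : ℝ) : ℝ := H (F.two t) (fun w => rd (F.X s c w))

/-- entropy of a pair of points on two lines crossing at time `t` -/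
noncomputable def m (t s r : ℝ) : ℝ := H (F.two t) (fun w => (F.P s w.1, F.P r w.2))

/-- three lines: `w₀` crosses `w₁` at time `tp` and `w₂` at time `tq`; `w = ((w₀, w₁), w₂)` -/
noncomputable def three (tp tq : ℝ) : (F.Ω × F.Ω) × F.Ω → ℝ :=
  glue (F.two tp) F.p (fun w => F.P tq w.1) (F.P tq)

theorem two_nonneg (t : ℝ) (w : F.Ω × F.Ω) : 0 ≤ F.two t w := glue_nonneg F.hp F.hp w

theorem two_pos {t : ℝ} {w : F.Ω × F.Ω} (h : 0 < F.two t w) :
    0 < F.p w.1 ∧ 0 < F.p w.2 ∧ F.P t w.1 = F.P t w.2 := (glue_pos_iff F.hp F.hp w).mp h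

theorem sum_two (t : ℝ) : ∑ w, F.two t w = 1 := (sum_glue F.hp (fun _ => rfl)).trans F.h1

theorem H_two_fst (t : ℝ) {U : Type*} (V : F.Ω → U) :
    H (F.two t) (fun w => V w.1) = H F.p V := H_glue_fst F.hp (fun _ => rfl) V

theorem H_two_snd (t : ℝ) {U : Type*} (V : F.Ω → U) :
    H (F.two t) (fun w => V w.2) = H F.p V := H_glue_snd F.hp (fun _ => rfl) V

/-- entropy of the pair of lines -/
theorem H_two_lines (t : ℝ) : H (F.two t) (fun w => w) = 2 * F.L - F.S t := by
  have h := H_glue_pair (p₁ := F.p) (p₂ := F.p) (Z₁ := F.P t) (Z₂ := F.P t) F.hp F.hp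
    (fun _ => rfl) (X := fun ω => ω) (Y := fun ω => ω) (fun ω ω' _ _ h => congrArg (F.P t) h)
    (fun ω ω' _ _ h => congrArg (F.P t) h)
  have e : H (F.two t) (fun w => w) = H (F.two t) (fun w => (w.1, w.2)) := rfl
  rw [e]
  unfold two
  rw [h]
  unfold L S
  ring

theorem three_nonneg (tp tq : ℝ) (w : (F.Ω × F.Ω) × F.Ω) : 0 ≤ F.three tp tq w :=
  glue_nonneg (F.two_nonneg tp) F.hp w

theorem three_pos {tp tq : ℝ} {w : (F.Ω × F.Ω) × F.Ω} (h : 0 < F.three tp tq w) :
    0 < F.p w.1.1 ∧ 0 < F.p w.1.2 ∧ 0 < F.p w.2 ∧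
      F.P tp w.1.1 = F.P tp w.1.2 ∧ F.P tq w.1.1 = F.P tq w.2 := by
  obtain ⟨h1, h2, h3⟩ := (glue_pos_iff (F.two_nonneg tp) F.hp w).mp h
  obtain ⟨h4, h5, h6⟩ := F.two_pos h1
  exact ⟨h4, h5, h2, h6, h3⟩

theorem law_two_fst (t : ℝ) {U : Type*} (V : F.Ω → U) (v : U) :
    law (F.two t) (fun w => V w.1) v = law F.p V v := law_glue_fst F.hp (fun _ => rfl) V v

theorem law_eq_three (tp tq : ℝ) (z : Fin d → ℤ) :
    law (F.two tp) (fun w => F.P tq w.1) z = law F.p (F.P tq) z :=
  F.law_two_fst tp (F.P tq) z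

theorem sum_three (tp tq : ℝ) : ∑ w, F.three tp tq w = 1 :=
  (sum_glue (F.two_nonneg tp) (F.law_eq_three tp tq)).trans (F.sum_two tp)

theorem H_three_fst (tp tq : ℝ) {U : Type*} (V : F.Ω × F.Ω → U) :
    H (F.three tp tq) (fun w => V w.1) = H (F.two tp) V :=
  H_glue_fst (F.two_nonneg tp) (F.law_eq_three tp tq) V

theorem H_three_snd (tp tq : ℝ) {U : Type*} (V : F.Ω → U) :
    H (F.three tp tq) (fun w => V w.2) = H F.p V :=
  H_glue_snd F.hp (F.law_eq_three tp tq) V

/-- entropy of the three lines -/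
theorem H_three_lines (tp tq : ℝ) :
    H (F.three tp tq) (fun w => w) = 3 * F.L - F.S tp - F.S tq := by
  have h := H_glue_pair (p₁ := F.two tp) (p₂ := F.p) (Z₁ := fun w => F.P tq w.1)
    (Z₂ := F.P tq) (F.two_nonneg tp) F.hp (F.law_eq_three tp tq)
    (X := fun w => w) (Y := fun ω => ω)
    (fun w w' _ _ h => congrArg (fun w : F.Ω × F.Ω => F.P tq w.1) h)
    (fun ω ω' _ _ h => congrArg (F.P tq) h)
  have e : H (F.three tp tq) (fun w => w) = H (F.three tp tq) (fun w => (w.1, w.2)) := rfl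
  rw [e]
  unfold three
  rw [h, F.H_two_lines, F.H_two_fst tp (F.P tq)]
  unfold L S
  ring

/-- two lines with the same rounded point are close at that time -/
theorem close {t : ℝ} {ω ω' : F.Ω} (h : F.P t ω = F.P t ω') (i : Fin d) :
    |(F.f ω i + t * F.g ω i) - (F.f ω' i + t * F.g ω' i)| ≤ 1 := (rd_close h i).le

/-- the time `r` for which `X` is a combination of `pt τ w₀` and `pt r w₁` -/
noncomputable def _root_.Pool.Agent.H49.KH.rt (t s c τ : ℝ) : ℝ := t + c * (τ - t) / (τ - s)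

/-- Inequality (III). -/
theorem ineq_III {T : Finset ℝ} {w : ℝ → ℝ} {a κ R : ℝ} (h : AKd d T w κ)
    (hw : ∀ t ∈ T, 0 ≤ w t) (ha : ∑ t ∈ T, w t = a) {t s c : ℝ} (hR : 0 ≤ R)
    (hc : 1 ≤ R * |c|) (hst : |s - t| ≤ 1)
    (hT : ∀ τ ∈ T, 1 ≤ R * |τ - t| ∧ |τ - s| ≤ 1 ∧ τ ≠ s) :
    2 * F.L + (a - 1) * F.x t s c ≤
      F.S t + ∑ τ ∈ T, w τ * F.m t τ (rt t s c τ) + κ + (a + 1) * er d R := by
  have h1 := h.ineq ha (F.two_nonneg t) (F.sum_two t) (fun w => F.f w.1) (fun w => F.g w.1)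
    (fun w => rd (F.X s c w))
  have hR4 : 0 ≤ 4 * R := by linarith
  have e1 : 2 * F.L - F.S t ≤ H (F.two t) (fun w => (rd (F.g w.1), rd (F.X s c w))) + er d R := by
    rw [← F.H_two_lines]
    refine H_le_close (F.two_nonneg t) (F.sum_two t) (fun w => F.g w.2) hR4 ?_ ?_
    · intro w w' hw hw' he i
      simp only [Prod.mk.injEq] at he
      have e0 := F.inj _ _ (F.two_pos hw).1 (F.two_pos hw').1 he.1
      have e3 := rd_close he.2 i
      simp only [X, pt, e0, Pi.add_apply, Pi.smul_apply, smul_eq_mul] at e3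
      refine bound2 (q := c) (A := (F.f w'.1 i + s * F.g w'.1 i + c * F.g w.2 i) -
        (F.f w'.1 i + s * F.g w'.1 i + c * F.g w'.2 i)) (B := 0) (by ring) e3.le (by norm_num) hc
    · intro w w' hw hw' he he2
      simp only [Prod.mk.injEq] at he
      exact Prod.ext (F.inj _ _ (F.two_pos hw).1 (F.two_pos hw').1 he.1)
        (F.inj _ _ (F.two_pos hw).2.1 (F.two_pos hw').2.1 he2)
  have e2 : ∀ τ ∈ T, H (F.two t) (fun w => (rd (F.f w.1 + τ • F.g w.1), rd (F.X s c w))) ≤
      F.m t τ (rt t s c τ) + er d R := by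
    intro τ hτ
    obtain ⟨n1, n2, n3⟩ := hT τ hτ
    have n4 : τ - s ≠ 0 := sub_ne_zero.mpr n3
    unfold m
    refine H_le_close (F.two_nonneg t) (F.sum_two t) (fun w => F.X s c w) hR4 ?_ ?_
    · intro w w' hw hw' he i
      simp only [Prod.mk.injEq] at he
      have a1 := F.close he.1 i
      have a2 := F.close he.2 i
      have a3 := F.close (F.two_pos hw).2.2 i
      have a4 := F.close (F.two_pos hw').2.2 i
      refine bound4 (q := τ - t) (a := s - t) (b := τ - s) ?_ hst n2 a1 a2 a3 a4 n1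
      simp only [X, pt, rt, Pi.add_apply, Pi.smul_apply, smul_eq_mul]
      field_simp
      ring
    · intro w w' _ _ he he2
      simp only [Prod.mk.injEq] at he ⊢
      exact ⟨he.1, he2⟩
  have e3 := Finset.sum_le_sum (fun τ hτ => mul_le_mul_of_nonneg_left (e2 τ hτ) (hw τ hτ))
  simp only [mul_add, Finset.sum_add_distrib] at e3
  rw [← Finset.sum_mul, ha] at e3
  have e4 : F.x t s c = H (F.two t) (fun w => rd (F.X s c w)) := rfl
  rw [e4]
  linarith

/-- Inequality (IV). -/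
theorem ineq_IV (t s r : ℝ) : F.m t s r ≤ F.S s + F.S r := by
  have h1 := subadd (F.two_nonneg t) (F.sum_two t) (X := fun w => F.P s w.1)
    (Y := fun w => F.P r w.2) (W := fun w => (F.P s w.1, F.P r w.2)) (fun _ _ _ _ h => h)
  rw [F.H_two_fst t (F.P s), F.H_two_snd t (F.P r)] at h1
  exact h1

/-- The pair `(w₀, w₂)` has the law of two lines crossing at `tq`. -/
theorem H_three_02 (tp tq : ℝ) {U : Type*} (V : F.Ω × F.Ω → U) :
    H (F.three tp tq) (fun w => V (w.1.1, w.2)) = H (F.two tq) V := by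
  classical
  refine H_eq_of_marginal (fun w : (F.Ω × F.Ω) × F.Ω => (w.1.1, w.2)) (fun ω => ?_) V
  obtain ⟨ω0, ω2⟩ := ω
  have hs : ∑ i, F.two tp (ω0, i) = F.p ω0 := glue_fst F.hp (fun _ => rfl) ω0
  have e2 : ∑ i, F.three tp tq ((ω0, i), ω2) = F.two tq (ω0, ω2) := by
    by_cases h : F.P tq ω0 = F.P tq ω2
    · have g1 : ∀ i, F.three tp tq ((ω0, i), ω2) =
          F.two tp (ω0, i) * F.p ω2 / law F.p (F.P tq) (F.P tq ω0) := by
        intro i
        rw [← F.law_eq_three tp tq, three, glue, if_pos h]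
      have g2 : F.two tq (ω0, ω2) = F.p ω0 * F.p ω2 / law F.p (F.P tq) (F.P tq ω0) := by
        rw [two, glue, if_pos h]
      rw [Finset.sum_congr rfl (fun i _ => g1 i), g2, ← Finset.sum_div, ← Finset.sum_mul, hs]
    · have g1 : ∀ i, F.three tp tq ((ω0, i), ω2) = 0 := by
        intro i
        rw [three, glue, if_neg h]
      have g2 : F.two tq (ω0, ω2) = 0 := by
        rw [two, glue, if_neg h]
      rw [Finset.sum_congr rfl (fun i _ => g1 i), g2, Finset.sum_const_zero]
  rw [← e2, Fintype.sum_prod_type, Fintype.sum_prod_type, Finset.sum_eq_single ω0]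
  · refine Finset.sum_congr rfl (fun i _ => ?_)
    rw [Finset.sum_eq_single ω2]
    · simp
    · intro b _ hb; simp [hb]
    · intro h; exact absurd (Finset.mem_univ _) h
  · intro b _ hb
    refine Finset.sum_eq_zero (fun y _ => Finset.sum_eq_zero (fun z _ => ?_))
    rw [if_neg]
    simp [hb]
  · intro h; exact absurd (Finset.mem_univ _) h

/-- the functional `Y = pt tr w₂ + c g(w₁)` -/
def Yf (tr c : ℝ) (w : (F.Ω × F.Ω) × F.Ω) : Fin d → ℝ := F.pt tr w.2 + c • F.g w.1.2

/-- Inequality (II). -/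
theorem ineq_II {tp tq tr c R : ℝ} (hR : 0 ≤ R) (hrq : 1 ≤ R * |tr - tq|) (hc : 1 ≤ R * |c|) :
    F.L + F.m tq tp tr ≤
      F.S tp + F.S tr + H (F.three tp tq) (fun w => rd (F.Yf tr c w)) + 2 * er d R := by
  have hR4 : 0 ≤ 4 * R := by linarith
  -- the lines `w₀`, `w₁` and the point `pt tr w₂` nearly determine everything
  have hW : 3 * F.L - F.S tp - F.S tq ≤
      H (F.three tp tq) (fun w => ((w.1.1, w.1.2), F.P tr w.2)) + er d R := by
    rw [← F.H_three_lines]
    refine H_le_close (F.three_nonneg tp tq) (F.sum_three tp tq) (fun w => F.g w.2) hR4 ?_ ?_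
    · intro w w' hw hw' he i
      simp only [Prod.mk.injEq] at he
      have p1 := (F.three_pos hw).2.2.2.2
      have p2 := (F.three_pos hw').2.2.2.2
      have p3 : F.P tq w.2 = F.P tq w'.2 := by rw [← p1, ← p2, he.1.1]
      have a1 := F.close he.2 i
      have a2 := F.close p3 i
      exact bound2 (q := tr - tq) (by ring) a1 a2 hrq
    · intro w w' hw hw' he he2
      simp only [Prod.mk.injEq] at he
      exact Prod.ext (Prod.ext he.1.1 he.1.2)
        (F.inj _ _ (F.three_pos hw).2.2.1 (F.three_pos hw').2.2.1 he2)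
  have hB : H (F.three tp tq) (fun w => (w.1.1, F.P tr w.2)) ≤ 2 * F.L - F.S tq := by
    rw [F.H_three_02 tp tq (fun w => (w.1, F.P tr w.2)), ← F.H_two_lines]
    refine H_mono (F.two_nonneg tq) (fun w w' _ _ h => by rw [h])
  have hZ : H (F.three tp tq) (fun w => (F.P tp w.1.1, F.P tr w.2)) = F.m tq tp tr :=
    F.H_three_02 tp tq (fun w => (F.P tp w.1, F.P tr w.2))
  have h1 := submod (F.three_nonneg tp tq)
    (X := fun w => (w.1.2, F.P tr w.2)) (Y := fun w => (w.1.1, F.P tr w.2))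
    (Z := fun w => (F.P tp w.1.1, F.P tr w.2))
    (W := fun w => ((w.1.1, w.1.2), F.P tr w.2)) ?_ ?_ ?_
  · -- the second application
    have h2 := subadd (F.three_nonneg tp tq) (F.sum_three tp tq)
      (X := fun w => rd (F.Yf tr c w)) (Y := fun w => F.P tr w.2)
      (W := fun w => (rd (F.Yf tr c w), F.P tr w.2)) (fun _ _ _ _ h => h)
    have h3 : H (F.three tp tq) (fun w => (w.1.2, F.P tr w.2)) ≤
        H (F.three tp tq) (fun w => (rd (F.Yf tr c w), F.P tr w.2)) + er d R := by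
      refine H_le_close (F.three_nonneg tp tq) (F.sum_three tp tq) (fun w => F.g w.1.2) hR4 ?_ ?_
      · intro w w' hw hw' he i
        simp only [Prod.mk.injEq] at he
        have a1 := F.close he.2 i
        have a2 := (rd_close he.1 i).le
        simp only [Yf, pt, Pi.add_apply, Pi.smul_apply, smul_eq_mul] at a2
        exact bound2 (q := c) (by ring) a2 a1 hc
      · intro w w' hw hw' he he2
        simp only [Prod.mk.injEq] at he ⊢
        exact ⟨F.inj _ _ (F.three_pos hw).2.1 (F.three_pos hw').2.1 he2, he.2⟩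
    rw [F.H_three_snd tp tq (F.P tr)] at h2
    have h4 : F.S tr = H F.p (F.P tr) := rfl
    rw [← h4] at h2
    linarith
  · intro w w' hw hw' h
    simp only [Prod.mk.injEq] at h ⊢
    refine ⟨?_, h.2⟩
    rw [(F.three_pos hw).2.2.2.1, (F.three_pos hw').2.2.2.1, h.1]
  · intro w w' hw hw' h
    simp only [Prod.mk.injEq] at h ⊢
    exact ⟨by rw [h.1], h.2⟩
  · intro w w' hw hw' h
    simp only [Prod.mk.injEq] at h ⊢
    exact ⟨⟨h.2.1, h.1.1⟩, h.1.2⟩

/-- Inequality (I). -/
theorem ineq_I {T : Finset ℝ} {w : ℝ → ℝ} {a κ R : ℝ} (h : AKd d T w κ)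
    (hw : ∀ t ∈ T, 0 ≤ w t) (ha : ∑ t ∈ T, w t = a) {tp tq tr c : ℝ} (hR : 0 ≤ R)
    (hpq : 1 ≤ R * |tp - tq|) (hc : 1 ≤ R * |c|) (hrq : |tr - tq| ≤ 1)
    (hT : ∀ τ ∈ T, 1 ≤ R * |τ - tq| ∧ |τ - tr| ≤ 1 ∧ τ ≠ tr) :
    3 * F.L + (a - 1) * H (F.three tp tq) (fun w => rd (F.Yf tr c w)) ≤
      F.S tp + F.S tq + ∑ τ ∈ T, w τ * (F.S τ + F.x tp tq (c * (τ - tq) / (τ - tr))) +
        κ + (a + 2) * er d R := by
  have hR4 : 0 ≤ 4 * R := by linarith
  have h1 := h.ineq ha (F.three_nonneg tp tq) (F.sum_three tp tq) (fun w => F.f w.2)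
    (fun w => F.g w.2) (fun w => rd (F.Yf tr c w))
  have e0 : 3 * F.L - F.S tp - F.S tq ≤
      H (F.three tp tq) (fun w => (w.1.2, w.2)) + er d R := by
    rw [← F.H_three_lines]
    refine H_le_close (F.three_nonneg tp tq) (F.sum_three tp tq) (fun w => F.g w.1.1) hR4 ?_ ?_
    · intro w w' hw hw' he i
      simp only [Prod.mk.injEq] at he
      obtain ⟨_, _, _, p4, p5⟩ := F.three_pos hw
      obtain ⟨_, _, _, q4, q5⟩ := F.three_pos hw'
      have p6 : F.P tp w.1.1 = F.P tp w'.1.1 := by rw [p4, q4, he.1]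
      have p7 : F.P tq w.1.1 = F.P tq w'.1.1 := by rw [p5, q5, he.2]
      exact bound2 (q := tp - tq) (by ring) (F.close p6 i) (F.close p7 i) hpq
    · intro w w' hw hw' he he2
      simp only [Prod.mk.injEq] at he
      exact Prod.ext (Prod.ext (F.inj _ _ (F.three_pos hw).1 (F.three_pos hw').1 he2) he.1) he.2
  have e1 : H (F.three tp tq) (fun w => (w.1.2, w.2)) ≤
      H (F.three tp tq) (fun w => (rd (F.g w.2), rd (F.Yf tr c w))) + er d R := by
    refine H_le_close (F.three_nonneg tp tq) (F.sum_three tp tq) (fun w => F.g w.1.2) hR4 ?_ ?_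
    · intro w w' hw hw' he i
      simp only [Prod.mk.injEq] at he
      have e2 := F.inj _ _ (F.three_pos hw).2.2.1 (F.three_pos hw').2.2.1 he.1
      have a2 := (rd_close he.2 i).le
      simp only [Yf, pt, e2, Pi.add_apply, Pi.smul_apply, smul_eq_mul] at a2
      exact bound2 (q := c) (B := 0) (by ring) a2 (by norm_num) hc
    · intro w w' hw hw' he he2
      simp only [Prod.mk.injEq] at he ⊢
      exact ⟨F.inj _ _ (F.three_pos hw).2.1 (F.three_pos hw').2.1 he2,
        F.inj _ _ (F.three_pos hw).2.2.1 (F.three_pos hw').2.2.1 he.1⟩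
  have e2 : ∀ τ ∈ T, H (F.three tp tq) (fun w => (rd (F.f w.2 + τ • F.g w.2),
      rd (F.Yf tr c w))) ≤ F.S τ + F.x tp tq (c * (τ - tq) / (τ - tr)) + er d R := by
    intro τ hτ
    obtain ⟨n1, n2, n3⟩ := hT τ hτ
    have n4 : τ - tr ≠ 0 := sub_ne_zero.mpr n3
    have h2 := subadd (F.three_nonneg tp tq) (F.sum_three tp tq)
      (X := fun w => F.P τ w.2) (Y := fun w => rd (F.X tq (c * (τ - tq) / (τ - tr)) w.1))
      (W := fun w => (F.P τ w.2, rd (F.X tq (c * (τ - tq) / (τ - tr)) w.1)))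
      (fun _ _ _ _ h => h)
    rw [F.H_three_snd tp tq (F.P τ),
      F.H_three_fst tp tq (fun w => rd (F.X tq (c * (τ - tq) / (τ - tr)) w))] at h2
    have h3 : H (F.three tp tq) (fun w => (rd (F.f w.2 + τ • F.g w.2), rd (F.Yf tr c w))) ≤
        H (F.three tp tq) (fun w => (F.P τ w.2, rd (F.X tq (c * (τ - tq) / (τ - tr)) w.1))) +
          er d R := by
      refine H_le_close (F.three_nonneg tp tq) (F.sum_three tp tq) (fun w => F.Yf tr c w) hR4
        ?_ ?_
      · intro w w' hw hw' he i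
        simp only [Prod.mk.injEq] at he
        have a1 := F.close he.1 i
        have a2 := (rd_close he.2 i).le
        have a3 := F.close (F.three_pos hw').2.2.2.2 i
        have a4 := F.close (F.three_pos hw).2.2.2.2 i
        simp only [X, pt, Pi.add_apply, Pi.smul_apply, smul_eq_mul] at a2
        refine bound4 (q := τ - tq) (a := tr - tq) (b := τ - tr) ?_ hrq n2 a1 a2 a3 a4 n1
        simp only [Yf, pt, Pi.add_apply, Pi.smul_apply, smul_eq_mul]
        field_simp
        ring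
      · intro w w' _ _ he he2
        simp only [Prod.mk.injEq] at he ⊢
        exact ⟨he.1, he2⟩
    have h4 : F.S τ = H F.p (F.P τ) := rfl
    have h5 : F.x tp tq (c * (τ - tq) / (τ - tr)) =
      H (F.two tp) (fun w => rd (F.X tq (c * (τ - tq) / (τ - tr)) w)) := rfl
    rw [h4, h5]
    linarith
  have e3 := Finset.sum_le_sum (fun τ hτ => mul_le_mul_of_nonneg_left (e2 τ hτ) (hw τ hτ))
  have e4 : ∑ τ ∈ T, w τ * (F.S τ + F.x tp tq (c * (τ - tq) / (τ - tr)) + er d R) =
      ∑ τ ∈ T, w τ * (F.S τ + F.x tp tq (c * (τ - tq) / (τ - tr))) + a * er d R := by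
    rw [← ha, Finset.sum_mul, ← Finset.sum_add_distrib]
    exact Finset.sum_congr rfl (fun τ _ => by ring)
  rw [e4] at e3
  linarith

theorem x_nonneg (t s c : ℝ) : 0 ≤ F.x t s c := H_nonneg (F.two_nonneg t) (F.sum_two t) _

theorem S_nonneg (t : ℝ) : 0 ≤ F.S t := H_nonneg F.hp F.h1 _

/-- The trivial inequality, with two times. -/
theorem two_times {s t R : ℝ} (hR : 0 ≤ R) (hst : 1 ≤ R * |s - t|) :
    F.L ≤ F.S s + F.S t + er d R := by
  have h1 := subadd F.hp F.h1 (X := F.P s) (Y := F.P t) (W := fun ω => (F.P s ω, F.P t ω))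
    (fun _ _ _ _ h => h)
  have h2 : F.L ≤ H F.p (fun ω => (F.P s ω, F.P t ω)) + er d R := by
    refine H_le_close F.hp F.h1 (fun ω => F.g ω) (by linarith) ?_ ?_
    · intro ω ω' _ _ he i
      simp only [Prod.mk.injEq] at he
      exact bound2 (q := s - t) (by ring) (F.close he.1 i) (F.close he.2 i) hst
    · intro ω ω' h h' _ he
      exact F.inj _ _ h h' he
  have h3 : F.S s = H F.p (F.P s) := rfl
  have h4 : F.S t = H F.p (F.P t) := rfl
  rw [h3, h4]
  linarith

end Fam

/-- It is enough to prove the slope inequality for families. -/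
theorem AKd_of_fam {d : ℕ} {T : Finset ℝ} {w : ℝ → ℝ} {κ : ℝ} (hw : ∀ t ∈ T, 0 ≤ w t)
    (h : ∀ F : Fam d, F.L ≤ ∑ t ∈ T, w t * F.S t + κ) : AKd d T w κ := by
  intro Ω _ p f g hp h1
  obtain ⟨p', q1, _, q3, q4, q5, q6⟩ :=
    exists_section T (fun t => fun ω => rd (f ω + t • g ω)) w hw (fun ω => rd (g ω)) _ p hp le_rfl
  have h2 := h ⟨Ω, p', q1, q3.trans h1, f, g, q5⟩
  have h3 : H p' (fun ω => rd (g ω)) = H p (fun ω => rd (g ω)) := by
    classical
    rw [H_eq_sum_image, H_eq_sum_image]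
    exact Finset.sum_congr rfl (fun s _ => by rw [q4 s])
  have h4 : H p' (fun ω => rd (g ω)) ≤ H p' (fun ω => ω) :=
    H_mono q1 (fun ω ω' _ _ h => by rw [h])
  rw [← h3]
  unfold Fam.L Fam.S Fam.P at h2
  dsimp only at h2
  linarith

end Pool.Agent.H49.KH
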