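import Mathlib
import Pool.Agent.H49.KH.Fam

/-!
# Choosing times in dense sets by Fubini's theorem
-/

set_option autoImplicit false

open MeasureTheory Set
open scoped ENNReal

namespace Pool.Agent.H49.KH

/-- the set of pairs behind the Fubini argument -/
def pairSet (A B : Set ℝ) (k : ℝ → ℝ) (t : ℝ) : Set (ℝ × ℝ) :=
  {z | z.2 ∈ A ∧ t + z.1 * k z.2 ∈ B}

theorem measurableSet_pairSet {A B : Set ℝ} (hA : MeasurableSet A) (hB : MeasurableSet B)
    {k : ℝ → ℝ} (hk : Measurable k) (t : ℝ) : MeasurableSet (pairSet A B k t) := by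
  refine (measurable_snd hA).inter ?_
  have : Measurable fun z : ℝ × ℝ => t + z.1 * k z.2 :=
    measurable_const.add (measurable_fst.mul (hk.comp measurable_snd))
  exact this hB

theorem measurable_section {A B : Set ℝ} (hA : MeasurableSet A) (hB : MeasurableSet B)
    {k : ℝ → ℝ} (hk : Measurable k) (t : ℝ) :
    Measurable fun c : ℝ => volume {τ : ℝ | τ ∈ A ∧ t + c * k τ ∈ B} :=
  measurable_measure_prodMk_left (measurableSet_pairSet hA hB hk t)

/-- Fubini: the average over `c` of the measure of the `τ ∈ A` with `t + c k(τ) ∈ B`. -/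
theorem fubini_affine {A B : Set ℝ} (hA : MeasurableSet A) (hB : MeasurableSet B)
    {k : ℝ → ℝ} (hk : Measurable k) (t : ℝ) {K : ℝ} (hK : 0 < K)
    (hkA : ∀ τ ∈ A, k τ ≠ 0 ∧ |k τ| ≤ K) :
    ENNReal.ofReal (1 / K) * volume A * volume B ≤
      ∫⁻ c : ℝ, volume {τ : ℝ | τ ∈ A ∧ t + c * k τ ∈ B} := by
  have hE := measurableSet_pairSet hA hB hk t
  have e1 : ∫⁻ c : ℝ, volume {τ : ℝ | τ ∈ A ∧ t + c * k τ ∈ B} =
      (volume.prod volume) (pairSet A B k t) := (Measure.prod_apply hE).symm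
  rw [e1, Measure.prod_apply_symm hE]
  have e2 : ENNReal.ofReal (1 / K) * volume A * volume B =
      ∫⁻ τ in A, ENNReal.ofReal (1 / K) * volume B := by
    rw [setLIntegral_const]; ring
  rw [e2, ← lintegral_indicator hA]
  refine lintegral_mono (fun τ => ?_)
  by_cases hτ : τ ∈ A
  · rw [Set.indicator_of_mem hτ]
    obtain ⟨h1, h2⟩ := hkA τ hτ
    have e3 : (fun c : ℝ => (c, τ)) ⁻¹' pairSet A B k t =
        (fun c => c * k τ) ⁻¹' ((fun y => t + y) ⁻¹' B) := by
      ext c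
      simp only [pairSet, Set.mem_preimage, Set.mem_ofPred_eq]
      exact ⟨fun h => h.2, fun h => ⟨hτ, h⟩⟩
    rw [e3, Real.volume_preimage_mul_right h1, measure_preimage_add]
    refine mul_le_mul_left ?_ _
    refine ENNReal.ofReal_le_ofReal ?_
    rw [abs_inv, one_div]
    exact inv_anti₀ (abs_pos.mpr h1) h2
  · rw [Set.indicator_of_notMem hτ]
    exact bot_le

/-- pigeonhole -/
theorem pigeon {F : ℝ → ℝ≥0∞} (hF : Measurable F) {M : ℝ}
    (hsupp : ∀ c, M < |c| → F c = 0) (h1 : ∀ c, F c ≤ 1) {I η : ℝ} (hη : 0 ≤ η)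
    (hM : 0 ≤ M) (hI : ENNReal.ofReal I ≤ ∫⁻ c, F c) :
    ENNReal.ofReal (I - 2 * M * η) ≤ volume {c | ENNReal.ofReal η ≤ F c} := by
  set G : Set ℝ := {c | ENNReal.ofReal η ≤ F c} with hG
  have hGm : MeasurableSet G := measurableSet_le measurable_const hF
  have h2 : ∫⁻ c, F c ≤ ∫⁻ c, (G.indicator (fun _ => (1 : ℝ≥0∞)) c +
      (Icc (-M) M).indicator (fun _ => ENNReal.ofReal η) c) := by
    refine lintegral_mono (fun c => ?_)
    by_cases hc : c ∈ G
    · rw [Set.indicator_of_mem hc]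
      exact (h1 c).trans (le_add_of_nonneg_right bot_le)
    · rw [Set.indicator_of_notMem hc, zero_add]
      by_cases hc2 : c ∈ Icc (-M) M
      · rw [Set.indicator_of_mem hc2]
        have : F c < ENNReal.ofReal η := not_le.mp hc
        exact this.le
      · rw [Set.indicator_of_notMem hc2]
        rw [hsupp c]
        by_contra hcon
        push Not at hcon
        exact hc2 (abs_le.mp hcon)
  rw [lintegral_add_left (measurable_const.indicator hGm), lintegral_indicator hGm,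
    lintegral_indicator measurableSet_Icc, setLIntegral_const, setLIntegral_const, one_mul,
    Real.volume_Icc] at h2
  have h3 : ENNReal.ofReal η * ENNReal.ofReal (M - -M) = ENNReal.ofReal (2 * M * η) := by
    rw [← ENNReal.ofReal_mul hη]
    congr 1
    ring
  rw [h3] at h2
  rw [ENNReal.ofReal_sub _ (by positivity)]
  exact tsub_le_iff_right.mpr (hI.trans h2)

/-- the part of `S` away from `t` and `s` -/
def far (S : Set ℝ) (l t s : ℝ) : Set ℝ := {τ | τ ∈ S ∧ l / 8 ≤ |τ - t| ∧ l / 8 ≤ |τ - s|}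

theorem measurableSet_far {S : Set ℝ} (hS : MeasurableSet S) (l t s : ℝ) :
    MeasurableSet (far S l t s) := by
  refine hS.inter (MeasurableSet.inter ?_ ?_)
  · have : Measurable fun τ : ℝ => |τ - t| := by fun_prop
    exact measurableSet_le measurable_const this
  · have : Measurable fun τ : ℝ => |τ - s| := by fun_prop
    exact measurableSet_le measurable_const this

theorem far_vol {S : Set ℝ} {l : ℝ} (hl : 0 < l) (hv : ENNReal.ofReal l ≤ volume S) (t s : ℝ) :
    ENNReal.ofReal (l / 2) ≤ volume (far S l t s) := by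
  have h1 : S ⊆ far S l t s ∪ (Ioo (t - l / 8) (t + l / 8) ∪ Ioo (s - l / 8) (s + l / 8)) := by
    intro τ hτ
    by_cases h2 : l / 8 ≤ |τ - t|
    · by_cases h3 : l / 8 ≤ |τ - s|
      · exact Or.inl ⟨hτ, h2, h3⟩
      · right; right
        push Not at h3
        rw [abs_lt] at h3
        exact ⟨by linarith [h3.1], by linarith [h3.2]⟩
    · right; left
      push Not at h2
      rw [abs_lt] at h2
      exact ⟨by linarith [h2.1], by linarith [h2.2]⟩
  have h2 := hv.trans ((measure_mono h1).trans ((measure_union_le _ _).trans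
    (add_le_add_right (measure_union_le _ _) _)))
  rw [Real.volume_Ioo, Real.volume_Ioo, ← ENNReal.ofReal_add (by linarith) (by linarith)] at h2
  have h3 : (t + l / 8 - (t - l / 8)) + (s + l / 8 - (s - l / 8)) = l / 2 := by ring
  rw [h3] at h2
  have h4 : ENNReal.ofReal (l / 2) = ENNReal.ofReal (l - l / 2) := by congr 1; ring
  rw [h4, ENNReal.ofReal_sub _ (by linarith)]
  exact tsub_le_iff_right.mpr h2

/-- the good times for given `t, s, c` -/
def Bset (S : Set ℝ) (l t s c : ℝ) : Set ℝ :=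
  {τ | τ ∈ far S l t s ∧ t + c * ((τ - t) / (τ - s)) ∈ far S l t s}

/-- the good coefficients for given `t, s` -/
def Gset (S : Set ℝ) (l t s : ℝ) : Set ℝ :=
  {c | ENNReal.ofReal (l ^ 4 / 1024) ≤ volume (Bset S l t s c)}

theorem measurable_ratio (t s : ℝ) : Measurable fun τ : ℝ => (τ - t) / (τ - s) := by fun_prop

theorem measurableSet_Bset {S : Set ℝ} (hS : MeasurableSet S) (l t s c : ℝ) :
    MeasurableSet (Bset S l t s c) := by
  refine (measurableSet_far hS l t s).inter ?_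
  have : Measurable fun τ : ℝ => t + c * ((τ - t) / (τ - s)) :=
    measurable_const.add ((measurable_ratio t s).const_mul c)
  exact this (measurableSet_far hS l t s)

theorem measurableSet_Gset {S : Set ℝ} (hS : MeasurableSet S) (l t s : ℝ) :
    MeasurableSet (Gset S l t s) :=
  measurableSet_le measurable_const
    (measurable_section (measurableSet_far hS l t s) (measurableSet_far hS l t s)
      (measurable_ratio t s) t)

theorem ratio_bound {S : Set ℝ} {l t s τ : ℝ} (hl : 0 < l) (hS : S ⊆ Icc 0 1)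
    (ht : t ∈ Icc (0 : ℝ) 1) (hs : s ∈ Icc (0 : ℝ) 1) (h : τ ∈ far S l t s) :
    (τ - t) / (τ - s) ≠ 0 ∧ |(τ - t) / (τ - s)| ≤ 8 / l ∧ l / 8 ≤ |(τ - t) / (τ - s)| ∧
      |τ - t| ≤ 1 ∧ |τ - s| ≤ 1 := by
  obtain ⟨h1, h2, h3⟩ := h
  have h4 := hS h1
  have h5 : |τ - t| ≤ 1 := abs_le.mpr ⟨by linarith [h4.1, ht.2], by linarith [h4.2, ht.1]⟩
  have h6 : |τ - s| ≤ 1 := abs_le.mpr ⟨by linarith [h4.1, hs.2], by linarith [h4.2, hs.1]⟩
  have h7 : 0 < |τ - t| := by linarith
  have h8 : 0 < |τ - s| := by linarith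
  refine ⟨div_ne_zero (abs_pos.mp h7) (abs_pos.mp h8), ?_, ?_, h5, h6⟩
  · rw [abs_div, div_le_div_iff₀ h8 hl]
    nlinarith
  · rw [abs_div, le_div_iff₀ h8]
    nlinarith

theorem Bset_bound {S : Set ℝ} {l t s c τ : ℝ} (hl : 0 < l) (hS : S ⊆ Icc 0 1)
    (ht : t ∈ Icc (0 : ℝ) 1) (hs : s ∈ Icc (0 : ℝ) 1) (h : τ ∈ Bset S l t s c) :
    l ^ 2 / 64 ≤ |c| ∧ |c| ≤ 8 / l := by
  obtain ⟨h1, h2⟩ := h
  obtain ⟨k0, k1, k2, _, _⟩ := ratio_bound hl hS ht hs h1
  obtain ⟨_, _, _, k3, _⟩ := ratio_bound hl hS ht hs h2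
  have h3 := h2.2.1
  rw [add_sub_cancel_left, abs_mul] at h3 k3
  have hk : 0 < |(τ - t) / (τ - s)| := abs_pos.mpr k0
  constructor
  · have h4 : l / 8 ≤ |c| * (8 / l) := h3.trans (mul_le_mul_of_nonneg_left k1 (abs_nonneg c))
    have h5 : |c| * (8 / l) * (l / 8) = |c| := by field_simp
    nlinarith [mul_le_mul_of_nonneg_right h4 (by positivity : (0 : ℝ) ≤ l / 8)]
  · have h4 : |c| * (l / 8) ≤ 1 := (mul_le_mul_of_nonneg_left k2 (abs_nonneg c)).trans k3
    rw [le_div_iff₀ hl]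
    linarith

theorem Gset_bound {S : Set ℝ} {l t s c : ℝ} (hl : 0 < l) (hS : S ⊆ Icc 0 1)
    (ht : t ∈ Icc (0 : ℝ) 1) (hs : s ∈ Icc (0 : ℝ) 1) (h : c ∈ Gset S l t s) :
    l ^ 2 / 64 ≤ |c| ∧ |c| ≤ 8 / l := by
  have h1 : 0 < volume (Bset S l t s c) :=
    lt_of_lt_of_le (ENNReal.ofReal_pos.mpr (by positivity)) h
  obtain ⟨τ, hτ⟩ := nonempty_of_measure_ne_zero h1.ne'
  exact Bset_bound hl hS ht hs hτ

theorem vol_le_one {S : Set ℝ} (hS : S ⊆ Icc (0 : ℝ) 1) : volume S ≤ 1 :=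
  (measure_mono hS).trans (by rw [Real.volume_Icc]; norm_num)

theorem Gset_vol {S : Set ℝ} {l t s : ℝ} (hl : 0 < l) (hSm : MeasurableSet S)
    (hS : S ⊆ Icc 0 1) (hv : ENNReal.ofReal l ≤ volume S)
    (ht : t ∈ Icc (0 : ℝ) 1) (hs : s ∈ Icc (0 : ℝ) 1) :
    ENNReal.ofReal (l ^ 3 / 64) ≤ volume (Gset S l t s) := by
  have hA := measurableSet_far hSm l t s
  have h1 := fubini_affine hA hA (measurable_ratio t s) t (K := 8 / l) (by positivity)
    (fun τ hτ => ⟨(ratio_bound hl hS ht hs hτ).1, (ratio_bound hl hS ht hs hτ).2.1⟩)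
  have h2 : ENNReal.ofReal (l ^ 3 / 32) ≤
      ∫⁻ c : ℝ, volume {τ : ℝ | τ ∈ far S l t s ∧ t + c * ((τ - t) / (τ - s)) ∈ far S l t s} := by
    refine le_trans ?_ h1
    have h3 := far_vol hl hv t s
    have h4 : l ^ 3 / 32 = 1 / (8 / l) * (l / 2) * (l / 2) := by field_simp; ring
    rw [h4, ENNReal.ofReal_mul (by positivity), ENNReal.ofReal_mul (by positivity)]
    gcongr
  have h3 := pigeon (measurable_section hA hA (measurable_ratio t s) t) (M := 8 / l)
    (I := l ^ 3 / 32) (η := l ^ 4 / 1024) ?_ ?_ (by positivity) (by positivity) h2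
  · have h4 : l ^ 3 / 32 - 2 * (8 / l) * (l ^ 4 / 1024) = l ^ 3 / 64 := by field_simp; ring
    rw [h4] at h3
    exact h3
  · intro c hc
    by_contra h0
    obtain ⟨τ, hτ⟩ := nonempty_of_measure_ne_zero h0
    linarith [(Bset_bound hl hS ht hs (c := c) hτ).2]
  · intro c
    exact vol_le_one (fun τ hτ => hS hτ.1.1)

/-- the good times for the second step -/
def Dset (S : Set ℝ) (l tq tr ct : ℝ) (G : Set ℝ) : Set ℝ :=
  {τ | τ ∈ far S l tq tr ∧ 0 + ct * ((τ - tq) / (τ - tr)) ∈ G}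

theorem measurableSet_Dset {S G : Set ℝ} (hS : MeasurableSet S) (hG : MeasurableSet G)
    (l tq tr ct : ℝ) : MeasurableSet (Dset S l tq tr ct G) := by
  refine (measurableSet_far hS l tq tr).inter ?_
  have : Measurable fun τ : ℝ => 0 + ct * ((τ - tq) / (τ - tr)) :=
    measurable_const.add ((measurable_ratio tq tr).const_mul ct)
  exact this hG

theorem exists_ct {S G : Set ℝ} {l tq tr : ℝ} (hl : 0 < l) (hSm : MeasurableSet S)
    (hS : S ⊆ Icc 0 1) (hv : ENNReal.ofReal l ≤ volume S)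
    (hq : tq ∈ Icc (0 : ℝ) 1) (hr : tr ∈ Icc (0 : ℝ) 1) (hG : MeasurableSet G)
    (hGb : ∀ c ∈ G, l ^ 2 / 64 ≤ |c| ∧ |c| ≤ 8 / l)
    (hGv : ENNReal.ofReal (l ^ 3 / 64) ≤ volume G) :
    ∃ ct : ℝ, l ^ 3 / 512 ≤ |ct| ∧
      ENNReal.ofReal (l ^ 7 / 262144) ≤ volume (Dset S l tq tr ct G) := by
  have hA := measurableSet_far hSm l tq tr
  have hb : ∀ ct τ, τ ∈ Dset S l tq tr ct G → l ^ 3 / 512 ≤ |ct| ∧ |ct| ≤ 64 / l ^ 2 := by
    intro ct τ hτ
    obtain ⟨k0, k1, k2, _, _⟩ := ratio_bound hl hS hq hr hτ.1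
    have h1 := hGb _ hτ.2
    rw [zero_add, abs_mul] at h1
    obtain ⟨h2, h3⟩ := h1
    constructor
    · have h4 := h2.trans (mul_le_mul_of_nonneg_left k1 (abs_nonneg ct))
      have h5 : |ct| * (8 / l) * (l / 8) = |ct| := by field_simp
      nlinarith [mul_le_mul_of_nonneg_right h4 (by positivity : (0 : ℝ) ≤ l / 8)]
    · have h4 := (mul_le_mul_of_nonneg_left k2 (abs_nonneg ct)).trans h3
      have h5 : |ct| * (l / 8) * (8 / l) = |ct| := by field_simp
      have h6 := mul_le_mul_of_nonneg_right h4 (by positivity : (0 : ℝ) ≤ 8 / l)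
      rw [h5] at h6
      refine h6.trans (le_of_eq ?_)
      field_simp
      norm_num
  have h1 := fubini_affine hA hG (measurable_ratio tq tr) 0 (K := 8 / l) (by positivity)
    (fun τ hτ => ⟨(ratio_bound hl hS hq hr hτ).1, (ratio_bound hl hS hq hr hτ).2.1⟩)
  have h2 : ENNReal.ofReal (l ^ 5 / 1024) ≤
      ∫⁻ c : ℝ, volume {τ : ℝ | τ ∈ far S l tq tr ∧ 0 + c * ((τ - tq) / (τ - tr)) ∈ G} := by
    refine le_trans ?_ h1
    have h3 := far_vol hl hv tq tr
    have h4 : l ^ 5 / 1024 = 1 / (8 / l) * (l / 2) * (l ^ 3 / 64) := by field_simp; ring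
    rw [h4, ENNReal.ofReal_mul (by positivity), ENNReal.ofReal_mul (by positivity)]
    gcongr
  have h3 := pigeon (measurable_section hA hG (measurable_ratio tq tr) 0) (M := 64 / l ^ 2)
    (I := l ^ 5 / 1024) (η := l ^ 7 / 262144) ?_ ?_ (by positivity) (by positivity) h2
  · have h4 : l ^ 5 / 1024 - 2 * (64 / l ^ 2) * (l ^ 7 / 262144) = l ^ 5 / 2048 := by
      field_simp; ring
    rw [h4] at h3
    have h5 : 0 < volume {c | ENNReal.ofReal (l ^ 7 / 262144) ≤
        volume {τ : ℝ | τ ∈ far S l tq tr ∧ 0 + c * ((τ - tq) / (τ - tr)) ∈ G}} :=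
      lt_of_lt_of_le (ENNReal.ofReal_pos.mpr (by positivity)) h3
    obtain ⟨ct, hct⟩ := nonempty_of_measure_ne_zero h5.ne'
    refine ⟨ct, ?_, hct⟩
    have h6 : 0 < volume (Dset S l tq tr ct G) :=
      lt_of_lt_of_le (ENNReal.ofReal_pos.mpr (by positivity)) hct
    obtain ⟨τ, hτ⟩ := nonempty_of_measure_ne_zero h6.ne'
    exact (hb ct τ hτ).1
  · intro c hc
    by_contra h0
    obtain ⟨τ, hτ⟩ := nonempty_of_measure_ne_zero h0
    linarith [(hb c τ hτ).2]
  · intro c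
    exact vol_le_one (fun τ hτ => hS hτ.1.1)

/-- A set of positive measure contains two separated points. -/
theorem exists_two {S : Set ℝ} {l : ℝ} (hl : 0 < l) (hv : ENNReal.ofReal l ≤ volume S) :
    ∃ t ∈ S, ∃ s ∈ S, l / 8 ≤ |s - t| := by
  have h1 : 0 < volume S := lt_of_lt_of_le (ENNReal.ofReal_pos.mpr hl) hv
  obtain ⟨t, ht⟩ := nonempty_of_measure_ne_zero h1.ne'
  have h2 : 0 < volume (far S l t t) :=
    lt_of_lt_of_le (ENNReal.ofReal_pos.mpr (by positivity)) (far_vol hl hv t t)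
  obtain ⟨s, hs⟩ := nonempty_of_measure_ne_zero h2.ne'
  exact ⟨t, ht, s, hs.1, hs.2.1⟩

end Pool.Agent.H49.KH
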