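import Mathlib
import Pool.Agent.H49.KH.Meas

/-!
# The improvement step for dense sets of times
-/

set_option autoImplicit false

open MeasureTheory Set
open scoped BigOperators

namespace Pool.Agent.H49.KH

open Pool.Agent.H49.Ent

/-- `Φ` is a nonnegative combination of at most `k` members of `G` of total mass `B`. -/
inductive Comb {d : ℕ} (G : Set (Fam d → ℝ)) : ℝ → ℕ → (Fam d → ℝ) → Prop
  | zero : Comb G 0 0 (fun _ => 0)
  | add {B : ℝ} {k : ℕ} {Φ : Fam d → ℝ} (c : ℝ) (hc : 0 ≤ c) (φ : Fam d → ℝ) (hφ : φ ∈ G)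
      (h : Comb G B k Φ) : Comb G (B + c) (k + 1) (fun F => Φ F + c * φ F)
  | wk {B : ℝ} {k : ℕ} {Φ : Fam d → ℝ} (h : Comb G B k Φ) : Comb G B (k + 1) Φ

namespace Comb

variable {d : ℕ} {G G' : Set (Fam d → ℝ)} {B B' : ℝ} {k k' : ℕ} {Φ Φ' : Fam d → ℝ}

theorem congr (h : Comb G B k Φ) (hB : B = B') (hk : k = k') (hΦ : ∀ F, Φ F = Φ' F) :
    Comb G B' k' Φ' := by
  have : Φ = Φ' := funext hΦ
  subst hB; subst this; subst hk; exact h

theorem le (h : Comb G B k Φ) (hk : k ≤ k') : Comb G B k' Φ := by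
  induction hk with
  | refl => exact h
  | step _ ih => exact ih.wk

theorem of_mem {φ : Fam d → ℝ} (h : φ ∈ G) : Comb G 1 1 φ :=
  (Comb.add 1 zero_le_one φ h Comb.zero).congr (by ring) rfl (fun F => by ring)

theorem plus (h : Comb G B k Φ) (h' : Comb G B' k' Φ') :
    Comb G (B + B') (k + k') (fun F => Φ F + Φ' F) := by
  induction h' with
  | zero => exact h.congr (by ring) rfl (fun F => by ring)
  | add c hc φ hφ _ ih =>
    exact (Comb.add c hc φ hφ ih).congr (by ring) (by ring) (fun F => by ring)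
  | wk _ ih => exact ih.wk

theorem smul {c : ℝ} (hc : 0 ≤ c) (h : Comb G B k Φ) : Comb G (c * B) k (fun F => c * Φ F) := by
  induction h with
  | zero => exact Comb.zero.congr (by ring) rfl (fun F => by ring)
  | add e he φ hφ _ ih =>
    exact (Comb.add (c * e) (mul_nonneg hc he) φ hφ ih).congr (by ring) rfl (fun F => by ring)
  | wk _ ih => exact ih.wk

theorem sum (T : Finset ℝ) (w : ℝ → ℝ) (hw : ∀ t ∈ T, 0 ≤ w t) (φ : ℝ → Fam d → ℝ) {b : ℝ}
    {j : ℕ} (h : ∀ t ∈ T, Comb G b j (φ t)) :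
    Comb G ((∑ t ∈ T, w t) * b) (T.card * j) (fun F => ∑ t ∈ T, w t * φ t F) := by
  classical
  induction T using Finset.induction_on with
  | empty => exact Comb.zero.congr (by simp) (by simp) (fun F => by simp)
  | insert x T hx ih =>
    have h1 := ih (fun t ht => hw t (Finset.mem_insert_of_mem ht))
      (fun t ht => h t (Finset.mem_insert_of_mem ht))
    have h2 := (h x (Finset.mem_insert_self x T)).smul (hw x (Finset.mem_insert_self x T))
    refine (h1.plus h2).congr ?_ ?_ (fun F => ?_)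
    · rw [Finset.sum_insert hx]; ring
    · rw [Finset.card_insert_of_notMem hx]; ring
    · rw [Finset.sum_insert hx]; ring

/-- Lifting an inequality from the generators to the combinations. -/
theorem lift {G₁ G₂ : Set (Fam d → ℝ)} {b₁ b₂ l q e : ℝ} {k₁ k₂ : ℕ}
    (hstep : ∀ φ ∈ G, ∃ Φ₁ Φ₂, Comb G₁ b₁ k₁ Φ₁ ∧ Comb G₂ b₂ k₂ Φ₂ ∧
      ∀ F : Fam d, l * F.L + q * φ F ≤ Φ₁ F + Φ₂ F + e) (h : Comb G B k Φ) :
    ∃ Φ₁ Φ₂, Comb G₁ (B * b₁) (k * k₁) Φ₁ ∧ Comb G₂ (B * b₂) (k * k₂) Φ₂ ∧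
      ∀ F : Fam d, B * l * F.L + q * Φ F ≤ Φ₁ F + Φ₂ F + B * e := by
  induction h with
  | zero =>
    exact ⟨fun _ => 0, fun _ => 0, Comb.zero.congr (by ring) (by ring) (fun _ => rfl),
      Comb.zero.congr (by ring) (by ring) (fun _ => rfl), fun F => by simp⟩
  | add c hc φ hφ _ ih =>
    obtain ⟨Φ₁, Φ₂, h1, h2, h3⟩ := ih
    obtain ⟨Ψ₁, Ψ₂, g1, g2, g3⟩ := hstep φ hφ
    refine ⟨fun F => Φ₁ F + c * Ψ₁ F, fun F => Φ₂ F + c * Ψ₂ F,
      (h1.plus (g1.smul hc)).congr (by ring) (by ring) (fun _ => rfl),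
      (h2.plus (g2.smul hc)).congr (by ring) (by ring) (fun _ => rfl), fun F => ?_⟩
    have := mul_le_mul_of_nonneg_left (g3 F) hc
    have := h3 F
    dsimp only
    nlinarith
  | wk _ ih =>
    obtain ⟨Φ₁, Φ₂, h1, h2, h3⟩ := ih
    exact ⟨Φ₁, Φ₂, h1.le (Nat.mul_le_mul_right _ (Nat.le_succ _)),
      h2.le (Nat.mul_le_mul_right _ (Nat.le_succ _)), h3⟩

end Comb

/-- slice entropies at times in `S` -/
def SG (d : ℕ) (S : Set ℝ) : Set (Fam d → ℝ) := {φ | ∃ t ∈ S, φ = fun F => F.S t}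

/-- the functionals `x` with good parameters -/
def XG (d : ℕ) (S : Set ℝ) (l : ℝ) : Set (Fam d → ℝ) :=
  {φ | ∃ t ∈ S, ∃ s ∈ S, ∃ c ∈ Gset S l t s, l / 8 ≤ |s - t| ∧ φ = fun F => F.x t s c}

/-- the functionals `m` with good parameters -/
def MG (d : ℕ) (S : Set ℝ) (l : ℝ) : Set (Fam d → ℝ) :=
  {φ | ∃ t ∈ S, ∃ s ∈ S, ∃ r ∈ S, l / 8 ≤ |s - t| ∧ l / 8 ≤ |r - t| ∧ φ = fun F => F.m t s r}

/-- a dense set of times -/
structure Dense (S : Set ℝ) (l : ℝ) : Prop where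
  pos : 0 < l
  le_one : l ≤ 1
  meas : MeasurableSet S
  sub : S ⊆ Icc 0 1
  vol : ENNReal.ofReal l ≤ volume S

/-- the logarithm of the density -/
noncomputable def lg (l : ℝ) : ℝ := 1 + Real.log (1 / l)

theorem lg_ge_one {l : ℝ} (h0 : 0 < l) (h1 : l ≤ 1) : 1 ≤ lg l := by
  unfold lg
  have : 0 ≤ Real.log (1 / l) := Real.log_nonneg (by rw [le_div_iff₀ h0]; linarith)
  linarith

theorem lg_pow {l A : ℝ} {j : ℕ} {b : ℝ} (h0 : 0 < l) (h1 : l ≤ 1) (hA : 0 < A)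
    (hb : 1 + Real.log A ≤ b) (hj : (j : ℝ) ≤ b) : lg (l ^ j / A) ≤ b * lg l := by
  unfold lg
  have h2 : Real.log (1 / (l ^ j / A)) = Real.log A + j * Real.log (1 / l) := by
    rw [one_div, inv_div, Real.log_div hA.ne' (pow_pos h0 j).ne', Real.log_pow, one_div,
      Real.log_inv]
    ring
  rw [h2]
  have h3 : 0 ≤ Real.log (1 / l) := Real.log_nonneg (by rw [le_div_iff₀ h0]; linarith)
  nlinarith

theorem er_le {d : ℕ} {l : ℝ} (h0 : 0 < l) (h1 : l ≤ 1) : er d (512 / l ^ 3) ≤ 9 * d * lg l := by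
  unfold er lg
  have h3 : 0 ≤ Real.log (1 / l) := Real.log_nonneg (by rw [le_div_iff₀ h0]; linarith)
  have h4 : 2 * (4 * (512 / l ^ 3)) + 2 ≤ 8000 / l ^ 3 := by
    have h5 : (1 : ℝ) ≤ 1 / l ^ 3 := by
      rw [le_div_iff₀ (by positivity), one_mul]
      exact pow_le_one₀ h0.le h1
    have h6 : (512 : ℝ) / l ^ 3 = 512 * (1 / l ^ 3) := by ring
    have h7 : (8000 : ℝ) / l ^ 3 = 8000 * (1 / l ^ 3) := by ring
    rw [h6, h7]
    linarith
  have h5 : Real.log (2 * (4 * (512 / l ^ 3)) + 2) ≤ 9 + 3 * Real.log (1 / l) := by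
    refine (Real.log_le_log (by positivity) h4).trans ?_
    rw [Real.log_div (by norm_num) (by positivity), Real.log_pow, one_div, Real.log_inv]
    have h6 : Real.log 8000 ≤ 9 := by
      rw [Real.log_le_iff_le_exp (by norm_num)]
      have h7 := Real.exp_one_gt_d9
      calc (8000 : ℝ) ≤ 2.7182818283 ^ 9 := by norm_num
        _ ≤ Real.exp 1 ^ 9 := by gcongr
        _ = Real.exp 9 := by rw [← Real.exp_nat_mul]; norm_num
    push_cast
    linarith
  calc (d : ℝ) * Real.log (2 * (4 * (512 / l ^ 3)) + 2) ≤ d * (9 + 3 * Real.log (1 / l)) :=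
        mul_le_mul_of_nonneg_left h5 (Nat.cast_nonneg d)
    _ ≤ 9 * d * (1 + Real.log (1 / l)) := by
        have : (0 : ℝ) ≤ d := Nat.cast_nonneg d
        nlinarith [mul_nonneg this h3]

theorem er_nonneg (d : ℕ) {R : ℝ} (hR : 0 ≤ R) : 0 ≤ er d R :=
  mul_nonneg (Nat.cast_nonneg d) (Real.log_nonneg (by linarith))

section Steps

variable {d : ℕ} {S : Set ℝ} {l : ℝ}

theorem Dense.mem (hS : Dense S l) {t : ℝ} (ht : t ∈ S) : t ∈ Icc (0 : ℝ) 1 := hS.sub ht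

theorem Dense.abs_le (hS : Dense S l) {t s : ℝ} (ht : t ∈ S) (hs : s ∈ S) : |s - t| ≤ 1 := by
  have h1 := hS.sub ht
  have h2 := hS.sub hs
  exact _root_.abs_le.mpr ⟨by linarith [h1.2, h2.1], by linarith [h1.1, h2.2]⟩

theorem R_bound1 {x l : ℝ} (h0 : 0 < l) (h1 : l ≤ 1) (hx : l / 8 ≤ |x|) :
    1 ≤ 512 / l ^ 3 * |x| := by
  have h2 : l ^ 2 ≤ 1 := pow_le_one₀ h0.le h1
  calc (1 : ℝ) ≤ 64 / l ^ 2 := by rw [le_div_iff₀ (by positivity)]; linarith
    _ = 512 / l ^ 3 * (l / 8) := by field_simp; norm_num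
    _ ≤ 512 / l ^ 3 * |x| := by gcongr

theorem R_bound2 {x l : ℝ} (h0 : 0 < l) (h1 : l ≤ 1) (hx : l ^ 2 / 64 ≤ |x|) :
    1 ≤ 512 / l ^ 3 * |x| := by
  calc (1 : ℝ) ≤ 8 / l := by rw [le_div_iff₀ (by positivity)]; linarith
    _ = 512 / l ^ 3 * (l ^ 2 / 64) := by field_simp; norm_num
    _ ≤ 512 / l ^ 3 * |x| := by gcongr

theorem R_bound3 {x l : ℝ} (h0 : 0 < l) (hx : l ^ 3 / 512 ≤ |x|) :
    1 ≤ 512 / l ^ 3 * |x| := by
  calc (1 : ℝ) = 512 / l ^ 3 * (l ^ 3 / 512) := by field_simp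
    _ ≤ 512 / l ^ 3 * |x| := by gcongr

/-- the data of `DG` -/
def DGW (d : ℕ) (a C : ℝ) (m : ℕ) : Prop :=
  0 ≤ C ∧ ∀ (l : ℝ) (S : Set ℝ), Dense S l →
    ∃ (T : Finset ℝ) (w : ℝ → ℝ), (∀ t ∈ T, t ∈ S) ∧ T.card ≤ m ∧ (∀ t ∈ T, 0 ≤ w t) ∧
      ∑ t ∈ T, w t = a ∧ AKd d T w (C * lg l)

theorem DG_iff {a : ℝ} : DG d a ↔ ∃ C m, DGW d a C m := by
  constructor
  · rintro ⟨C, m, h1, h2⟩
    exact ⟨C, m, h1, fun l S hS => h2 l S hS.pos hS.le_one hS.meas hS.sub hS.vol⟩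
  · rintro ⟨C, m, h1, h2⟩
    exact ⟨C, m, h1, fun l S a1 a2 a3 a4 a5 => h2 l S ⟨a1, a2, a3, a4, a5⟩⟩

theorem AKd.mono {T : Finset ℝ} {w : ℝ → ℝ} {κ κ' : ℝ} (h : AKd d T w κ) (hκ : κ ≤ κ') :
    AKd d T w κ' := fun Ω _ p f g h1 h2 => (h Ω p f g h1 h2).trans (by linarith)

/-- (III) for a generator of `XG`. -/
theorem stepXM {a C : ℝ} {m : ℕ} (hgood : DGW d a C m) (ha : 0 ≤ a) (hS : Dense S l)
    {φ : Fam d → ℝ} (hφ : φ ∈ XG d S l) :
    ∃ Φ₁ Φ₂, Comb (SG d S) 1 1 Φ₁ ∧ Comb (MG d S l) a m Φ₂ ∧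
      ∀ F : Fam d, 2 * F.L + (a - 1) * φ F ≤ Φ₁ F + Φ₂ F + (8 * C + (a + 1) * (9 * d)) * lg l := by
  obtain ⟨t, ht, s, hs, c, hc, hst, rfl⟩ := hφ
  have h0 := hS.pos
  have h1 := hS.le_one
  have hD : Dense (Bset S l t s c) (l ^ 4 / 1024) := by
    refine ⟨by positivity, ?_, measurableSet_Bset hS.meas l t s c,
      fun τ hτ => hS.sub hτ.1.1, hc⟩
    have : l ^ 4 ≤ 1 := pow_le_one₀ h0.le h1
    linarith
  obtain ⟨T, w, hT, hcard, hw, hsum, hAK⟩ := hgood.2 _ _ hD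
  have hlg : lg (l ^ 4 / 1024) ≤ 8 * lg l := by
    refine lg_pow h0 h1 (by norm_num) ?_ (by norm_num)
    have : Real.log 1024 ≤ 7 := by
      rw [Real.log_le_iff_le_exp (by norm_num)]
      have h7 := Real.exp_one_gt_d9
      calc (1024 : ℝ) ≤ 2.7182818283 ^ 7 := by norm_num
        _ ≤ Real.exp 1 ^ 7 := by gcongr
        _ = Real.exp 7 := by rw [← Real.exp_nat_mul]; norm_num
    linarith
  have hAK2 := hAK.mono (κ' := 8 * C * lg l) (by
    have := mul_le_mul_of_nonneg_left hlg hgood.1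
    linarith)
  have hmem : ∀ τ ∈ T, τ ∈ far S l t s ∧ rt t s c τ ∈ far S l t s := by
    intro τ hτ
    have := hT τ hτ
    refine ⟨this.1, ?_⟩
    have h2 := this.2
    rw [← mul_div_assoc] at h2
    exact h2
  refine ⟨fun F => F.S t, fun F => ∑ τ ∈ T, w τ * F.m t τ (rt t s c τ),
    Comb.of_mem ⟨t, ht, rfl⟩,
    ((Comb.sum (b := 1) (j := 1) T w hw (fun τ F => F.m t τ (rt t s c τ))
      (fun τ hτ => ?_)).congr (by rw [hsum]; ring) (mul_one _) (fun _ => rfl)).le hcard,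
    fun F => ?_⟩
  · obtain ⟨h2, h3⟩ := hmem τ hτ
    exact Comb.of_mem ⟨t, ht, τ, h2.1, _, h3.1, h2.2.1, h3.2.1, rfl⟩
  · have hcb := Gset_bound h0 hS.sub (hS.mem ht) (hS.mem hs) hc
    have := F.ineq_III hAK2 hw hsum (t := t) (s := s) (c := c) (R := 512 / l ^ 3)
      (by positivity) (R_bound2 h0 h1 hcb.1) (hS.abs_le ht hs) (by
        intro τ hτ
        obtain ⟨h2, _⟩ := hmem τ hτ
        refine ⟨R_bound1 h0 h1 h2.2.1, hS.abs_le hs h2.1, ?_⟩
        rintro rfl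
        have h3 := h2.2.2
        rw [sub_self, abs_zero] at h3
        linarith)
    have h4 := mul_le_mul_of_nonneg_left (er_le (d := d) h0 h1) (by linarith : 0 ≤ a + 1)
    dsimp only
    nlinarith

/-- (I) and (II) for a generator of `MG`. -/
theorem stepMX {a C : ℝ} {m : ℕ} (hgood : DGW d a C m) (ha : 1 ≤ a) (hS : Dense S l)
    {φ : Fam d → ℝ} (hφ : φ ∈ MG d S l) :
    ∃ Φ₁ Φ₂, Comb (SG d S) (3 * a) (m + 4) Φ₁ ∧ Comb (XG d S l) a m Φ₂ ∧
      ∀ F : Fam d, (a + 2) * F.L + (a - 1) * φ F ≤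
        Φ₁ F + Φ₂ F + (14 * C + 3 * a * (9 * d)) * lg l := by
  obtain ⟨t, ht, s, hs, r, hr, hst, hrt, rfl⟩ := hφ
  have h0 := hS.pos
  have h1 := hS.le_one
  have hts : l / 8 ≤ |t - s| := by rw [abs_sub_comm]; exact hst
  obtain ⟨ct, hct, hvol⟩ := exists_ct h0 hS.meas hS.sub hS.vol (hS.mem ht) (hS.mem hr)
    (measurableSet_Gset hS.meas l s t)
    (fun c hc => Gset_bound h0 hS.sub (hS.mem hs) (hS.mem ht) hc)
    (Gset_vol h0 hS.meas hS.sub hS.vol (hS.mem hs) (hS.mem ht))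
  have hD : Dense (Dset S l t r ct (Gset S l s t)) (l ^ 7 / 262144) := by
    refine ⟨by positivity, ?_, measurableSet_Dset hS.meas (measurableSet_Gset hS.meas l s t) l t r ct,
      fun τ hτ => hS.sub hτ.1.1, hvol⟩
    have : l ^ 7 ≤ 1 := pow_le_one₀ h0.le h1
    linarith
  obtain ⟨T, w, hT, hcard, hw, hsum, hAK⟩ := hgood.2 _ _ hD
  have hlg : lg (l ^ 7 / 262144) ≤ 14 * lg l := by
    refine lg_pow h0 h1 (by norm_num) ?_ (by norm_num)
    have : Real.log 262144 ≤ 13 := by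
      rw [Real.log_le_iff_le_exp (by norm_num)]
      have h7 := Real.exp_one_gt_d9
      calc (262144 : ℝ) ≤ 2.7182818283 ^ 13 := by norm_num
        _ ≤ Real.exp 1 ^ 13 := by gcongr
        _ = Real.exp 13 := by rw [← Real.exp_nat_mul]; norm_num
    linarith
  have hAK2 := hAK.mono (κ' := 14 * C * lg l) (by
    have := mul_le_mul_of_nonneg_left hlg hgood.1
    linarith)
  have hmem : ∀ τ ∈ T, τ ∈ far S l t r ∧ ct * (τ - t) / (τ - r) ∈ Gset S l s t := by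
    intro τ hτ
    have := hT τ hτ
    refine ⟨this.1, ?_⟩
    have h2 := this.2
    rw [← mul_div_assoc, zero_add] at h2
    exact h2
  refine ⟨fun F => (F.S s + F.S t + (a - 1) * (F.S s + F.S r)) + ∑ τ ∈ T, w τ * F.S τ,
    fun F => ∑ τ ∈ T, w τ * F.x s t (ct * (τ - t) / (τ - r)), ?_, ?_, fun F => ?_⟩
  · have cS : ∀ u ∈ S, Comb (SG d S) 1 1 (fun F => F.S u) := fun u hu =>
      Comb.of_mem ⟨u, hu, rfl⟩
    refine ((((cS s hs).plus (cS t ht)).plus
      (((cS s hs).plus (cS r hr)).smul (sub_nonneg.mpr ha))).plus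
      ((Comb.sum (b := 1) (j := 1) T w hw (fun τ F => F.S τ)
        (fun τ hτ => cS τ (hmem τ hτ).1.1)).le (k' := m) (by rw [mul_one]; exact hcard)))
      |>.congr ?_ (by ring) (fun F => rfl)
    rw [hsum]; ring
  · refine ((Comb.sum (b := 1) (j := 1) T w hw (fun τ F => F.x s t (ct * (τ - t) / (τ - r)))
      (fun τ hτ => ?_)).congr (by rw [hsum]; ring) (mul_one _) (fun _ => rfl)).le hcard
    exact Comb.of_mem ⟨s, hs, t, ht, _, (hmem τ hτ).2, hts, rfl⟩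
  · have hR : (0 : ℝ) ≤ 512 / l ^ 3 := by positivity
    have e1 := F.ineq_I hAK2 hw hsum (tp := s) (tq := t) (tr := r) (c := ct) hR
      (R_bound1 h0 h1 hst) (R_bound3 h0 hct) (hS.abs_le ht hr) (by
        intro τ hτ
        obtain ⟨h2, _⟩ := hmem τ hτ
        refine ⟨R_bound1 h0 h1 h2.2.1, hS.abs_le hr h2.1, ?_⟩
        rintro rfl
        have h3 := h2.2.2
        rw [sub_self, abs_zero] at h3
        linarith)
    have e2 := F.ineq_II (tp := s) (tq := t) (tr := r) (c := ct) hR (R_bound1 h0 h1 hrt)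
      (R_bound3 h0 hct)
    have e3 := mul_le_mul_of_nonneg_left e2 (sub_nonneg.mpr ha)
    have e4 := mul_le_mul_of_nonneg_left (er_le (d := d) h0 h1) (by linarith : 0 ≤ 3 * a)
    simp only [mul_add, Finset.sum_add_distrib] at e1 ⊢
    nlinarith

/-- Upper bound for `x`. -/
theorem upX {a C : ℝ} {m : ℕ} (hgood : DGW d a C m) (ha : 0 ≤ a) (hS : Dense S l)
    {φ : Fam d → ℝ} (hφ : φ ∈ XG d S l) :
    ∃ Φ₁ Φ₂, Comb (SG d S) (2 * a + 1) (2 * m + 1) Φ₁ ∧ Comb (SG d S) 0 0 Φ₂ ∧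
      ∀ F : Fam d, 2 * F.L + (a - 1) * φ F ≤ Φ₁ F + Φ₂ F + (8 * C + (a + 1) * (9 * d)) * lg l := by
  obtain ⟨Φ₁, Φ₂, h1, h2, h3⟩ := stepXM hgood ha hS hφ
  obtain ⟨Ψ₁, Ψ₂, g1, g2, g3⟩ := h2.lift (G₁ := SG d S) (G₂ := SG d S) (b₁ := 2) (b₂ := 0)
    (l := 0) (q := 1) (e := 0) (k₁ := 2) (k₂ := 0) (by
      rintro φ ⟨t, ht, s, hs, r, hr, _, _, rfl⟩
      have cS : ∀ u ∈ S, Comb (SG d S) 1 1 (fun F => F.S u) := fun u hu =>
        Comb.of_mem ⟨u, hu, rfl⟩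
      refine ⟨fun F => F.S s + F.S r, fun _ => 0,
        ((cS s hs).plus (cS r hr)).congr (by norm_num) rfl
          (fun _ => rfl), Comb.zero, fun F => ?_⟩
      have := F.ineq_IV t s r
      linarith)
  refine ⟨fun F => Φ₁ F + Ψ₁ F, Ψ₂, (h1.plus g1).congr (by ring) (by ring) (fun _ => rfl),
    g2.congr (by ring) (by ring) (fun _ => rfl), fun F => ?_⟩
  have := h3 F
  have := g3 F
  dsimp only
  linarith

end Steps

/-- a lower bound for averages of `x` -/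
def LBX (d : ℕ) (A B : ℝ) : Prop :=
  ∃ (k : ℕ) (e : ℝ), 0 ≤ e ∧ ∀ (l : ℝ) (S : Set ℝ), Dense S l →
    ∃ Ψ Φ, Comb (XG d S l) 1 k Ψ ∧ Comb (SG d S) B k Φ ∧
      ∀ F : Fam d, A * F.L ≤ Φ F + Ψ F + e * lg l

/-- a lower bound for averages of `m` -/
def LBM (d : ℕ) (A B : ℝ) : Prop :=
  ∃ (k : ℕ) (e : ℝ), 0 ≤ e ∧ ∀ (l : ℝ) (S : Set ℝ), Dense S l →
    ∃ Ψ Φ, Comb (MG d S l) 1 k Ψ ∧ Comb (SG d S) B k Φ ∧
      ∀ F : Fam d, A * F.L ≤ Φ F + Ψ F + e * lg l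

theorem LBX_zero (d : ℕ) : LBX d 0 0 := by
  refine ⟨1, 0, le_rfl, fun l S hS => ?_⟩
  obtain ⟨t, ht, s, hs, hst⟩ := exists_two hS.pos hS.vol
  have h1 : 0 < volume (Gset S l t s) := lt_of_lt_of_le
    (ENNReal.ofReal_pos.mpr (by have := hS.pos; positivity))
    (Gset_vol hS.pos hS.meas hS.sub hS.vol (hS.mem ht) (hS.mem hs))
  obtain ⟨c, hc⟩ := nonempty_of_measure_ne_zero h1.ne'
  refine ⟨fun F => F.x t s c, fun _ => 0, Comb.of_mem ⟨t, ht, s, hs, c, hc, hst, rfl⟩,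
    Comb.zero.wk, fun F => ?_⟩
  have := F.x_nonneg t s c
  simpa using this

theorem LBX.toM {d : ℕ} {a A B : ℝ} (hgood : DG d a) (ha : 1 ≤ a) (h : LBX d A B) :
    LBM d ((2 + (a - 1) * A) / a) ((1 + (a - 1) * B) / a) := by
  obtain ⟨C, m, hC⟩ := DG_iff.mp hgood
  obtain ⟨k, e, he, H⟩ := h
  have ha0 : 0 < a := by linarith
  refine ⟨k * m + 2 * k, a⁻¹ * ((8 * C + (a + 1) * (9 * d)) + (a - 1) * e), ?_, fun l S hS => ?_⟩
  · have := hC.1
    have : 0 ≤ a - 1 := by linarith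
    positivity
  · obtain ⟨Ψ, Φ, h1, h2, h3⟩ := H l S hS
    obtain ⟨Φ₁, Φ₂, g1, g2, g3⟩ := h1.lift (fun φ hφ => stepXM hC (by linarith) hS hφ)
    refine ⟨fun F => a⁻¹ * Φ₂ F, fun F => a⁻¹ * (Φ₁ F + (a - 1) * Φ F),
      ((g2.smul (inv_nonneg.mpr ha0.le)).congr (by field_simp) rfl (fun _ => rfl)).le (by omega),
      (((g1.plus (h2.smul (sub_nonneg.mpr ha))).smul (inv_nonneg.mpr ha0.le)).congr
        (by field_simp) rfl (fun _ => rfl)).le (by rw [mul_one]; omega), fun F => ?_⟩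
    have e1 := g3 F
    have e2 := mul_le_mul_of_nonneg_left (h3 F) (sub_nonneg.mpr ha)
    have e3 : (2 + (a - 1) * A) * F.L ≤ (Φ₁ F + (a - 1) * Φ F) + Φ₂ F +
        ((8 * C + (a + 1) * (9 * d)) + (a - 1) * e) * lg l := by nlinarith
    have e4 := mul_le_mul_of_nonneg_left e3 (inv_nonneg.mpr ha0.le)
    calc (2 + (a - 1) * A) / a * F.L = a⁻¹ * ((2 + (a - 1) * A) * F.L) := by ring
      _ ≤ _ := e4
      _ = _ := by ring

theorem LBM.toX {d : ℕ} {a A B : ℝ} (hgood : DG d a) (ha : 1 ≤ a) (h : LBM d A B) :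
    LBX d ((a + 2 + (a - 1) * A) / a) ((3 * a + (a - 1) * B) / a) := by
  obtain ⟨C, m, hC⟩ := DG_iff.mp hgood
  obtain ⟨k, e, he, H⟩ := h
  have ha0 : 0 < a := by linarith
  refine ⟨k * (m + 4) + k, a⁻¹ * ((14 * C + 3 * a * (9 * d)) + (a - 1) * e), ?_,
    fun l S hS => ?_⟩
  · have := hC.1
    have : 0 ≤ a - 1 := by linarith
    positivity
  · obtain ⟨Ψ, Φ, h1, h2, h3⟩ := H l S hS
    obtain ⟨Φ₁, Φ₂, g1, g2, g3⟩ := h1.lift (fun φ hφ => stepMX hC ha hS hφ)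
    refine ⟨fun F => a⁻¹ * Φ₂ F, fun F => a⁻¹ * (Φ₁ F + (a - 1) * Φ F),
      ((g2.smul (inv_nonneg.mpr ha0.le)).congr (by field_simp) rfl (fun _ => rfl)).le (by
        have : k * m ≤ k * (m + 4) := Nat.mul_le_mul_left k (by omega)
        omega),
      (((g1.plus (h2.smul (sub_nonneg.mpr ha))).smul (inv_nonneg.mpr ha0.le)).congr
        (by field_simp) rfl (fun _ => rfl)).le le_rfl, fun F => ?_⟩
    have e1 := g3 F
    have e2 := mul_le_mul_of_nonneg_left (h3 F) (sub_nonneg.mpr ha)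
    have e3 : (a + 2 + (a - 1) * A) * F.L ≤ (Φ₁ F + (a - 1) * Φ F) + Φ₂ F +
        ((14 * C + 3 * a * (9 * d)) + (a - 1) * e) * lg l := by nlinarith
    have e4 := mul_le_mul_of_nonneg_left e3 (inv_nonneg.mpr ha0.le)
    calc (a + 2 + (a - 1) * A) / a * F.L = a⁻¹ * ((a + 2 + (a - 1) * A) * F.L) := by ring
      _ ≤ _ := e4
      _ = _ := by ring

/-- The iterated lower bound. -/
theorem LBX_iter {d : ℕ} {a : ℝ} (hgood : DG d a) (ha : 1 < a) (n : ℕ) :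
    LBX d ((a ^ 2 + 4 * a - 2) / (2 * a - 1) * (1 - (((a - 1) / a) ^ 2) ^ n))
      ((3 * a ^ 2 + a - 1) / (2 * a - 1) * (1 - (((a - 1) / a) ^ 2) ^ n)) := by
  induction n with
  | zero => simpa using LBX_zero d
  | succ n ih =>
    have h := (ih.toM hgood ha.le).toX hgood ha.le
    have ha0 : a ≠ 0 := by linarith
    have ha1 : 2 * a - 1 ≠ 0 := by linarith
    obtain ⟨A, hA, hA'⟩ : ∃ A : ℝ, A = (a ^ 2 + 4 * a - 2) / (2 * a - 1) ∧
        A * (2 * a - 1) = a ^ 2 + 4 * a - 2 := ⟨_, rfl, div_mul_cancel₀ _ ha1⟩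
    obtain ⟨B, hB, hB'⟩ : ∃ B : ℝ, B = (3 * a ^ 2 + a - 1) / (2 * a - 1) ∧
        B * (2 * a - 1) = 3 * a ^ 2 + a - 1 := ⟨_, rfl, div_mul_cancel₀ _ ha1⟩
    rw [← hA, ← hB] at h ⊢
    convert h using 1
    · rw [pow_succ (((a - 1) / a) ^ 2) n]
      generalize (((a - 1) / a) ^ 2) ^ n = Q
      field_simp
      linear_combination hA'
    · rw [pow_succ (((a - 1) / a) ^ 2) n]
      generalize (((a - 1) / a) ^ 2) ^ n = Q
      field_simp
      linear_combination hB'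

/-- Extracting times and weights from a combination of slices. -/
theorem Comb.extract {d : ℕ} {S : Set ℝ} {B : ℝ} {k : ℕ} {Φ : Fam d → ℝ}
    (h : Comb (SG d S) B k Φ) :
    ∃ (T : Finset ℝ) (w : ℝ → ℝ), (∀ t ∈ T, t ∈ S) ∧ T.card ≤ k ∧ (∀ t ∈ T, 0 ≤ w t) ∧
      ∑ t ∈ T, w t = B ∧ ∀ F, Φ F = ∑ t ∈ T, w t * F.S t := by
  classical
  induction h with
  | zero => exact ⟨∅, fun _ => 0, by simp, by simp, by simp, by simp, by simp⟩
  | add c hc φ hφ _ ih =>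
    obtain ⟨T, w, h1, h2, h3, h4, h5⟩ := ih
    obtain ⟨t, ht, rfl⟩ := hφ
    have key : ∀ ψ : ℝ → ℝ, ∑ x ∈ insert t T, ((if x ∈ T then w x else 0) +
        (if x = t then c else 0)) * ψ x = ∑ x ∈ T, w x * ψ x + c * ψ t := by
      intro ψ
      simp only [add_mul, Finset.sum_add_distrib, ite_mul, zero_mul]
      rw [Finset.sum_ite_mem, Finset.inter_eq_right.mpr (Finset.subset_insert t T),
        Finset.sum_ite_eq' (insert t T) t (fun x => c * ψ x),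
        if_pos (Finset.mem_insert_self t T)]
    refine ⟨insert t T, fun x => (if x ∈ T then w x else 0) + (if x = t then c else 0),
      ?_, ?_, ?_, ?_, ?_⟩
    · intro x hx
      rcases Finset.mem_insert.mp hx with rfl | hx
      · exact ht
      · exact h1 x hx
    · exact (Finset.card_insert_le _ _).trans (by omega)
    · intro x _
      refine add_nonneg ?_ ?_
      · split_ifs with hx
        · exact h3 x hx
        · exact le_rfl
      · split_ifs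
        · exact hc
        · exact le_rfl
    · have := key (fun _ => 1)
      simp only [mul_one] at this
      rw [this, h4]
    · intro F
      have h6 := key (fun x => F.S x)
      have h7 := h5 F
      simp only at h6 ⊢
      rw [h6, ← h7]
  | wk _ ih =>
    obtain ⟨T, w, h1, h2, h3, h4, h5⟩ := ih
    exact ⟨T, w, h1, by omega, h3, h4, h5⟩

/-- The improvement step. -/
theorem DG_step {d : ℕ} {a A B : ℝ} (hgood : DG d a) (ha : 1 ≤ a) (hA : 0 ≤ A)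
    (h : LBX d A B) : DG d ((2 * a + 1 + (a - 1) * B) / (2 + (a - 1) * A)) := by
  obtain ⟨C, m, hC⟩ := DG_iff.mp hgood
  obtain ⟨k, e, he, H⟩ := h
  have hD : 0 < 2 + (a - 1) * A := by nlinarith
  rw [DG_iff]
  refine ⟨(2 + (a - 1) * A)⁻¹ * ((8 * C + (a + 1) * (9 * d)) + (a - 1) * e),
    k * (2 * m + 1) + k * 0 + k, ?_, fun l S hS => ?_⟩
  · have := hC.1
    have : 0 ≤ a - 1 := by linarith
    positivity
  · obtain ⟨Ψ, Φ, h1, h2, h3⟩ := H l S hS
    obtain ⟨Φ₁, Φ₂, g1, g2, g3⟩ := h1.lift (fun φ hφ => upX hC (by linarith) hS hφ)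
    obtain ⟨T, w, t1, t2, t3, t4, t5⟩ :=
      (((g1.plus g2).plus (h2.smul (sub_nonneg.mpr ha))).smul (inv_nonneg.mpr hD.le)).extract
    refine ⟨T, w, t1, t2, t3, ?_, AKd_of_fam t3 (fun F => ?_)⟩
    · rw [t4]
      field_simp
      ring
    · rw [← t5 F]
      have e1 := g3 F
      have e2 := mul_le_mul_of_nonneg_left (h3 F) (sub_nonneg.mpr ha)
      have e3 : (2 + (a - 1) * A) * F.L ≤ (Φ₁ F + Φ₂ F + (a - 1) * Φ F) +
          ((8 * C + (a + 1) * (9 * d)) + (a - 1) * e) * lg l := by nlinarith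
      have e4 := mul_le_mul_of_nonneg_left e3 (inv_nonneg.mpr hD.le)
      rw [← mul_assoc, inv_mul_cancel₀ hD.ne', one_mul] at e4
      refine e4.trans (le_of_eq ?_)
      ring

/-- The trivial exponent. -/
theorem DG_two (d : ℕ) : DG d 2 := by
  classical
  rw [DG_iff]
  refine ⟨9 * d, 2, by positivity, fun l S hS => ?_⟩
  obtain ⟨t, ht, s, hs, hst⟩ := exists_two hS.pos hS.vol
  have hne : s ≠ t := by
    rintro rfl
    rw [sub_self, abs_zero] at hst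
    linarith [hS.pos]
  refine ⟨{s, t}, fun _ => 1, ?_, ?_, fun _ _ => zero_le_one, ?_,
    AKd_of_fam (fun _ _ => zero_le_one) (fun F => ?_)⟩
  · intro x hx
    rcases Finset.mem_insert.mp hx with rfl | hx
    · exact hs
    · rw [Finset.mem_singleton.mp hx]; exact ht
  · exact Finset.card_le_two
  · rw [Finset.sum_pair hne]; norm_num
  · rw [Finset.sum_pair hne, one_mul, one_mul]
    have h1 := F.two_times (s := s) (t := t) (R := 512 / l ^ 3)
      (by have := hS.pos; positivity) (R_bound1 hS.pos hS.le_one hst)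
    have h2 := er_le (d := d) hS.pos hS.le_one
    linarith

/-- A larger exponent is weaker. -/
theorem DG.mono {d : ℕ} {a a' : ℝ} (h : DG d a) (haa : a ≤ a') : DG d a' := by
  classical
  obtain ⟨C, m, hC⟩ := DG_iff.mp h
  rw [DG_iff]
  refine ⟨C, m + 1, hC.1, fun l S hS => ?_⟩
  obtain ⟨T, w, t1, t2, t3, t4, t5⟩ := hC.2 l S hS
  obtain ⟨t, ht, _⟩ := exists_two hS.pos hS.vol
  have key : ∀ ψ : ℝ → ℝ, ∑ x ∈ insert t T, ((if x ∈ T then w x else 0) +
      (if x = t then a' - a else 0)) * ψ x = ∑ x ∈ T, w x * ψ x + (a' - a) * ψ t := by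
    intro ψ
    simp only [add_mul, Finset.sum_add_distrib, ite_mul, zero_mul]
    rw [Finset.sum_ite_mem, Finset.inter_eq_right.mpr (Finset.subset_insert t T),
      Finset.sum_ite_eq' (insert t T) t (fun x => (a' - a) * ψ x),
      if_pos (Finset.mem_insert_self t T)]
  refine ⟨insert t T, fun x => (if x ∈ T then w x else 0) + (if x = t then a' - a else 0),
    ?_, ?_, ?_, ?_, ?_⟩
  · intro x hx
    rcases Finset.mem_insert.mp hx with rfl | hx
    · exact ht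
    · exact t1 x hx
  · exact (Finset.card_insert_le _ _).trans (by omega)
  · intro x _
    refine add_nonneg ?_ ?_
    · split_ifs with hx
      · exact t3 x hx
      · exact le_rfl
    · split_ifs
      · linarith
      · exact le_rfl
  · have := key (fun _ => 1)
    simp only [mul_one] at this
    rw [this, t4]
    ring
  · intro Ω _ p f g hp h1
    rw [key (fun x => H p (fun ω => rd (f ω + x • g ω)))]
    have e1 := t5 Ω p f g hp h1
    have e2 := mul_nonneg (sub_nonneg.mpr haa) (H_nonneg hp h1 (fun ω => rd (f ω + t • g ω)))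
    linarith

end Pool.Agent.H49.KH
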