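import Mathlib
import Pool.Agent.H49.KH.Meas

/-!
# Choosing times in separated sets, for finite families of sets
-/

set_option autoImplicit false

open MeasureTheory Set
open scoped ENNReal

namespace Pool.Agent.H49.KH

/-- the part of `S` at distance at least `ρ` from `t` and `s` -/
def fr (S : Set ℝ) (ρ t s : ℝ) : Set ℝ := {τ | τ ∈ S ∧ ρ ≤ |τ - t| ∧ ρ ≤ |τ - s|}

theorem measurableSet_fr {S : Set ℝ} (hS : MeasurableSet S) (ρ t s : ℝ) :
    MeasurableSet (fr S ρ t s) := by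
  refine hS.inter (MeasurableSet.inter ?_ ?_)
  · have : Measurable fun τ : ℝ => |τ - t| := by fun_prop
    exact measurableSet_le measurable_const this
  · have : Measurable fun τ : ℝ => |τ - s| := by fun_prop
    exact measurableSet_le measurable_const this

/-- a set of times whose parts away from two points have measure at least `l` -/
structure Sep (S : Set ℝ) (ρ l : ℝ) : Prop where
  pos : 0 < l
  le_one : l ≤ 1
  meas : MeasurableSet S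
  sub : S ⊆ Icc 0 1
  vol : ∀ t s, ENNReal.ofReal l ≤ volume (fr S ρ t s)

theorem fr_vol {S : Set ℝ} {l ρ : ℝ} (hρ : 0 < ρ) (hv : ENNReal.ofReal l ≤ volume S)
    (t s : ℝ) : ENNReal.ofReal (l - 4 * ρ) ≤ volume (fr S ρ t s) := by
  have h1 : S ⊆ fr S ρ t s ∪ (Ioo (t - ρ) (t + ρ) ∪ Ioo (s - ρ) (s + ρ)) := by
    intro τ hτ
    by_cases h2 : ρ ≤ |τ - t|
    · by_cases h3 : ρ ≤ |τ - s|
      · exact Or.inl ⟨hτ, h2, h3⟩
      · right; right
        push Not at h3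
        rw [abs_lt] at h3
        exact ⟨by linarith [h3.1], by linarith [h3.2]⟩
    · right; left
      push Not at h2
      rw [abs_lt] at h2
      exact ⟨by linarith [h2.1], by linarith [h2.2]⟩
  have h2 := hv.trans ((measure_mono h1).trans ((measure_union_le _ _).trans
    (add_le_add_right (measure_union_le _ _) _)))
  rw [Real.volume_Ioo, Real.volume_Ioo, ← ENNReal.ofReal_add (by linarith) (by linarith)] at h2
  have h3 : (t + ρ - (t - ρ)) + (s + ρ - (s - ρ)) = 4 * ρ := by ring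
  rw [h3] at h2
  rw [ENNReal.ofReal_sub _ (by linarith)]
  exact tsub_le_iff_right.mpr h2

/-- the good times for given `t, s, c` -/
def Bs (S : Set ℝ) (ρ t s c : ℝ) : Set ℝ :=
  {τ | τ ∈ fr S ρ t s ∧ t + c * ((τ - t) / (τ - s)) ∈ fr S ρ t s}

/-- the good coefficients for given `t, s` -/
def Gs (S : Set ℝ) (ρ l t s : ℝ) : Set ℝ :=
  {c | ENNReal.ofReal (ρ ^ 2 * l ^ 2 / 4) ≤ volume (Bs S ρ t s c)}

theorem measurableSet_Bs {S : Set ℝ} (hS : MeasurableSet S) (ρ t s c : ℝ) :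
    MeasurableSet (Bs S ρ t s c) := by
  refine (measurableSet_fr hS ρ t s).inter ?_
  have : Measurable fun τ : ℝ => t + c * ((τ - t) / (τ - s)) :=
    measurable_const.add ((measurable_ratio t s).const_mul c)
  exact this (measurableSet_fr hS ρ t s)

theorem measurableSet_Gs {S : Set ℝ} (hS : MeasurableSet S) (ρ l t s : ℝ) :
    MeasurableSet (Gs S ρ l t s) :=
  measurableSet_le measurable_const
    (measurable_section (measurableSet_fr hS ρ t s) (measurableSet_fr hS ρ t s)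
      (measurable_ratio t s) t)

theorem ratio_bound' {S : Set ℝ} {ρ t s τ : ℝ} (hρ : 0 < ρ) (hS : S ⊆ Icc 0 1)
    (ht : t ∈ Icc (0 : ℝ) 1) (hs : s ∈ Icc (0 : ℝ) 1) (h : τ ∈ fr S ρ t s) :
    (τ - t) / (τ - s) ≠ 0 ∧ |(τ - t) / (τ - s)| ≤ 1 / ρ ∧ ρ ≤ |(τ - t) / (τ - s)| ∧
      |τ - t| ≤ 1 ∧ |τ - s| ≤ 1 := by
  obtain ⟨h1, h2, h3⟩ := h
  have h4 := hS h1
  have h5 : |τ - t| ≤ 1 := abs_le.mpr ⟨by linarith [h4.1, ht.2], by linarith [h4.2, ht.1]⟩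
  have h6 : |τ - s| ≤ 1 := abs_le.mpr ⟨by linarith [h4.1, hs.2], by linarith [h4.2, hs.1]⟩
  have h7 : 0 < |τ - t| := by linarith
  have h8 : 0 < |τ - s| := by linarith
  refine ⟨div_ne_zero (abs_pos.mp h7) (abs_pos.mp h8), ?_, ?_, h5, h6⟩
  · rw [abs_div, div_le_div_iff₀ h8 hρ]
    nlinarith
  · rw [abs_div, le_div_iff₀ h8]
    nlinarith

theorem Bs_bound {S : Set ℝ} {ρ t s c τ : ℝ} (hρ : 0 < ρ) (hS : S ⊆ Icc 0 1)
    (ht : t ∈ Icc (0 : ℝ) 1) (hs : s ∈ Icc (0 : ℝ) 1) (h : τ ∈ Bs S ρ t s c) :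
    ρ ^ 2 ≤ |c| ∧ |c| ≤ 1 / ρ := by
  obtain ⟨h1, h2⟩ := h
  obtain ⟨k0, k1, k2, _, _⟩ := ratio_bound' hρ hS ht hs h1
  obtain ⟨_, _, _, k3, _⟩ := ratio_bound' hρ hS ht hs h2
  have h3 := h2.2.1
  rw [add_sub_cancel_left, abs_mul] at h3 k3
  constructor
  · have h4 : ρ ≤ |c| * (1 / ρ) := h3.trans (mul_le_mul_of_nonneg_left k1 (abs_nonneg c))
    have h5 : |c| * (1 / ρ) * ρ = |c| := by field_simp
    nlinarith [mul_le_mul_of_nonneg_right h4 hρ.le]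
  · have h4 : |c| * ρ ≤ 1 := (mul_le_mul_of_nonneg_left k2 (abs_nonneg c)).trans k3
    rwa [le_div_iff₀ hρ]

theorem Gs_bound {S : Set ℝ} {ρ l t s c : ℝ} (hρ : 0 < ρ) (hl : 0 < l) (hS : S ⊆ Icc 0 1)
    (ht : t ∈ Icc (0 : ℝ) 1) (hs : s ∈ Icc (0 : ℝ) 1) (h : c ∈ Gs S ρ l t s) :
    ρ ^ 2 ≤ |c| ∧ |c| ≤ 1 / ρ := by
  have h1 : 0 < volume (Bs S ρ t s c) :=
    lt_of_lt_of_le (ENNReal.ofReal_pos.mpr (by positivity)) h
  obtain ⟨τ, hτ⟩ := nonempty_of_measure_ne_zero h1.ne'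
  exact Bs_bound hρ hS ht hs hτ

theorem Gs_vol {S : Set ℝ} {ρ l t s : ℝ} (hρ : 0 < ρ) (hS : Sep S ρ l)
    (ht : t ∈ Icc (0 : ℝ) 1) (hs : s ∈ Icc (0 : ℝ) 1) :
    ENNReal.ofReal (ρ * l ^ 2 / 2) ≤ volume (Gs S ρ l t s) := by
  have hl := hS.pos
  have hA := measurableSet_fr hS.meas ρ t s
  have h1 := fubini_affine hA hA (measurable_ratio t s) t (K := 1 / ρ) (by positivity)
    (fun τ hτ => ⟨(ratio_bound' hρ hS.sub ht hs hτ).1, (ratio_bound' hρ hS.sub ht hs hτ).2.1⟩)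
  have h2 : ENNReal.ofReal (ρ * l ^ 2) ≤
      ∫⁻ c : ℝ, volume {τ : ℝ | τ ∈ fr S ρ t s ∧ t + c * ((τ - t) / (τ - s)) ∈ fr S ρ t s} := by
    refine le_trans ?_ h1
    have h3 := hS.vol t s
    have h4 : ρ * l ^ 2 = 1 / (1 / ρ) * l * l := by field_simp
    rw [h4, ENNReal.ofReal_mul (by positivity), ENNReal.ofReal_mul (by positivity)]
    gcongr
  have h3 := pigeon (measurable_section hA hA (measurable_ratio t s) t) (M := 1 / ρ)
    (I := ρ * l ^ 2) (η := ρ ^ 2 * l ^ 2 / 4) ?_ ?_ (by positivity) (by positivity) h2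
  · have h4 : ρ * l ^ 2 - 2 * (1 / ρ) * (ρ ^ 2 * l ^ 2 / 4) = ρ * l ^ 2 / 2 := by
      field_simp; ring
    rw [h4] at h3
    exact h3
  · intro c hc
    by_contra h0
    obtain ⟨τ, hτ⟩ := nonempty_of_measure_ne_zero h0
    linarith [(Bs_bound hρ hS.sub ht hs (c := c) hτ).2]
  · intro c
    exact vol_le_one (fun τ hτ => hS.sub hτ.1.1)

/-- the good times for the second step -/
def Ds (S : Set ℝ) (ρ tq tr ct : ℝ) (G : Set ℝ) : Set ℝ :=
  {τ | τ ∈ fr S ρ tq tr ∧ 0 + ct * ((τ - tq) / (τ - tr)) ∈ G}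

theorem measurableSet_Ds {S G : Set ℝ} (hS : MeasurableSet S) (hG : MeasurableSet G)
    (ρ tq tr ct : ℝ) : MeasurableSet (Ds S ρ tq tr ct G) := by
  refine (measurableSet_fr hS ρ tq tr).inter ?_
  have : Measurable fun τ : ℝ => 0 + ct * ((τ - tq) / (τ - tr)) :=
    measurable_const.add ((measurable_ratio tq tr).const_mul ct)
  exact this hG

/-- the good coefficients for the second step -/
def CTs (S : Set ℝ) (ρ l tq tr : ℝ) (G : Set ℝ) : Set ℝ :=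
  {ct | ENNReal.ofReal (ρ ^ 4 * l ^ 3 / 8) ≤ volume (Ds S ρ tq tr ct G)}

theorem measurableSet_CTs {S G : Set ℝ} (hS : MeasurableSet S) (hG : MeasurableSet G)
    (ρ l tq tr : ℝ) : MeasurableSet (CTs S ρ l tq tr G) :=
  measurableSet_le measurable_const
    (measurable_section (measurableSet_fr hS ρ tq tr) hG (measurable_ratio tq tr) 0)

theorem Ds_bound {S G : Set ℝ} {ρ tq tr ct τ : ℝ} (hρ : 0 < ρ) (hS : S ⊆ Icc 0 1)
    (hq : tq ∈ Icc (0 : ℝ) 1) (hr : tr ∈ Icc (0 : ℝ) 1)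
    (hGb : ∀ c ∈ G, ρ ^ 2 ≤ |c| ∧ |c| ≤ 1 / ρ) (hτ : τ ∈ Ds S ρ tq tr ct G) :
    ρ ^ 3 ≤ |ct| ∧ |ct| ≤ 1 / ρ ^ 2 := by
  obtain ⟨k0, k1, k2, _, _⟩ := ratio_bound' hρ hS hq hr hτ.1
  have h1 := hGb _ hτ.2
  rw [zero_add, abs_mul] at h1
  obtain ⟨h2, h3⟩ := h1
  constructor
  · have h4 := h2.trans (mul_le_mul_of_nonneg_left k1 (abs_nonneg ct))
    have h5 : |ct| * (1 / ρ) * ρ = |ct| := by field_simp
    nlinarith [mul_le_mul_of_nonneg_right h4 hρ.le]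
  · have h4 := (mul_le_mul_of_nonneg_left k2 (abs_nonneg ct)).trans h3
    rw [le_div_iff₀ (by positivity)]
    have h6 := mul_le_mul_of_nonneg_right h4 hρ.le
    have h7 : 1 / ρ * ρ = 1 := by field_simp
    nlinarith

theorem CTs_bound {S G : Set ℝ} {ρ l tq tr ct : ℝ} (hρ : 0 < ρ) (hl : 0 < l)
    (hS : S ⊆ Icc 0 1) (hq : tq ∈ Icc (0 : ℝ) 1) (hr : tr ∈ Icc (0 : ℝ) 1)
    (hGb : ∀ c ∈ G, ρ ^ 2 ≤ |c| ∧ |c| ≤ 1 / ρ) (h : ct ∈ CTs S ρ l tq tr G) :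
    ρ ^ 3 ≤ |ct| ∧ |ct| ≤ 1 / ρ ^ 2 := by
  have h1 : 0 < volume (Ds S ρ tq tr ct G) :=
    lt_of_lt_of_le (ENNReal.ofReal_pos.mpr (by positivity)) h
  obtain ⟨τ, hτ⟩ := nonempty_of_measure_ne_zero h1.ne'
  exact Ds_bound hρ hS hq hr hGb hτ

theorem CTs_vol {S G : Set ℝ} {ρ l tq tr : ℝ} (hρ : 0 < ρ) (hS : Sep S ρ l)
    (hq : tq ∈ Icc (0 : ℝ) 1) (hr : tr ∈ Icc (0 : ℝ) 1) (hG : MeasurableSet G)
    (hGb : ∀ c ∈ G, ρ ^ 2 ≤ |c| ∧ |c| ≤ 1 / ρ)
    (hGv : ENNReal.ofReal (ρ * l ^ 2 / 2) ≤ volume G) :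
    ENNReal.ofReal (ρ ^ 2 * l ^ 3 / 4) ≤ volume (CTs S ρ l tq tr G) := by
  have hl := hS.pos
  have hA := measurableSet_fr hS.meas ρ tq tr
  have h1 := fubini_affine hA hG (measurable_ratio tq tr) 0 (K := 1 / ρ) (by positivity)
    (fun τ hτ => ⟨(ratio_bound' hρ hS.sub hq hr hτ).1, (ratio_bound' hρ hS.sub hq hr hτ).2.1⟩)
  have h2 : ENNReal.ofReal (ρ ^ 2 * l ^ 3 / 2) ≤
      ∫⁻ c : ℝ, volume {τ : ℝ | τ ∈ fr S ρ tq tr ∧ 0 + c * ((τ - tq) / (τ - tr)) ∈ G} := by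
    refine le_trans ?_ h1
    have h3 := hS.vol tq tr
    have h4 : ρ ^ 2 * l ^ 3 / 2 = 1 / (1 / ρ) * l * (ρ * l ^ 2 / 2) := by field_simp
    rw [h4, ENNReal.ofReal_mul (by positivity), ENNReal.ofReal_mul (by positivity)]
    gcongr
  have h3 := pigeon (measurable_section hA hG (measurable_ratio tq tr) 0) (M := 1 / ρ ^ 2)
    (I := ρ ^ 2 * l ^ 3 / 2) (η := ρ ^ 4 * l ^ 3 / 8) ?_ ?_ (by positivity) (by positivity) h2
  · have h4 : ρ ^ 2 * l ^ 3 / 2 - 2 * (1 / ρ ^ 2) * (ρ ^ 4 * l ^ 3 / 8) = ρ ^ 2 * l ^ 3 / 4 := by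
      field_simp; ring
    rw [h4] at h3
    exact h3
  · intro c hc
    by_contra h0
    obtain ⟨τ, hτ⟩ := nonempty_of_measure_ne_zero h0
    linarith [(Ds_bound hρ hS.sub hq hr hGb (ct := c) hτ).2]
  · intro c
    exact vol_le_one (fun τ hτ => hS.sub hτ.1.1)

theorem Sep.vol' {S : Set ℝ} {ρ l : ℝ} (h : Sep S ρ l) : ENNReal.ofReal l ≤ volume S :=
  (h.vol 0 0).trans (measure_mono (fun _ hx => hx.1))

theorem Sep.abs_le {S : Set ℝ} {ρ l : ℝ} (hS : Sep S ρ l) {t s : ℝ} (ht : t ∈ S) (hs : s ∈ S) :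
    |s - t| ≤ 1 := by
  have h1 := hS.sub ht
  have h2 := hS.sub hs
  exact _root_.abs_le.mpr ⟨by linarith [h1.2, h2.1], by linarith [h1.1, h2.2]⟩

/-- Choosing one parameter that is good for many members of a finite family of sets. -/
theorem fam_pigeon {ι : Type*} (I : Finset ι) (B : ι → Set ℝ) {M v : ℝ} (hM : 0 < M)
    (_hv : 0 ≤ v) (hB : ∀ i ∈ I, MeasurableSet (B i)) (hsub : ∀ i ∈ I, B i ⊆ Icc (-M) M)
    (hvol : ∀ i ∈ I, ENNReal.ofReal v ≤ volume (B i)) :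
    ∃ c : ℝ, ∃ J ⊆ I, v / (2 * M) * I.card ≤ J.card ∧ ∀ i ∈ J, c ∈ B i := by
  classical
  have hV : volume (Icc (-M) M) = ENNReal.ofReal (2 * M) := by
    rw [Real.volume_Icc]; congr 1; ring
  have hV0 : volume (Icc (-M) M) ≠ 0 := by
    rw [hV]; exact (ENNReal.ofReal_pos.mpr (by linarith)).ne'
  have hVt : volume (Icc (-M) M) ≠ ∞ := by rw [hV]; exact ENNReal.ofReal_ne_top
  set f : ℝ → ℝ≥0∞ := fun c => ∑ i ∈ I, (B i).indicator (fun _ => (1 : ℝ≥0∞)) c with hf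
  have hfle : ∀ c, f c = ((I.filter (fun i => c ∈ B i)).card : ℝ≥0∞) := by
    intro c
    rw [hf]
    simp only [Set.indicator_apply]
    rw [Finset.sum_ite, Finset.sum_const_zero, add_zero, Finset.sum_const, nsmul_eq_mul, mul_one]
  have hint : ∫⁻ c in Icc (-M) M, f c = ∑ i ∈ I, volume (B i) := by
    rw [hf, lintegral_finsetSum']
    · refine Finset.sum_congr rfl (fun i hi => ?_)
      rw [lintegral_indicator (hB i hi), setLIntegral_const, one_mul,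
        Measure.restrict_apply (hB i hi), Set.inter_eq_left.mpr (hsub i hi)]
    · intro i hi
      exact (measurable_const.indicator (hB i hi)).aemeasurable
  have hfin : ∫⁻ c in Icc (-M) M, f c ≠ ∞ := by
    rw [hint]
    refine ENNReal.sum_ne_top.mpr (fun i hi => ?_)
    exact ne_top_of_le_ne_top hVt (measure_mono (hsub i hi))
  obtain ⟨c, _, hc⟩ := exists_setLAverage_le hV0 measurableSet_Icc.nullMeasurableSet hfin
  refine ⟨c, I.filter (fun i => c ∈ B i), Finset.filter_subset _ _, ?_,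
    fun i hi => (Finset.mem_filter.mp hi).2⟩
  rw [setLAverage_eq, hint, hfle, hV] at hc
  have h1 : ENNReal.ofReal (v / (2 * M) * I.card) ≤
      (((I.filter (fun i => c ∈ B i)).card : ℕ) : ℝ≥0∞) := by
    refine le_trans ?_ hc
    have h2 : ENNReal.ofReal (v / (2 * M) * I.card) =
        (I.card * ENNReal.ofReal v) / ENNReal.ofReal (2 * M) := by
      have e1 : v / (2 * M) * I.card = (I.card * v) / (2 * M) := by ring
      rw [e1, ENNReal.ofReal_div_of_pos (by linarith), ENNReal.ofReal_mul (Nat.cast_nonneg _),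
        ENNReal.ofReal_natCast]
    rw [h2]
    gcongr
    calc (I.card : ℝ≥0∞) * ENNReal.ofReal v = ∑ _i ∈ I, ENNReal.ofReal v := by
          rw [Finset.sum_const, nsmul_eq_mul]
      _ ≤ ∑ i ∈ I, volume (B i) := Finset.sum_le_sum hvol
  rw [← ENNReal.ofReal_natCast] at h1
  exact (ENNReal.ofReal_le_ofReal_iff (Nat.cast_nonneg _)).mp h1

end Pool.Agent.H49.KH
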