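import Mathlib
import Pool.Agent.H49.KH.Meas2
import Pool.Agent.H49.KH.Chain

/-!
# The improvement step for finite families of sets of times

The loss proportional to the dimension is followed separately.
-/

set_option autoImplicit false

open MeasureTheory Set
open scoped BigOperators

namespace Pool.Agent.H49.KH.Q

open Pool.Agent.H49.Ent Pool.Agent.H49.KH

/-- families of lines in all dimensions -/
abbrev FX : Type 1 := Σ d : ℕ, Fam d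

/-- `Φ` is a nonnegative combination of at most `k` members of `G` of total mass `B`. -/
inductive Comb (G : Set (FX → ℝ)) : ℝ → ℕ → (FX → ℝ) → Prop
  | zero : Comb G 0 0 (fun _ => 0)
  | add {B : ℝ} {k : ℕ} {Φ : FX → ℝ} (c : ℝ) (hc : 0 ≤ c) (φ : FX → ℝ) (hφ : φ ∈ G)
      (h : Comb G B k Φ) : Comb G (B + c) (k + 1) (fun F => Φ F + c * φ F)
  | wk {B : ℝ} {k : ℕ} {Φ : FX → ℝ} (h : Comb G B k Φ) : Comb G B (k + 1) Φ

namespace Comb

variable {G G' : Set (FX → ℝ)} {B B' : ℝ} {k k' : ℕ} {Φ Φ' : FX → ℝ}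

theorem congr (h : Comb G B k Φ) (hB : B = B') (hk : k = k') (hΦ : ∀ F, Φ F = Φ' F) :
    Comb G B' k' Φ' := by
  have : Φ = Φ' := funext hΦ
  subst hB; subst this; subst hk; exact h

theorem le (h : Comb G B k Φ) (hk : k ≤ k') : Comb G B k' Φ := by
  induction hk with
  | refl => exact h
  | step _ ih => exact ih.wk

theorem mono (h : Comb G B k Φ) (hG : G ⊆ G') : Comb G' B k Φ := by
  induction h with
  | zero => exact Comb.zero
  | add c hc φ hφ _ ih => exact Comb.add c hc φ (hG hφ) ih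
  | wk _ ih => exact ih.wk

theorem of_mem {φ : FX → ℝ} (h : φ ∈ G) : Comb G 1 1 φ :=
  (Comb.add 1 zero_le_one φ h Comb.zero).congr (by ring) rfl (fun F => by ring)

theorem plus (h : Comb G B k Φ) (h' : Comb G B' k' Φ') :
    Comb G (B + B') (k + k') (fun F => Φ F + Φ' F) := by
  induction h' with
  | zero => exact h.congr (by ring) rfl (fun F => by ring)
  | add c hc φ hφ _ ih =>
    exact (Comb.add c hc φ hφ ih).congr (by ring) (by ring) (fun F => by ring)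
  | wk _ ih => exact ih.wk

theorem smul {c : ℝ} (hc : 0 ≤ c) (h : Comb G B k Φ) : Comb G (c * B) k (fun F => c * Φ F) := by
  induction h with
  | zero => exact Comb.zero.congr (by ring) rfl (fun F => by ring)
  | add e he φ hφ _ ih =>
    exact (Comb.add (c * e) (mul_nonneg hc he) φ hφ ih).congr (by ring) rfl (fun F => by ring)
  | wk _ ih => exact ih.wk

theorem sum (T : Finset ℝ) (w : ℝ → ℝ) (hw : ∀ t ∈ T, 0 ≤ w t) (φ : ℝ → FX → ℝ) {b : ℝ}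
    {j : ℕ} (h : ∀ t ∈ T, Comb G b j (φ t)) :
    Comb G ((∑ t ∈ T, w t) * b) (T.card * j) (fun F => ∑ t ∈ T, w t * φ t F) := by
  classical
  induction T using Finset.induction_on with
  | empty => exact Comb.zero.congr (by simp) (by simp) (fun F => by simp)
  | insert x T hx ih =>
    have h1 := ih (fun t ht => hw t (Finset.mem_insert_of_mem ht))
      (fun t ht => h t (Finset.mem_insert_of_mem ht))
    have h2 := (h x (Finset.mem_insert_self x T)).smul (hw x (Finset.mem_insert_self x T))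
    refine (h1.plus h2).congr ?_ ?_ (fun F => ?_)
    · rw [Finset.sum_insert hx]; ring
    · rw [Finset.card_insert_of_notMem hx]; ring
    · rw [Finset.sum_insert hx]; ring

end Comb

/-- `J` is a subfamily of `I` of proportion at least `exp (-c)`. -/
def Sub {ι : Type} (c : ℝ) (J I : Finset ι) : Prop :=
  J ⊆ I ∧ Real.exp (-c) * I.card ≤ J.card

theorem Sub.refl {ι : Type} (I : Finset ι) : Sub 0 I I := ⟨Finset.Subset.refl _, by simp⟩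

theorem Sub.trans {ι : Type} {c c' : ℝ} {J K I : Finset ι} (h : Sub c J K) (h' : Sub c' K I) :
    Sub (c + c') J I := by
  refine ⟨h.1.trans h'.1, ?_⟩
  have e : Real.exp (-(c + c')) = Real.exp (-c) * Real.exp (-c') := by
    rw [← Real.exp_add]; congr 1; ring
  rw [e, mul_assoc]
  exact (mul_le_mul_of_nonneg_left h'.2 (Real.exp_pos _).le).trans h.2

theorem Sub.mono {ι : Type} {c c' : ℝ} {J I : Finset ι} (h : Sub c J I) (hc : c ≤ c') :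
    Sub c' J I := by
  refine ⟨h.1, le_trans ?_ h.2⟩
  gcongr

theorem Sub.nonempty {ι : Type} {c : ℝ} {J I : Finset ι} (h : Sub c J I) (hI : I.Nonempty) :
    J.Nonempty := by
  have h1 : (0 : ℝ) < I.card := by exact_mod_cast hI.card_pos
  have h2 : (0 : ℝ) < J.card := lt_of_lt_of_le (mul_pos (Real.exp_pos _) h1) h.2
  exact Finset.card_pos.mp (by exact_mod_cast h2)

/-- Lifting an inequality from the generators to the combinations. -/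
theorem Comb.lift {ι : Type} {G G₁ G₂ : Finset ι → Set (FX → ℝ)}
    (hG : ∀ J I : Finset ι, J ⊆ I → G I ⊆ G J) (hG₁ : ∀ J I : Finset ι, J ⊆ I → G₁ I ⊆ G₁ J)
    (hG₂ : ∀ J I : Finset ι, J ⊆ I → G₂ I ⊆ G₂ J)
    {B : ℝ} {k : ℕ} {Φ : FX → ℝ} {b₁ b₂ l q e c : ℝ} {k₁ k₂ : ℕ} {I : Finset ι}
    (hI : I.Nonempty)
    (hstep : ∀ J ⊆ I, J.Nonempty → ∀ φ ∈ G J, ∃ J', Sub c J' J ∧
      ∃ Φ₁ Φ₂, Comb (G₁ J') b₁ k₁ Φ₁ ∧ Comb (G₂ J') b₂ k₂ Φ₂ ∧
      ∀ F : FX, l * F.2.L + q * φ F ≤ Φ₁ F + Φ₂ F + F.1 * e) (h : Comb (G I) B k Φ) (hc : 0 ≤ c) :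
    ∃ J, Sub (k * c) J I ∧
    ∃ Φ₁ Φ₂, Comb (G₁ J) (B * b₁) (k * k₁) Φ₁ ∧ Comb (G₂ J) (B * b₂) (k * k₂) Φ₂ ∧
      ∀ F : FX, B * l * F.2.L + q * Φ F ≤ Φ₁ F + Φ₂ F + F.1 * (B * e) := by
  induction h with
  | zero =>
    exact ⟨I, (Sub.refl I).mono (by simp), fun _ => 0, fun _ => 0,
      Comb.zero.congr (by ring) (by ring) (fun _ => rfl),
      Comb.zero.congr (by ring) (by ring) (fun _ => rfl), fun F => by simp⟩
  | add r hr φ hφ _ ih =>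
    obtain ⟨J, hJ, Φ₁, Φ₂, h1, h2, h3⟩ := ih
    obtain ⟨J', hJ', Ψ₁, Ψ₂, g1, g2, g3⟩ := hstep J hJ.1 (hJ.nonempty hI) φ (hG J I hJ.1 hφ)
    refine ⟨J', (hJ'.trans hJ).mono (by push_cast; linarith), fun F => Φ₁ F + r * Ψ₁ F,
      fun F => Φ₂ F + r * Ψ₂ F,
      ((h1.mono (hG₁ _ _ hJ'.1)).plus (g1.smul hr)).congr (by ring) (by ring) (fun _ => rfl),
      ((h2.mono (hG₂ _ _ hJ'.1)).plus (g2.smul hr)).congr (by ring) (by ring) (fun _ => rfl),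
      fun F => ?_⟩
    have := mul_le_mul_of_nonneg_left (g3 F) hr
    have := h3 F
    dsimp only
    nlinarith
  | wk _ ih =>
    obtain ⟨J, hJ, Φ₁, Φ₂, h1, h2, h3⟩ := ih
    exact ⟨J, hJ.mono (by push_cast; linarith), Φ₁, Φ₂,
      h1.le (Nat.mul_le_mul_right _ (Nat.le_succ _)),
      h2.le (Nat.mul_le_mul_right _ (Nat.le_succ _)), h3⟩

section Gen

variable {ι : Type} (A : ι → Set ℝ) (ρ l : ℝ)

/-- slice entropies at common times -/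
def SG (J : Finset ι) : Set (FX → ℝ) := {φ | ∃ t, (∀ i ∈ J, t ∈ A i) ∧ φ = fun F => F.2.S t}

/-- the functionals `x` with good parameters -/
def XG (J : Finset ι) : Set (FX → ℝ) :=
  {φ | ∃ t s c, (∀ i ∈ J, t ∈ A i ∧ s ∈ A i ∧ c ∈ Gs (A i) ρ l t s) ∧ ρ ≤ |s - t| ∧
    φ = fun F => F.2.x t s c}

/-- the functionals `m` with good parameters -/
def MG (J : Finset ι) : Set (FX → ℝ) :=
  {φ | ∃ t s r, (∀ i ∈ J, t ∈ A i ∧ s ∈ A i ∧ r ∈ A i) ∧ ρ ≤ |s - t| ∧ ρ ≤ |r - t| ∧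
    φ = fun F => F.2.m t s r}

variable {A ρ l}

theorem SG_anti (J I : Finset ι) (h : J ⊆ I) : SG A I ⊆ SG A J := by
  rintro φ ⟨t, ht, rfl⟩
  exact ⟨t, fun i hi => ht i (h hi), rfl⟩

theorem XG_anti (J I : Finset ι) (h : J ⊆ I) : XG A ρ l I ⊆ XG A ρ l J := by
  rintro φ ⟨t, s, c, ht, hst, rfl⟩
  exact ⟨t, s, c, fun i hi => ht i (h hi), hst, rfl⟩

theorem MG_anti (J I : Finset ι) (h : J ⊆ I) : MG A ρ I ⊆ MG A ρ J := by
  rintro φ ⟨t, s, r, ht, hst, hrt, rfl⟩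
  exact ⟨t, s, r, fun i hi => ht i (h hi), hst, hrt, rfl⟩

end Gen

/-- a measurable set of times of measure at least `l` -/
structure Dn (S : Set ℝ) (l : ℝ) : Prop where
  pos : 0 < l
  meas : MeasurableSet S
  sub : S ⊆ Icc 0 1
  vol : ENNReal.ofReal l ≤ volume S

theorem Dn.le_one {S : Set ℝ} {l : ℝ} (h : Dn S l) : l ≤ 1 := by
  have := h.vol.trans (vol_le_one h.sub)
  rwa [ENNReal.ofReal_le_one] at this

/-- the data of `GF` -/
def GFW (a K C E : ℝ) (m : ℕ) : Prop :=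
  ∀ (l : ℝ) (ι : Type) (I : Finset ι) (A : ι → Set ℝ), I.Nonempty → (∀ i ∈ I, Dn (A i) l) →
    ∃ J, Sub (C * Real.log (1 / l) + E) J I ∧ ∃ (T : Finset ℝ) (w : ℝ → ℝ),
      (∀ t ∈ T, ∀ i ∈ J, t ∈ A i) ∧ T.card ≤ m ∧ (∀ t ∈ T, 0 ≤ w t) ∧ ∑ t ∈ T, w t = a ∧
      ∀ d : ℕ, AKd d T w (d * (K * Real.log (1 / l) + E))

/-- Every finite family of sets of measure at least `l` has a subfamily of proportion
`exp (- C log (1 / l) - E)` with common times for which the slope inequality holds with exponent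
`a` and error `d (K log (1 / l) + E)`. -/
def GF (a K : ℝ) : Prop :=
  ∃ (C E : ℝ) (m : ℕ), 0 ≤ C ∧ 0 ≤ E ∧ GFW a K C E m

/-- the data of `GT` -/
def GTW (a K C E : ℝ) (m : ℕ) (ρ : ℝ) : Prop :=
  ∀ (l : ℝ) (ι : Type) (I : Finset ι) (A : ι → Set ℝ), I.Nonempty → (∀ i ∈ I, Sep (A i) ρ l) →
    ∃ J, Sub (C * Real.log (1 / l) + E) J I ∧ ∃ (T : Finset ℝ) (w : ℝ → ℝ),
      (∀ t ∈ T, ∀ i ∈ J, t ∈ A i) ∧ T.card ≤ m ∧ (∀ t ∈ T, 0 ≤ w t) ∧ ∑ t ∈ T, w t = a ∧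
      ∀ d : ℕ, AKd d T w (d * (K * Real.log (1 / l) + E))

/-- The same for families of separated sets. -/
def GT (a K : ℝ) : Prop :=
  ∃ (C : ℝ) (m : ℕ), 0 ≤ C ∧ ∀ ρ : ℝ, 0 < ρ → ρ ≤ 1 → ∃ E, 0 ≤ E ∧ GTW a K C E m ρ

theorem log_inv_nonneg {l : ℝ} (h0 : 0 < l) (h1 : l ≤ 1) : 0 ≤ Real.log (1 / l) :=
  Real.log_nonneg (by rw [le_div_iff₀ h0]; linarith)

/-- the rounding error -/
noncomputable def erc (R : ℝ) : ℝ := Real.log (2 * (4 * R) + 2)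

theorem er_eq (d : ℕ) (R : ℝ) : er d R = d * erc R := rfl

theorem erc_nonneg {R : ℝ} (hR : 0 ≤ R) : 0 ≤ erc R := Real.log_nonneg (by linarith)

theorem pow_bound {ρ x : ℝ} (h0 : 0 < ρ) (_h1 : ρ ≤ 1) (hx : ρ ^ 3 ≤ |x|) :
    1 ≤ 1 / ρ ^ 3 * |x| := by
  calc (1 : ℝ) = 1 / ρ ^ 3 * ρ ^ 3 := by field_simp
    _ ≤ 1 / ρ ^ 3 * |x| := by gcongr

theorem pow_le1 {ρ : ℝ} (h0 : 0 < ρ) (h1 : ρ ≤ 1) : ρ ^ 3 ≤ ρ := by
  have : ρ ^ 2 ≤ 1 := pow_le_one₀ h0.le h1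
  nlinarith

theorem pow_le2 {ρ : ℝ} (h0 : 0 < ρ) (h1 : ρ ≤ 1) : ρ ^ 3 ≤ ρ ^ 2 :=
  pow_le_pow_of_le_one h0.le h1 (by norm_num)

/-- the logarithm of a product of powers -/
theorem log_inv_mul {l c : ℝ} (j : ℕ) (hl : 0 < l) (hc : 0 < c) :
    Real.log (1 / (c * l ^ j)) = j * Real.log (1 / l) + Real.log (1 / c) := by
  rw [one_div, one_div, one_div, Real.log_inv, Real.log_inv, Real.log_inv,
    Real.log_mul hc.ne' (pow_pos hl j).ne', Real.log_pow]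
  ring

theorem AKd.mono' {d : ℕ} {T : Finset ℝ} {w : ℝ → ℝ} {κ κ' : ℝ} (h : AKd d T w κ)
    (hκ : κ ≤ κ') : AKd d T w κ' := fun Ω _ p f g h1 h2 => (h Ω p f g h1 h2).trans (by linarith)

section Steps

variable {ι : Type} {A : ι → Set ℝ} {ρ l : ℝ} {a K C E : ℝ} {m : ℕ}

/-- (III) for a generator of `XG`. -/
theorem stepXM (hgood : GFW a K C E m) (hC : 0 ≤ C) (hE : 0 ≤ E) (ha : 1 ≤ a) (hK : 0 ≤ K)
    (h0 : 0 < ρ) (h1 : ρ ≤ 1) : ∃ E', 0 ≤ E' ∧ ∀ (l : ℝ) (ι : Type) (A : ι → Set ℝ)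
      (J : Finset ι), (∀ i ∈ J, Sep (A i) ρ l) → J.Nonempty → ∀ φ ∈ XG A ρ l J,
    ∃ J', Sub (2 * C * Real.log (1 / l) + E') J' J ∧
    ∃ Φ₁ Φ₂, Comb (SG A J') 1 1 Φ₁ ∧ Comb (MG A ρ J') a m Φ₂ ∧
      ∀ F : FX, 2 * F.2.L + (a - 1) * φ F ≤ Φ₁ F + Φ₂ F +
        F.1 * (2 * K * Real.log (1 / l) + E') := by
  obtain ⟨c0, hc0⟩ : ∃ c0, c0 = Real.log (1 / (ρ ^ 2 / 4)) := ⟨_, rfl⟩
  have hc0' : 0 ≤ c0 := by
    rw [hc0]
    have : ρ ^ 2 ≤ 1 := pow_le_one₀ h0.le h1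
    exact log_inv_nonneg (by positivity) (by linarith)
  have her : 0 ≤ erc (1 / ρ ^ 3) := erc_nonneg (by positivity)
  refine ⟨C * c0 + E + (K * c0) + (a + 1) * erc (1 / ρ ^ 3), ?_, ?_⟩
  · have := mul_nonneg hC hc0'
    have := mul_nonneg hK hc0'
    have := mul_nonneg (by linarith : 0 ≤ a + 1) her
    linarith
  intro l ι A J hA hJ φ hφ
  obtain ⟨t, s, c, hts, hst, rfl⟩ := hφ
  obtain ⟨i0, hi0⟩ := hJ
  have hl : 0 < l := (hA i0 hi0).pos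
  have hsub0 := (hA i0 hi0).sub
  have htI : t ∈ Icc (0 : ℝ) 1 := hsub0 (hts i0 hi0).1
  have hsI : s ∈ Icc (0 : ℝ) 1 := hsub0 (hts i0 hi0).2.1
  have hD : ∀ i ∈ J, Dn (Bs (A i) ρ t s c) (ρ ^ 2 / 4 * l ^ 2) := by
    intro i hi
    refine ⟨by positivity, measurableSet_Bs (hA i hi).meas ρ t s c,
      fun τ hτ => (hA i hi).sub hτ.1.1, ?_⟩
    have := (hts i hi).2.2
    have e : ρ ^ 2 / 4 * l ^ 2 = ρ ^ 2 * l ^ 2 / 4 := by ring
    rw [e]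
    exact this
  obtain ⟨J', hJ', T, w, hT, hcard, hw, hsum, hAK⟩ := hgood _ ι J _ ⟨i0, hi0⟩ hD
  rw [log_inv_mul 2 hl (by positivity), ← hc0] at hJ' hAK
  push_cast at hJ' hAK
  have hJne := hJ'.nonempty ⟨i0, hi0⟩
  have hCc := mul_nonneg hC hc0'
  have hKc := mul_nonneg hK hc0'
  have haer := mul_nonneg (by linarith : 0 ≤ a + 1) her
  have hmem : ∀ τ ∈ T, ∀ i ∈ J', τ ∈ fr (A i) ρ t s ∧ rt t s c τ ∈ fr (A i) ρ t s := by
    intro τ hτ i hi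
    have := hT τ hτ i hi
    refine ⟨this.1, ?_⟩
    have h2 := this.2
    rw [← mul_div_assoc] at h2
    exact h2
  obtain ⟨i1, hi1⟩ := hJne
  refine ⟨J', hJ'.mono (by nlinarith), fun F => F.2.S t,
    fun F => ∑ τ ∈ T, w τ * F.2.m t τ (rt t s c τ),
    Comb.of_mem ⟨t, fun i hi => (hts i (hJ'.1 hi)).1, rfl⟩,
    ((Comb.sum (b := 1) (j := 1) T w hw (fun τ F => F.2.m t τ (rt t s c τ))
      (fun τ hτ => ?_)).congr (by rw [hsum]; ring) (mul_one _) (fun _ => rfl)).le hcard,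
    fun F => ?_⟩
  · refine Comb.of_mem ⟨t, τ, _, fun i hi => ⟨(hts i (hJ'.1 hi)).1, ((hmem τ hτ i hi).1).1,
      ((hmem τ hτ i hi).2).1⟩, ((hmem τ hτ i1 hi1).1).2.1, ((hmem τ hτ i1 hi1).2).2.1, rfl⟩
  · have hcb := Gs_bound h0 hl hsub0 htI hsI (hts i0 hi0).2.2
    have := F.2.ineq_III (hAK F.1) hw hsum (t := t) (s := s) (c := c) (R := 1 / ρ ^ 3)
      (by positivity) (pow_bound h0 h1 ((pow_le2 h0 h1).trans hcb.1))
      ((hA i0 hi0).abs_le (hts i0 hi0).1 (hts i0 hi0).2.1) (by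
        intro τ hτ
        obtain ⟨h2, _⟩ := hmem τ hτ i1 hi1
        refine ⟨pow_bound h0 h1 ((pow_le1 h0 h1).trans h2.2.1),
          (hA i1 (hJ'.1 hi1)).abs_le (hts i1 (hJ'.1 hi1)).2.1 h2.1, ?_⟩
        rintro rfl
        have h3 := h2.2.2
        rw [sub_self, abs_zero] at h3
        linarith)
    rw [er_eq] at this
    have hd : (0 : ℝ) ≤ F.1 := Nat.cast_nonneg _
    have e1 : (F.1 : ℝ) * (K * (2 * Real.log (1 / l) + c0) + E) + (a + 1) * (F.1 * erc (1 / ρ ^ 3))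
        = F.1 * (2 * K * Real.log (1 / l) + (E + K * c0 + (a + 1) * erc (1 / ρ ^ 3))) := by ring
    have e2 : (F.1 : ℝ) * (2 * K * Real.log (1 / l) + (E + K * c0 + (a + 1) * erc (1 / ρ ^ 3))) ≤
        F.1 * (2 * K * Real.log (1 / l) +
          (C * c0 + E + (K * c0) + (a + 1) * erc (1 / ρ ^ 3))) := by
      refine mul_le_mul_of_nonneg_left (by linarith) hd
    dsimp only
    linarith

/-- (I) and (II) for a generator of `MG`. -/
theorem stepMX (hgood : GFW a K C E m) (hC : 0 ≤ C) (hE : 0 ≤ E) (ha : 1 ≤ a) (hK : 0 ≤ K)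
    (h0 : 0 < ρ) (h1 : ρ ≤ 1) : ∃ E', 0 ≤ E' ∧ ∀ (l : ℝ) (ι : Type) (A : ι → Set ℝ)
      (J : Finset ι), (∀ i ∈ J, Sep (A i) ρ l) → J.Nonempty → ∀ φ ∈ MG A ρ J,
    ∃ J', Sub ((3 * C + 3) * Real.log (1 / l) + E') J' J ∧
    ∃ Φ₁ Φ₂, Comb (SG A J') (3 * a) (m + 4) Φ₁ ∧ Comb (XG A ρ l J') a m Φ₂ ∧
      ∀ F : FX, (a + 2) * F.2.L + (a - 1) * φ F ≤ Φ₁ F + Φ₂ F +
        F.1 * (3 * K * Real.log (1 / l) + E') := by
  obtain ⟨c0, hc0⟩ : ∃ c0, c0 = Real.log (1 / (ρ ^ 4 / 8)) := ⟨_, rfl⟩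
  have hρ4 : ρ ^ 4 ≤ 1 := pow_le_one₀ h0.le h1
  have hc0' : 0 ≤ c0 := by
    rw [hc0]
    exact log_inv_nonneg (by positivity) (by linarith)
  have her : 0 ≤ erc (1 / ρ ^ 3) := erc_nonneg (by positivity)
  have hCc := mul_nonneg hC hc0'
  have hKc := mul_nonneg hK hc0'
  have haer := mul_nonneg (by linarith : 0 ≤ 3 * a) her
  refine ⟨C * c0 + E + c0 + (K * c0) + 3 * a * erc (1 / ρ ^ 3), by linarith, ?_⟩
  intro l ι A J hA hJ φ hφ
  obtain ⟨t, s, r, hts, hst, hrt, rfl⟩ := hφ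
  obtain ⟨i0, hi0⟩ := hJ
  have hl : 0 < l := (hA i0 hi0).pos
  have hsub0 := (hA i0 hi0).sub
  have htI : t ∈ Icc (0 : ℝ) 1 := hsub0 (hts i0 hi0).1
  have hsI : s ∈ Icc (0 : ℝ) 1 := hsub0 (hts i0 hi0).2.1
  have hrI : r ∈ Icc (0 : ℝ) 1 := hsub0 (hts i0 hi0).2.2
  have hts' : ρ ≤ |t - s| := by rw [abs_sub_comm]; exact hst
  -- the choice of `ct`
  obtain ⟨ct, J₁, hJ₁, hJ₁c, hct⟩ := fam_pigeon J
    (fun i => CTs (A i) ρ l t r (Gs (A i) ρ l s t)) (M := 1 / ρ ^ 2) (v := ρ ^ 2 * l ^ 3 / 4)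
    (by positivity) (by positivity)
    (fun i hi => measurableSet_CTs (hA i hi).meas (measurableSet_Gs (hA i hi).meas ρ l s t) ρ l t r)
    (fun i hi c hc => by
      have := CTs_bound h0 hl (hA i hi).sub htI hrI
        (fun c hc => Gs_bound h0 hl (hA i hi).sub hsI htI hc) hc
      exact _root_.abs_le.mp this.2)
    (fun i hi => CTs_vol h0 (hA i hi) htI hrI (measurableSet_Gs (hA i hi).meas ρ l s t)
      (fun c hc => Gs_bound h0 hl (hA i hi).sub hsI htI hc) (Gs_vol h0 (hA i hi) hsI htI))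
  have hSub₁ : Sub (3 * Real.log (1 / l) + c0) J₁ J := by
    refine ⟨hJ₁, le_trans (le_of_eq ?_) hJ₁c⟩
    have e1 : Real.exp (-(3 * Real.log (1 / l) + c0)) = ρ ^ 4 / 8 * l ^ 3 := by
      have e2 := log_inv_mul (c := ρ ^ 4 / 8) 3 hl (by positivity)
      rw [← hc0] at e2
      push_cast at e2
      rw [← e2, one_div, Real.log_inv, neg_neg, Real.exp_log (by positivity)]
    rw [e1]
    field_simp
    ring
  have hJ₁ne := hSub₁.nonempty ⟨i0, hi0⟩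
  have hD : ∀ i ∈ J₁, Dn (Ds (A i) ρ t r ct (Gs (A i) ρ l s t)) (ρ ^ 4 / 8 * l ^ 3) := by
    intro i hi
    have hi' := hJ₁ hi
    refine ⟨by positivity, measurableSet_Ds (hA i hi').meas
      (measurableSet_Gs (hA i hi').meas ρ l s t) ρ t r ct,
      fun τ hτ => (hA i hi').sub hτ.1.1, ?_⟩
    have := hct i hi
    have e : ρ ^ 4 / 8 * l ^ 3 = ρ ^ 4 * l ^ 3 / 8 := by ring
    rw [e]
    exact this
  obtain ⟨J', hJ', T, w, hT, hcard, hw, hsum, hAK⟩ := hgood _ ι J₁ _ hJ₁ne hD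
  rw [log_inv_mul 3 hl (by positivity), ← hc0] at hJ' hAK
  push_cast at hJ' hAK
  have hmem : ∀ τ ∈ T, ∀ i ∈ J', τ ∈ fr (A i) ρ t r ∧
      ct * (τ - t) / (τ - r) ∈ Gs (A i) ρ l s t := by
    intro τ hτ i hi
    have := hT τ hτ i hi
    refine ⟨this.1, ?_⟩
    have h2 := this.2
    rw [← mul_div_assoc, zero_add] at h2
    exact h2
  have hSub : Sub ((3 * C + 3) * Real.log (1 / l) +
      (C * c0 + E + c0 + (K * c0) + 3 * a * erc (1 / ρ ^ 3))) J' J :=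
    (hJ'.trans hSub₁).mono (by nlinarith)
  obtain ⟨i1, hi1⟩ := hSub.nonempty ⟨i0, hi0⟩
  have hi1J : i1 ∈ J := hSub.1 hi1
  have hcb := CTs_bound h0 hl (hA i1 hi1J).sub htI hrI
    (fun c hc => Gs_bound h0 hl (hA i1 hi1J).sub hsI htI hc) (hct i1 (hJ'.1 hi1))
  refine ⟨J', hSub,
    fun F => (F.2.S s + F.2.S t + (a - 1) * (F.2.S s + F.2.S r)) + ∑ τ ∈ T, w τ * F.2.S τ,
    fun F => ∑ τ ∈ T, w τ * F.2.x s t (ct * (τ - t) / (τ - r)), ?_, ?_, fun F => ?_⟩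
  · have cS : ∀ u, (∀ i ∈ J', u ∈ A i) → Comb (SG A J') 1 1 (fun F => F.2.S u) := fun u hu =>
      Comb.of_mem ⟨u, hu, rfl⟩
    have ct' := cS t (fun i hi => (hts i (hSub.1 hi)).1)
    have cs := cS s (fun i hi => (hts i (hSub.1 hi)).2.1)
    have cr := cS r (fun i hi => (hts i (hSub.1 hi)).2.2)
    refine (((cs.plus ct').plus ((cs.plus cr).smul (sub_nonneg.mpr ha))).plus
      ((Comb.sum (b := 1) (j := 1) T w hw (fun τ F => F.2.S τ)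
        (fun τ hτ => cS τ (fun i hi => (hmem τ hτ i hi).1.1))).le (k' := m)
          (by rw [mul_one]; exact hcard)))
      |>.congr ?_ (by ring) (fun F => rfl)
    rw [hsum]; ring
  · refine ((Comb.sum (b := 1) (j := 1) T w hw (fun τ F => F.2.x s t (ct * (τ - t) / (τ - r)))
      (fun τ hτ => ?_)).congr (by rw [hsum]; ring) (mul_one _) (fun _ => rfl)).le hcard
    exact Comb.of_mem ⟨s, t, _, fun i hi => ⟨(hts i (hSub.1 hi)).2.1, (hts i (hSub.1 hi)).1,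
      (hmem τ hτ i hi).2⟩, hts', rfl⟩
  · have hR : (0 : ℝ) ≤ 1 / ρ ^ 3 := by positivity
    have hAi := hA i0 hi0
    have e1 := F.2.ineq_I (hAK F.1) hw hsum (tp := s) (tq := t) (tr := r) (c := ct) hR
      (pow_bound h0 h1 ((pow_le1 h0 h1).trans hst)) (pow_bound h0 h1 hcb.1)
      (hAi.abs_le (hts i0 hi0).1 (hts i0 hi0).2.2) (by
        intro τ hτ
        obtain ⟨h2, _⟩ := hmem τ hτ i1 hi1
        refine ⟨pow_bound h0 h1 ((pow_le1 h0 h1).trans h2.2.1),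
          (hA i1 hi1J).abs_le (hts i1 hi1J).2.2 h2.1, ?_⟩
        rintro rfl
        have h3 := h2.2.2
        rw [sub_self, abs_zero] at h3
        linarith)
    have e2 := F.2.ineq_II (tp := s) (tq := t) (tr := r) (c := ct) hR
      (pow_bound h0 h1 ((pow_le1 h0 h1).trans hrt)) (pow_bound h0 h1 hcb.1)
    have e3 := mul_le_mul_of_nonneg_left e2 (sub_nonneg.mpr ha)
    rw [er_eq] at e1 e3
    have hd : (0 : ℝ) ≤ F.1 := Nat.cast_nonneg _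
    have e5 : (F.1 : ℝ) * (3 * K * Real.log (1 / l) + (K * c0 + E + 3 * a * erc (1 / ρ ^ 3))) ≤
        F.1 * (3 * K * Real.log (1 / l) +
          (C * c0 + E + c0 + (K * c0) + 3 * a * erc (1 / ρ ^ 3))) := by
      refine mul_le_mul_of_nonneg_left (by linarith) hd
    have e6 : (F.1 : ℝ) * (K * (3 * Real.log (1 / l) + c0) + E) +
        (a + 2) * (F.1 * erc (1 / ρ ^ 3)) + (a - 1) * (2 * (F.1 * erc (1 / ρ ^ 3))) =
        F.1 * (3 * K * Real.log (1 / l) + (K * c0 + E + 3 * a * erc (1 / ρ ^ 3))) := by ring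
    simp only [mul_add, Finset.sum_add_distrib] at e1 e3 e5 e6 ⊢
    linarith

/-- Upper bound for `x`. -/
theorem upX (hgood : GFW a K C E m) (hC : 0 ≤ C) (hE : 0 ≤ E) (ha : 1 ≤ a) (hK : 0 ≤ K)
    (h0 : 0 < ρ) (h1 : ρ ≤ 1) : ∃ E', 0 ≤ E' ∧ ∀ (l : ℝ) (ι : Type) (A : ι → Set ℝ)
      (J : Finset ι), (∀ i ∈ J, Sep (A i) ρ l) → J.Nonempty → ∀ φ ∈ XG A ρ l J,
    ∃ J', Sub (2 * C * Real.log (1 / l) + E') J' J ∧
    ∃ Φ₁ Φ₂, Comb (SG A J') (2 * a + 1) (2 * m + 1) Φ₁ ∧ Comb (SG A J') 0 0 Φ₂ ∧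
      ∀ F : FX, 2 * F.2.L + (a - 1) * φ F ≤ Φ₁ F + Φ₂ F +
        F.1 * (2 * K * Real.log (1 / l) + E') := by
  obtain ⟨E', hE', H⟩ := stepXM hgood hC hE ha hK h0 h1
  refine ⟨E', hE', ?_⟩
  intro l ι A J hA hJ φ hφ
  obtain ⟨J', hJ', Φ₁, Φ₂, h2, h3, h4⟩ := H l ι A J hA hJ φ hφ
  obtain ⟨J'', hJ'', Ψ₁, Ψ₂, g1, g2, g3⟩ := Comb.lift (G := MG A ρ) (G₁ := SG A) (G₂ := SG A)
    MG_anti SG_anti SG_anti (b₁ := 2) (b₂ := 0) (l := 0) (q := 1) (e := 0) (c := 0) (k₁ := 2)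
    (k₂ := 0) (hJ'.nonempty hJ) (by
      rintro J₁ hJ₁ hJ₁ne φ ⟨t, s, r, hts, _, _, rfl⟩
      have cS : ∀ u, (∀ i ∈ J₁, u ∈ A i) → Comb (SG A J₁) 1 1 (fun F => F.2.S u) := fun u hu =>
        Comb.of_mem ⟨u, hu, rfl⟩
      refine ⟨J₁, Sub.refl _, fun F => F.2.S s + F.2.S r, fun _ => 0,
        ((cS s (fun i hi => (hts i hi).2.1)).plus (cS r (fun i hi => (hts i hi).2.2))).congr
          (by norm_num) rfl (fun _ => rfl), Comb.zero, fun F => ?_⟩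
      have := F.2.ineq_IV t s r
      linarith) h3 le_rfl
  refine ⟨J'', (hJ''.trans hJ').mono (by simp), fun F => Φ₁ F + Ψ₁ F, Ψ₂,
    ((h2.mono (SG_anti _ _ hJ''.1)).plus g1).congr (by ring) (by ring) (fun _ => rfl),
    g2.congr (by ring) (by ring) (fun _ => rfl), fun F => ?_⟩
  have e1 := h4 F
  have e2 := g3 F
  dsimp only
  linarith

end Steps

end Pool.Agent.H49.KH.Q
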