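import Mathlib
import Pool.Agent.H49.KH.Chain2

/-!
# The improvement step for finite families of sets of times: the chain
-/

set_option autoImplicit false

open MeasureTheory Set
open scoped BigOperators

namespace Pool.Agent.H49.KH.Q

open Pool.Agent.H49.Ent Pool.Agent.H49.KH

/-- a lower bound for averages of `x` -/
def LBX (A B Ke : ℝ) : Prop :=
  ∃ (C : ℝ) (k : ℕ), 0 ≤ C ∧ ∀ ρ : ℝ, 0 < ρ → ρ ≤ 1 → ∃ E, 0 ≤ E ∧
    ∀ (l : ℝ) (ι : Type) (D : ι → Set ℝ) (I : Finset ι), (∀ i ∈ I, Sep (D i) ρ l) → I.Nonempty →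
    ∃ J, Sub (C * Real.log (1 / l) + E) J I ∧
    ∃ Ψ Φ, Comb (XG D ρ l J) 1 k Ψ ∧ Comb (SG D J) B k Φ ∧
      ∀ F : FX, A * F.2.L ≤ Φ F + Ψ F + F.1 * (Ke * Real.log (1 / l) + E)

/-- a lower bound for averages of `m` -/
def LBM (A B Ke : ℝ) : Prop :=
  ∃ (C : ℝ) (k : ℕ), 0 ≤ C ∧ ∀ ρ : ℝ, 0 < ρ → ρ ≤ 1 → ∃ E, 0 ≤ E ∧
    ∀ (l : ℝ) (ι : Type) (D : ι → Set ℝ) (I : Finset ι), (∀ i ∈ I, Sep (D i) ρ l) → I.Nonempty →
    ∃ J, Sub (C * Real.log (1 / l) + E) J I ∧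
    ∃ Ψ Φ, Comb (MG D ρ J) 1 k Ψ ∧ Comb (SG D J) B k Φ ∧
      ∀ F : FX, A * F.2.L ≤ Φ F + Ψ F + F.1 * (Ke * Real.log (1 / l) + E)

theorem Sub.of_mul {ι : Type} {J I : Finset ι} {c l : ℝ} {j : ℕ} (hJ : J ⊆ I) (hl : 0 < l)
    (hc : 0 < c) (h : c * l ^ j * I.card ≤ J.card) :
    Sub (j * Real.log (1 / l) + Real.log (1 / c)) J I := by
  refine ⟨hJ, le_trans (le_of_eq ?_) h⟩
  rw [← log_inv_mul j hl hc, one_div, Real.log_inv, neg_neg, Real.exp_log (by positivity)]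

/-- two separated common times for a large subfamily -/
theorem two_common {ι : Type} {D : ι → Set ℝ} {I : Finset ι} {ρ l : ℝ}
    (hD : ∀ i ∈ I, Sep (D i) ρ l) (hI : I.Nonempty) :
    ∃ J, Sub (2 * Real.log (1 / l) + Real.log (1 / (1 / 4))) J I ∧ ∃ t s, ρ ≤ |s - t| ∧
      ∀ i ∈ J, t ∈ D i ∧ s ∈ D i := by
  obtain ⟨i0, hi0⟩ := hI
  have hl : 0 < l := (hD i0 hi0).pos
  have hI11 : Icc (0 : ℝ) 1 ⊆ Icc (-1) 1 := Icc_subset_Icc (by norm_num) le_rfl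
  obtain ⟨t, J₁, h1, h2, h3⟩ := fam_pigeon I D (M := 1) (v := l) one_pos hl.le
    (fun i hi => (hD i hi).meas) (fun i hi => (hD i hi).sub.trans hI11)
    (fun i hi => (hD i hi).vol')
  have s1 : Sub (1 * Real.log (1 / l) + Real.log (1 / (1 / 2))) J₁ I := by
    have := Sub.of_mul (j := 1) (c := 1 / 2) h1 hl (by norm_num) (by
      refine le_trans (le_of_eq ?_) h2; ring)
    simpa using this
  obtain ⟨s, J₂, g1, g2, g3⟩ := fam_pigeon J₁ (fun i => fr (D i) ρ t t) (M := 1) (v := l)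
    one_pos hl.le (fun i hi => measurableSet_fr (hD i (h1 hi)).meas ρ t t)
    (fun i hi => fun x hx => hI11 ((hD i (h1 hi)).sub hx.1)) (fun i hi => (hD i (h1 hi)).vol t t)
  have s2 : Sub (1 * Real.log (1 / l) + Real.log (1 / (1 / 2))) J₂ J₁ := by
    have := Sub.of_mul (j := 1) (c := 1 / 2) g1 hl (by norm_num) (by
      refine le_trans (le_of_eq ?_) g2; ring)
    simpa using this
  have s3 := s2.trans s1
  obtain ⟨i1, hi1⟩ := s3.nonempty ⟨i0, hi0⟩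
  refine ⟨J₂, s3.mono ?_, t, s, (g3 i1 hi1).2.1, fun i hi => ⟨h3 i (g1 hi), (g3 i hi).1⟩⟩
  have e : Real.log (1 / (1 / 4 : ℝ)) = Real.log (1 / (1 / 2)) + Real.log (1 / (1 / 2)) := by
    rw [← Real.log_mul (by norm_num) (by norm_num)]; norm_num
  rw [e]
  linarith

theorem LBX_zero : LBX 0 0 0 := by
  refine ⟨4, 1, by norm_num, fun ρ h0 h1 => ?_⟩
  have hρ2 : ρ ^ 2 ≤ 1 := pow_le_one₀ h0.le h1
  have hE1 : 0 ≤ Real.log (1 / (ρ ^ 2 / 4)) := log_inv_nonneg (by positivity) (by linarith)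
  have hE2 : 0 ≤ Real.log (1 / (1 / 4 : ℝ)) := Real.log_nonneg (by norm_num)
  refine ⟨Real.log (1 / (ρ ^ 2 / 4)) + Real.log (1 / (1 / 4)), by linarith, ?_⟩
  intro l ι D I hD hI
  obtain ⟨J₁, hJ₁, t, s, hts, hmem⟩ := two_common hD hI
  obtain ⟨i0, hi0⟩ := hJ₁.nonempty hI
  have hl : 0 < l := (hD i0 (hJ₁.1 hi0)).pos
  have hI' : ∀ i ∈ J₁, Sep (D i) ρ l := fun i hi => hD i (hJ₁.1 hi)
  obtain ⟨c, J₂, g1, g2, g3⟩ := fam_pigeon J₁ (fun i => Gs (D i) ρ l t s) (M := 1 / ρ)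
    (v := ρ * l ^ 2 / 2) (by positivity) (by positivity)
    (fun i hi => measurableSet_Gs (hI' i hi).meas ρ l t s)
    (fun i hi c hc => _root_.abs_le.mp (Gs_bound h0 hl (hI' i hi).sub
      ((hI' i hi).sub (hmem i hi).1) ((hI' i hi).sub (hmem i hi).2) hc).2)
    (fun i hi => Gs_vol h0 (hI' i hi) ((hI' i hi).sub (hmem i hi).1)
      ((hI' i hi).sub (hmem i hi).2))
  have s2 : Sub (2 * Real.log (1 / l) + Real.log (1 / (ρ ^ 2 / 4))) J₂ J₁ := by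
    have := Sub.of_mul (j := 2) (c := ρ ^ 2 / 4) g1 hl (by positivity) (by
      refine le_trans (le_of_eq ?_) g2; field_simp; ring)
    simpa using this
  refine ⟨J₂, (s2.trans hJ₁).mono (by linarith), fun F => F.2.x t s c, fun _ => 0,
    Comb.of_mem ⟨t, s, c, fun i hi => ⟨(hmem i (g1 hi)).1, (hmem i (g1 hi)).2, g3 i hi⟩, hts, rfl⟩,
    Comb.zero.wk, fun F => ?_⟩
  have := F.2.x_nonneg t s c
  have hd : (0 : ℝ) ≤ F.1 := Nat.cast_nonneg _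
  have h3 : 0 ≤ (F.1 : ℝ) * (0 * Real.log (1 / l) +
      (Real.log (1 / (ρ ^ 2 / 4)) + Real.log (1 / (1 / 4)))) :=
    mul_nonneg hd (by linarith)
  linarith

theorem LBX.toM {a K A B Ke : ℝ} (hgood : GF a K) (ha : 1 ≤ a) (hK : 0 ≤ K) (h : LBX A B Ke) :
    LBM ((2 + (a - 1) * A) / a) ((1 + (a - 1) * B) / a) ((2 * K + (a - 1) * Ke) / a) := by
  obtain ⟨C, E, m, hC, hE, hg⟩ := hgood
  obtain ⟨C₁, k, hC₁, H⟩ := h
  have ha0 : 0 < a := by linarith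
  refine ⟨C₁ + k * (2 * C), k * m + 2 * k, by positivity, fun ρ h0 h1 => ?_⟩
  obtain ⟨E₁, hE₁, H₁⟩ := H ρ h0 h1
  obtain ⟨E₂, hE₂, H₂⟩ := stepXM hg hC hE ha hK h0 h1
  have ha1 : 0 ≤ a - 1 := by linarith
  have hkE : 0 ≤ k * E₂ := by positivity
  have hx1 : 0 ≤ (a - 1) * E₁ := by positivity
  have hx2 : 0 ≤ a⁻¹ * (E₂ + (a - 1) * E₁) := by positivity
  refine ⟨E₁ + k * E₂ + a⁻¹ * (E₂ + (a - 1) * E₁), by positivity, ?_⟩
  intro l ι D I hD hI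
  obtain ⟨J, hJ, Ψ, Φ, h2, h3, h4⟩ := H₁ l ι D I hD hI
  obtain ⟨i0, hi0⟩ := hI
  have hΛ : 0 ≤ Real.log (1 / l) := log_inv_nonneg (hD i0 hi0).pos (hD i0 hi0).le_one
  obtain ⟨J', hJ', Φ₁, Φ₂, g1, g2, g3⟩ := Comb.lift (G := XG D ρ l) (G₁ := SG D)
    (G₂ := MG D ρ) XG_anti SG_anti MG_anti (hJ.nonempty ⟨i0, hi0⟩)
    (fun J₁ hJ₁ hJ₁ne φ hφ => H₂ l ι D J₁ (fun i hi => hD i (hJ.1 (hJ₁ hi))) hJ₁ne φ hφ) h2
    (by positivity)
  refine ⟨J', (hJ'.trans hJ).mono ?_, fun F => a⁻¹ * Φ₂ F, fun F => a⁻¹ * (Φ₁ F + (a - 1) * Φ F),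
    ((g2.smul (inv_nonneg.mpr ha0.le)).congr (by field_simp) rfl (fun _ => rfl)).le (by omega),
    (((g1.plus ((h3.mono (SG_anti _ _ hJ'.1)).smul ha1)).smul (inv_nonneg.mpr ha0.le)).congr
      (by field_simp) rfl (fun _ => rfl)).le (by rw [mul_one]; omega), fun F => ?_⟩
  · ring_nf
    ring_nf at hx2
    linarith
  · have e1 := g3 F
    have e2 := mul_le_mul_of_nonneg_left (h4 F) ha1
    have hd : (0 : ℝ) ≤ F.1 := Nat.cast_nonneg _
    have e3 : (2 + (a - 1) * A) * F.2.L ≤ (Φ₁ F + (a - 1) * Φ F) + Φ₂ F +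
        F.1 * ((2 * K + (a - 1) * Ke) * Real.log (1 / l) + (E₂ + (a - 1) * E₁)) := by
      ring_nf at e1 e2 ⊢
      linarith
    have e4 := mul_le_mul_of_nonneg_left e3 (inv_nonneg.mpr ha0.le)
    have e5 : (F.1 : ℝ) * ((2 * K + (a - 1) * Ke) / a * Real.log (1 / l) +
        a⁻¹ * (E₂ + (a - 1) * E₁)) ≤ F.1 * ((2 * K + (a - 1) * Ke) / a * Real.log (1 / l) +
        (E₁ + k * E₂ + a⁻¹ * (E₂ + (a - 1) * E₁))) := by
      refine mul_le_mul_of_nonneg_left (by linarith) hd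
    calc (2 + (a - 1) * A) / a * F.2.L = a⁻¹ * ((2 + (a - 1) * A) * F.2.L) := by ring
      _ ≤ _ := e4
      _ = a⁻¹ * (Φ₁ F + (a - 1) * Φ F) + a⁻¹ * Φ₂ F +
          F.1 * ((2 * K + (a - 1) * Ke) / a * Real.log (1 / l) +
          a⁻¹ * (E₂ + (a - 1) * E₁)) := by ring
      _ ≤ _ := by linarith

theorem LBM.toX {a K A B Ke : ℝ} (hgood : GF a K) (ha : 1 ≤ a) (hK : 0 ≤ K) (h : LBM A B Ke) :
    LBX ((a + 2 + (a - 1) * A) / a) ((3 * a + (a - 1) * B) / a)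
      ((3 * K + (a - 1) * Ke) / a) := by
  obtain ⟨C, E, m, hC, hE, hg⟩ := hgood
  obtain ⟨C₁, k, hC₁, H⟩ := h
  have ha0 : 0 < a := by linarith
  refine ⟨C₁ + k * (3 * C + 3), k * (m + 4) + k, by positivity, fun ρ h0 h1 => ?_⟩
  obtain ⟨E₁, hE₁, H₁⟩ := H ρ h0 h1
  obtain ⟨E₂, hE₂, H₂⟩ := stepMX hg hC hE ha hK h0 h1
  have ha1 : 0 ≤ a - 1 := by linarith
  have hkE : 0 ≤ k * E₂ := by positivity
  have hx1 : 0 ≤ (a - 1) * E₁ := by positivity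
  have hx2 : 0 ≤ a⁻¹ * (E₂ + (a - 1) * E₁) := by positivity
  refine ⟨E₁ + k * E₂ + a⁻¹ * (E₂ + (a - 1) * E₁), by positivity, ?_⟩
  intro l ι D I hD hI
  obtain ⟨J, hJ, Ψ, Φ, h2, h3, h4⟩ := H₁ l ι D I hD hI
  obtain ⟨i0, hi0⟩ := hI
  have hΛ : 0 ≤ Real.log (1 / l) := log_inv_nonneg (hD i0 hi0).pos (hD i0 hi0).le_one
  obtain ⟨J', hJ', Φ₁, Φ₂, g1, g2, g3⟩ := Comb.lift (G := MG D ρ) (G₁ := SG D)
    (G₂ := XG D ρ l) MG_anti SG_anti XG_anti (hJ.nonempty ⟨i0, hi0⟩)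
    (fun J₁ hJ₁ hJ₁ne φ hφ => H₂ l ι D J₁ (fun i hi => hD i (hJ.1 (hJ₁ hi))) hJ₁ne φ hφ) h2
    (by positivity)
  refine ⟨J', (hJ'.trans hJ).mono ?_, fun F => a⁻¹ * Φ₂ F, fun F => a⁻¹ * (Φ₁ F + (a - 1) * Φ F),
    ((g2.smul (inv_nonneg.mpr ha0.le)).congr (by field_simp) rfl (fun _ => rfl)).le (by
      have : k * m ≤ k * (m + 4) := Nat.mul_le_mul_left k (by omega)
      omega),
    (((g1.plus ((h3.mono (SG_anti _ _ hJ'.1)).smul ha1)).smul (inv_nonneg.mpr ha0.le)).congr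
      (by field_simp) rfl (fun _ => rfl)).le le_rfl, fun F => ?_⟩
  · ring_nf
    ring_nf at hx2
    linarith
  · have e1 := g3 F
    have e2 := mul_le_mul_of_nonneg_left (h4 F) ha1
    have hd : (0 : ℝ) ≤ F.1 := Nat.cast_nonneg _
    have e3 : (a + 2 + (a - 1) * A) * F.2.L ≤ (Φ₁ F + (a - 1) * Φ F) + Φ₂ F +
        F.1 * ((3 * K + (a - 1) * Ke) * Real.log (1 / l) + (E₂ + (a - 1) * E₁)) := by
      ring_nf at e1 e2 ⊢
      linarith
    have e4 := mul_le_mul_of_nonneg_left e3 (inv_nonneg.mpr ha0.le)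
    have e5 : (F.1 : ℝ) * ((3 * K + (a - 1) * Ke) / a * Real.log (1 / l) +
        a⁻¹ * (E₂ + (a - 1) * E₁)) ≤ F.1 * ((3 * K + (a - 1) * Ke) / a * Real.log (1 / l) +
        (E₁ + k * E₂ + a⁻¹ * (E₂ + (a - 1) * E₁))) := by
      refine mul_le_mul_of_nonneg_left (by linarith) hd
    calc (a + 2 + (a - 1) * A) / a * F.2.L = a⁻¹ * ((a + 2 + (a - 1) * A) * F.2.L) := by ring
      _ ≤ _ := e4
      _ = a⁻¹ * (Φ₁ F + (a - 1) * Φ F) + a⁻¹ * Φ₂ F +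
          F.1 * ((3 * K + (a - 1) * Ke) / a * Real.log (1 / l) +
          a⁻¹ * (E₂ + (a - 1) * E₁)) := by ring
      _ ≤ _ := by linarith

theorem LBX.mono {A B Ke Ke' : ℝ} (h : LBX A B Ke) (hK : Ke ≤ Ke') : LBX A B Ke' := by
  obtain ⟨C, k, hC, H⟩ := h
  refine ⟨C, k, hC, fun ρ h0 h1 => ?_⟩
  obtain ⟨E, hE, H⟩ := H ρ h0 h1
  refine ⟨E, hE, fun l ι D I hD hI => ?_⟩
  obtain ⟨J, hJ, Ψ, Φ, h2, h3, h4⟩ := H l ι D I hD hI
  refine ⟨J, hJ, Ψ, Φ, h2, h3, fun F => (h4 F).trans ?_⟩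
  obtain ⟨i0, hi0⟩ := hI
  have hΛ : 0 ≤ Real.log (1 / l) := log_inv_nonneg (hD i0 hi0).pos (hD i0 hi0).le_one
  have hd : (0 : ℝ) ≤ F.1 := Nat.cast_nonneg _
  have : (F.1 : ℝ) * (Ke * Real.log (1 / l) + E) ≤ F.1 * (Ke' * Real.log (1 / l) + E) :=
    mul_le_mul_of_nonneg_left (by nlinarith) hd
  linarith

/-- The iterated lower bound. -/
theorem LBX_iter {a K : ℝ} (hgood : GF a K) (ha : 1 < a) (hK : 0 ≤ K) (n : ℕ) :
    LBX ((a ^ 2 + 4 * a - 2) / (2 * a - 1) * (1 - (((a - 1) / a) ^ 2) ^ n))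
      ((3 * a ^ 2 + a - 1) / (2 * a - 1) * (1 - (((a - 1) / a) ^ 2) ^ n))
      (K * (5 * a - 2) / (2 * a - 1)) := by
  induction n with
  | zero =>
    have := LBX_zero.mono (Ke' := K * (5 * a - 2) / (2 * a - 1)) (by
      have : 0 ≤ 5 * a - 2 := by linarith
      have : 0 < 2 * a - 1 := by linarith
      positivity)
    simpa using this
  | succ n ih =>
    have h := (ih.toM hgood ha.le hK).toX hgood ha.le hK
    have ha0 : a ≠ 0 := by linarith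
    have ha1 : 2 * a - 1 ≠ 0 := by linarith
    obtain ⟨A, hA, hA'⟩ : ∃ A : ℝ, A = (a ^ 2 + 4 * a - 2) / (2 * a - 1) ∧
        A * (2 * a - 1) = a ^ 2 + 4 * a - 2 := ⟨_, rfl, div_mul_cancel₀ _ ha1⟩
    obtain ⟨B, hB, hB'⟩ : ∃ B : ℝ, B = (3 * a ^ 2 + a - 1) / (2 * a - 1) ∧
        B * (2 * a - 1) = 3 * a ^ 2 + a - 1 := ⟨_, rfl, div_mul_cancel₀ _ ha1⟩
    obtain ⟨e, he, he'⟩ : ∃ e : ℝ, e = K * (5 * a - 2) / (2 * a - 1) ∧
        e * (2 * a - 1) = K * (5 * a - 2) := ⟨_, rfl, div_mul_cancel₀ _ ha1⟩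
    rw [← hA, ← hB, ← he] at h ⊢
    convert h using 1
    · rw [pow_succ (((a - 1) / a) ^ 2) n]
      generalize (((a - 1) / a) ^ 2) ^ n = Q
      field_simp
      linear_combination hA'
    · rw [pow_succ (((a - 1) / a) ^ 2) n]
      generalize (((a - 1) / a) ^ 2) ^ n = Q
      field_simp
      linear_combination hB'
    · field_simp
      linear_combination he'

/-- Extracting times and weights from a combination of slices. -/
theorem Comb.extract {ι : Type} {D : ι → Set ℝ} {J : Finset ι} {B : ℝ} {k : ℕ} {Φ : FX → ℝ}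
    (h : Comb (SG D J) B k Φ) :
    ∃ (T : Finset ℝ) (w : ℝ → ℝ), (∀ t ∈ T, ∀ i ∈ J, t ∈ D i) ∧ T.card ≤ k ∧
      (∀ t ∈ T, 0 ≤ w t) ∧ ∑ t ∈ T, w t = B ∧ ∀ F : FX, Φ F = ∑ t ∈ T, w t * F.2.S t := by
  classical
  induction h with
  | zero => exact ⟨∅, fun _ => 0, by simp, by simp, by simp, by simp, by simp⟩
  | add c hc φ hφ _ ih =>
    obtain ⟨T, w, h1, h2, h3, h4, h5⟩ := ih
    obtain ⟨t, ht, rfl⟩ := hφ
    have key : ∀ ψ : ℝ → ℝ, ∑ x ∈ insert t T, ((if x ∈ T then w x else 0) +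
        (if x = t then c else 0)) * ψ x = ∑ x ∈ T, w x * ψ x + c * ψ t := by
      intro ψ
      simp only [add_mul, Finset.sum_add_distrib, ite_mul, zero_mul]
      rw [Finset.sum_ite_mem, Finset.inter_eq_right.mpr (Finset.subset_insert t T),
        Finset.sum_ite_eq' (insert t T) t (fun x => c * ψ x),
        if_pos (Finset.mem_insert_self t T)]
    refine ⟨insert t T, fun x => (if x ∈ T then w x else 0) + (if x = t then c else 0),
      ?_, ?_, ?_, ?_, ?_⟩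
    · intro x hx
      rcases Finset.mem_insert.mp hx with rfl | hx
      · exact ht
      · exact h1 x hx
    · exact (Finset.card_insert_le _ _).trans (by omega)
    · intro x _
      refine add_nonneg ?_ ?_
      · split_ifs with hx
        · exact h3 x hx
        · exact le_rfl
      · split_ifs
        · exact hc
        · exact le_rfl
    · have := key (fun _ => 1)
      simp only [mul_one] at this
      rw [this, h4]
    · intro F
      have h6 := key (fun x => F.2.S x)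
      have h7 := h5 F
      simp only at h6 ⊢
      rw [h6, ← h7]
  | wk _ ih =>
    obtain ⟨T, w, h1, h2, h3, h4, h5⟩ := ih
    exact ⟨T, w, h1, by omega, h3, h4, h5⟩

/-- The improvement step. -/
theorem GF_step {a K A B Ke : ℝ} (hgood : GF a K) (ha : 1 ≤ a) (hK : 0 ≤ K) (hA : 0 ≤ A)
    (h : LBX A B Ke) : GT ((2 * a + 1 + (a - 1) * B) / (2 + (a - 1) * A))
      ((2 * K + (a - 1) * Ke) / (2 + (a - 1) * A)) := by
  obtain ⟨C, E, m, hC, hE, hg⟩ := hgood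
  obtain ⟨C₁, k, hC₁, H⟩ := h
  have hD0 : 0 < 2 + (a - 1) * A := by nlinarith
  refine ⟨C₁ + k * (2 * C), k * (2 * m + 1) + k * 0 + k, by positivity, fun ρ h0 h1 => ?_⟩
  obtain ⟨E₁, hE₁, H₁⟩ := H ρ h0 h1
  obtain ⟨E₂, hE₂, H₂⟩ := upX hg hC hE ha hK h0 h1
  have ha1 : 0 ≤ a - 1 := by linarith
  have hkE : 0 ≤ k * E₂ := by positivity
  have hx1 : 0 ≤ (a - 1) * E₁ := by positivity
  have hx2 : 0 ≤ (2 + (a - 1) * A)⁻¹ * (E₂ + (a - 1) * E₁) := by positivity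
  refine ⟨E₁ + k * E₂ + (2 + (a - 1) * A)⁻¹ * (E₂ + (a - 1) * E₁), by positivity, ?_⟩
  intro l ι I D hI hD
  obtain ⟨J, hJ, Ψ, Φ, h2, h3, h4⟩ := H₁ l ι D I hD hI
  obtain ⟨i0, hi0⟩ := hI
  have hΛ : 0 ≤ Real.log (1 / l) := log_inv_nonneg (hD i0 hi0).pos (hD i0 hi0).le_one
  obtain ⟨J', hJ', Φ₁, Φ₂, g1, g2, g3⟩ := Comb.lift (G := XG D ρ l) (G₁ := SG D)
    (G₂ := SG D) XG_anti SG_anti SG_anti (hJ.nonempty ⟨i0, hi0⟩)
    (fun J₁ hJ₁ hJ₁ne φ hφ => H₂ l ι D J₁ (fun i hi => hD i (hJ.1 (hJ₁ hi))) hJ₁ne φ hφ) h2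
    (by positivity)
  obtain ⟨T, w, t1, t2, t3, t4, t5⟩ :=
    (((g1.plus g2).plus ((h3.mono (SG_anti _ _ hJ'.1)).smul ha1)).smul
      (inv_nonneg.mpr hD0.le)).extract
  refine ⟨J', (hJ'.trans hJ).mono ?_, T, w, t1, t2, t3, ?_, fun d => AKd_of_fam t3 (fun F => ?_)⟩
  · ring_nf
    ring_nf at hx2
    linarith
  · rw [t4]
    field_simp
    ring
  · rw [← t5 ⟨d, F⟩]
    have e1 := g3 ⟨d, F⟩
    have e2 := mul_le_mul_of_nonneg_left (h4 ⟨d, F⟩) ha1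
    dsimp only at e1 e2
    have hd : (0 : ℝ) ≤ (d : ℝ) := Nat.cast_nonneg _
    have e3 : (2 + (a - 1) * A) * F.L ≤ (Φ₁ ⟨d, F⟩ + Φ₂ ⟨d, F⟩ + (a - 1) * Φ ⟨d, F⟩) +
        d * ((2 * K + (a - 1) * Ke) * Real.log (1 / l) + (E₂ + (a - 1) * E₁)) := by
      ring_nf at e1 e2 ⊢
      linarith
    have e4 := mul_le_mul_of_nonneg_left e3 (inv_nonneg.mpr hD0.le)
    rw [← mul_assoc, inv_mul_cancel₀ hD0.ne', one_mul] at e4
    have e5 : (d : ℝ) * ((2 * K + (a - 1) * Ke) / (2 + (a - 1) * A) * Real.log (1 / l) +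
        (2 + (a - 1) * A)⁻¹ * (E₂ + (a - 1) * E₁)) ≤
        d * ((2 * K + (a - 1) * Ke) / (2 + (a - 1) * A) * Real.log (1 / l) +
        (E₁ + k * E₂ + (2 + (a - 1) * A)⁻¹ * (E₂ + (a - 1) * E₁))) := by
      refine mul_le_mul_of_nonneg_left (by linarith) hd
    have e6 : (2 + (a - 1) * A)⁻¹ * ((Φ₁ ⟨d, F⟩ + Φ₂ ⟨d, F⟩ + (a - 1) * Φ ⟨d, F⟩) +
        d * ((2 * K + (a - 1) * Ke) * Real.log (1 / l) + (E₂ + (a - 1) * E₁))) =
        (2 + (a - 1) * A)⁻¹ * (Φ₁ ⟨d, F⟩ + Φ₂ ⟨d, F⟩ + (a - 1) * Φ ⟨d, F⟩) +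
        d * ((2 * K + (a - 1) * Ke) / (2 + (a - 1) * A) * Real.log (1 / l) +
        (2 + (a - 1) * A)⁻¹ * (E₂ + (a - 1) * E₁)) := by ring
    rw [e6] at e4
    linarith

/-- The trivial exponent. -/
theorem GF_two {K : ℝ} (hK : 1 ≤ K) : GF 2 K := by
  classical
  have h66 : 0 ≤ Real.log 66 := Real.log_nonneg (by norm_num)
  have hE2 : 0 ≤ Real.log (1 / (1 / 4 : ℝ)) := Real.log_nonneg (by norm_num)
  have hE3 : 0 ≤ Real.log (2 : ℝ) := Real.log_nonneg (by norm_num)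
  refine ⟨2, Real.log 66 + Real.log (1 / (1 / 4)) + 2 * Real.log 2, 2, by norm_num,
    by positivity, ?_⟩
  intro l ι I D hI hD
  obtain ⟨i0, hi0⟩ := hI
  have hl : 0 < l := (hD i0 hi0).pos
  have hl1 : l ≤ 1 := (hD i0 hi0).le_one
  have hS : ∀ i ∈ I, Sep (D i) (l / 8) (l / 2) := by
    intro i hi
    refine ⟨by linarith, by linarith, (hD i hi).meas, (hD i hi).sub, fun t s => ?_⟩
    have := fr_vol (ρ := l / 8) (by linarith) (hD i hi).vol t s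
    have e : l - 4 * (l / 8) = l / 2 := by ring
    rwa [e] at this
  obtain ⟨J, hJ, t, s, hst, hmem⟩ := two_common hS ⟨i0, hi0⟩
  have hne : s ≠ t := by
    rintro rfl
    rw [sub_self, abs_zero] at hst
    linarith
  have e1 : Real.log (1 / (l / 2)) = Real.log (1 / l) + Real.log 2 := by
    rw [← Real.log_mul (by positivity) (by norm_num)]
    congr 1
    field_simp
  refine ⟨J, hJ.mono ?_, {s, t}, fun _ => 1, ?_, Finset.card_le_two, fun _ _ => zero_le_one, ?_,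
    fun d => AKd_of_fam (fun _ _ => zero_le_one) (fun F => ?_)⟩
  · rw [e1]; linarith
  · intro x hx
    rcases Finset.mem_insert.mp hx with rfl | hx
    · exact fun i hi => (hmem i hi).2
    · rw [Finset.mem_singleton.mp hx]; exact fun i hi => (hmem i hi).1
  · rw [Finset.sum_pair hne]; norm_num
  · rw [Finset.sum_pair hne, one_mul, one_mul]
    have h1 := F.two_times (s := s) (t := t) (R := 8 / l) (by positivity) (by
      calc (1 : ℝ) = 8 / l * (l / 8) := by field_simp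
        _ ≤ 8 / l * |s - t| := by gcongr)
    rw [er_eq] at h1
    have hΛ : 0 ≤ Real.log (1 / l) := log_inv_nonneg hl hl1
    have h2 : erc (8 / l) ≤ Real.log (1 / l) + Real.log 66 := by
      rw [← Real.log_mul (by positivity) (by norm_num)]
      refine Real.log_le_log (by positivity) ?_
      have e3 : 2 * (4 * (8 / l)) + 2 = 64 / l + 2 := by ring
      have e4 : 1 / l * 66 = 64 / l + 2 * (1 / l) := by ring
      rw [e3, e4]
      have : (1 : ℝ) ≤ 1 / l := by rw [le_div_iff₀ hl]; linarith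
      linarith
    have hd : (0 : ℝ) ≤ (d : ℝ) := Nat.cast_nonneg _
    have h3 : (d : ℝ) * erc (8 / l) ≤ d * (K * Real.log (1 / l) +
        (Real.log 66 + Real.log (1 / (1 / 4)) + 2 * Real.log 2)) := by
      refine mul_le_mul_of_nonneg_left ?_ hd
      nlinarith
    linarith

/-- increasing the weight of one time -/
theorem AKd.add_weight {d : ℕ} {T : Finset ℝ} {w : ℝ → ℝ} {κ : ℝ} (h : AKd d T w κ) {t : ℝ}
    {e : ℝ} (he : 0 ≤ e) : AKd d T (fun x => w x + if x = t then e else 0) κ := by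
  intro Ω _ p f g hp h1
  refine (h Ω p f g hp h1).trans ?_
  have : ∑ x ∈ T, w x * H p (fun ω => rd (f ω + x • g ω)) ≤
      ∑ x ∈ T, (w x + if x = t then e else 0) * H p (fun ω => rd (f ω + x • g ω)) := by
    refine Finset.sum_le_sum (fun x _ => mul_le_mul_of_nonneg_right ?_ (H_nonneg hp h1 _))
    split_ifs <;> linarith
  linarith

theorem sum_add_weight {T : Finset ℝ} {w : ℝ → ℝ} {t e : ℝ} (ht : t ∈ T) :
    ∑ x ∈ T, (w x + if x = t then e else 0) = ∑ x ∈ T, w x + e := by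
  rw [Finset.sum_add_distrib, Finset.sum_ite_eq' T t (fun _ => e), if_pos ht]

/-- A larger exponent and a larger loss are weaker. -/
theorem GF.mono {a a' K K' : ℝ} (h : GF a K) (ha : 0 < a) (haa : a ≤ a') (hK : K ≤ K') :
    GF a' K' := by
  obtain ⟨C, E, m, hC, hE, H⟩ := h
  refine ⟨C, E, m, hC, hE, fun l ι I D hI hD => ?_⟩
  obtain ⟨J, hJ, T, w, t1, t2, t3, t4, t5⟩ := H l ι I D hI hD
  obtain ⟨i0, hi0⟩ := hI
  have hΛ : 0 ≤ Real.log (1 / l) := log_inv_nonneg (hD i0 hi0).pos (hD i0 hi0).le_one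
  have hT : T.Nonempty := by
    by_contra h
    rw [Finset.not_nonempty_iff_eq_empty] at h
    rw [h, Finset.sum_empty] at t4
    linarith
  obtain ⟨t, ht⟩ := hT
  refine ⟨J, hJ, T, fun x => w x + if x = t then a' - a else 0, t1, t2, ?_, ?_, fun d => ?_⟩
  · intro x hx
    have := t3 x hx
    dsimp only
    split_ifs
    · linarith
    · linarith
  · rw [sum_add_weight ht, t4]; ring
  · refine AKd.mono' (AKd.add_weight (t5 d) (sub_nonneg.mpr haa)) ?_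
    refine mul_le_mul_of_nonneg_left (by nlinarith) (Nat.cast_nonneg d)

theorem GT.mono {a a' K K' : ℝ} (h : GT a K) (ha : 0 < a) (haa : a ≤ a') (hK : K ≤ K') :
    GT a' K' := by
  obtain ⟨C, m, hC, H⟩ := h
  refine ⟨C, m, hC, fun ρ h0 h1 => ?_⟩
  obtain ⟨E, hE, H⟩ := H ρ h0 h1
  refine ⟨E, hE, fun l ι I D hI hD => ?_⟩
  obtain ⟨J, hJ, T, w, t1, t2, t3, t4, t5⟩ := H l ι I D hI hD
  obtain ⟨i0, hi0⟩ := hI
  have hΛ : 0 ≤ Real.log (1 / l) := log_inv_nonneg (hD i0 hi0).pos (hD i0 hi0).le_one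
  have hT : T.Nonempty := by
    by_contra h
    rw [Finset.not_nonempty_iff_eq_empty] at h
    rw [h, Finset.sum_empty] at t4
    linarith
  obtain ⟨t, ht⟩ := hT
  refine ⟨J, hJ, T, fun x => w x + if x = t then a' - a else 0, t1, t2, ?_, ?_, fun d => ?_⟩
  · intro x hx
    have := t3 x hx
    dsimp only
    split_ifs
    · linarith
    · linarith
  · rw [sum_add_weight ht, t4]; ring
  · refine AKd.mono' (AKd.add_weight (t5 d) (sub_nonneg.mpr haa)) ?_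
    refine mul_le_mul_of_nonneg_left (by nlinarith) (Nat.cast_nonneg d)

end Pool.Agent.H49.KH.Q
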