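import Mathlib
import Pool.Agent.H49.KH.Chain3

/-!
# Localisation: from separated sets to all sets of times
-/

set_option autoImplicit false

open MeasureTheory Set
open scoped BigOperators ENNReal

namespace Pool.Agent.H49.KH.Q

open Pool.Agent.H49.Ent Pool.Agent.H49.KH

/-- rescaling of the times -/
theorem AKd.rescale {d : ℕ} {T : Finset ℝ} {w : ℝ → ℝ} {κ : ℝ} (h : AKd d T w κ) (x : ℝ) {q : ℝ}
    (hq : 0 < q) : AKd d (T.image (fun t => x + q * t)) (fun t => w ((t - x) / q))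
      (κ + d * Real.log (2 * (1 / q) + 2)) := by
  intro Ω _ p f g hp h1
  have hinj : Set.InjOn (fun t => x + q * t) (T : Set ℝ) := by
    intro a _ b _ hab
    have : q * a = q * b := by simpa using hab
    exact mul_left_cancel₀ hq.ne' this
  have h2 := h Ω p (fun ω => f ω + x • g ω) (fun ω => q • g ω) hp h1
  have h3 : H p (fun ω => rd (g ω)) ≤ H p (fun ω => rd (q • g ω)) +
      d * Real.log (2 * (1 / q) + 2) := by
    refine H_le_close hp h1 (fun ω => g ω) (by positivity) ?_ (fun ω ω' _ _ _ h => h)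
    intro ω ω' _ _ he i
    have h4 := (rd_close he i).le
    simp only [Pi.smul_apply, smul_eq_mul] at h4
    rw [← mul_sub, abs_mul, abs_of_pos hq] at h4
    rw [le_div_iff₀ hq]
    linarith
  rw [Finset.sum_image hinj]
  have h5 : ∑ t ∈ T, w ((x + q * t - x) / q) * H p (fun ω => rd (f ω + (x + q * t) • g ω)) =
      ∑ t ∈ T, w t * H p (fun ω => rd (f ω + x • g ω + t • q • g ω)) := by
    refine Finset.sum_congr rfl (fun t _ => ?_)
    have e1 : (x + q * t - x) / q = t := by field_simp; ring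
    rw [e1]
    congr 2
    funext ω
    congr 1
    rw [smul_smul, add_assoc, ← add_smul, mul_comm t q]
  rw [h5]
  linarith

/-- the part of `S` in an interval, rescaled to the unit interval -/
def zoom (S : Set ℝ) (x q : ℝ) : Set ℝ := {t | t ∈ Icc (0 : ℝ) 1 ∧ x + q * t ∈ S}

theorem measurableSet_zoom {S : Set ℝ} (hS : MeasurableSet S) (x q : ℝ) :
    MeasurableSet (zoom S x q) := by
  refine measurableSet_Icc.inter ?_
  have : Measurable fun t : ℝ => x + q * t := by fun_prop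
  exact this hS

theorem zoom_vol {S : Set ℝ} {x q v : ℝ} (hq : 0 < q)
    (hv : ENNReal.ofReal v ≤ volume (S ∩ Icc x (x + q))) :
    ENNReal.ofReal (v / q) ≤ volume (zoom S x q) := by
  have e1 : zoom S x q = (fun t => q * t) ⁻¹' ((fun y => x + y) ⁻¹' (S ∩ Icc x (x + q))) := by
    ext t
    simp only [zoom, Set.mem_ofPred_eq, Set.mem_preimage, Set.mem_inter_iff, Set.mem_Icc]
    constructor
    · rintro ⟨⟨h1, h2⟩, h3⟩
      exact ⟨h3, by nlinarith, by nlinarith⟩
    · rintro ⟨h1, h2, h3⟩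
      refine ⟨⟨?_, ?_⟩, h1⟩
      · by_contra h
        push Not at h
        nlinarith
      · by_contra h
        push Not at h
        nlinarith
  rw [e1, Real.volume_preimage_mul_left hq.ne', measure_preimage_add, abs_of_pos (inv_pos.mpr hq)]
  have e2 : v / q = q⁻¹ * v := by rw [div_eq_mul_inv, mul_comm]
  rw [e2, ENNReal.ofReal_mul (inv_pos.mpr hq).le]
  gcongr

/-- A set that is not separated at scale `ρ` has a concentrated part. -/
theorem concentrated {S : Set ℝ} {ρ l : ℝ} (hS : Dn S l) {t s : ℝ}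
    (h : volume (fr S ρ t s) < ENNReal.ofReal (l / 2)) :
    ENNReal.ofReal (l / 4) ≤ volume (S ∩ Ioo (t - ρ) (t + ρ)) ∨
      ENNReal.ofReal (l / 4) ≤ volume (S ∩ Ioo (s - ρ) (s + ρ)) := by
  by_contra hcon
  push Not at hcon
  obtain ⟨h2, h3⟩ := hcon
  have h1 : S ⊆ fr S ρ t s ∪ (S ∩ Ioo (t - ρ) (t + ρ) ∪ S ∩ Ioo (s - ρ) (s + ρ)) := by
    intro τ hτ
    by_cases h2 : ρ ≤ |τ - t|
    · by_cases h3 : ρ ≤ |τ - s|
      · exact Or.inl ⟨hτ, h2, h3⟩
      · right; right
        push Not at h3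
        rw [abs_lt] at h3
        exact ⟨hτ, by linarith [h3.1], by linarith [h3.2]⟩
    · right; left
      push Not at h2
      rw [abs_lt] at h2
      exact ⟨hτ, by linarith [h2.1], by linarith [h2.2]⟩
  have h4 := hS.vol.trans ((measure_mono h1).trans ((measure_union_le _ _).trans
    (add_le_add_right (measure_union_le _ _) _)))
  have hl := hS.pos
  have h5 : volume (fr S ρ t s) + (volume (S ∩ Ioo (t - ρ) (t + ρ)) +
      volume (S ∩ Ioo (s - ρ) (s + ρ))) < ENNReal.ofReal (l / 2) +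
        (ENNReal.ofReal (l / 4) + ENNReal.ofReal (l / 4)) :=
    ENNReal.add_lt_add h (ENNReal.add_lt_add h2 h3)
  rw [← ENNReal.ofReal_add (by linarith) (by linarith),
    ← ENNReal.ofReal_add (by linarith) (by linarith)] at h5
  have h6 : l / 2 + (l / 4 + l / 4) = l := by ring
  rw [h6] at h5
  exact absurd (h4.trans_lt h5) (lt_irrefl _)

/-- The concentrated part lies in an interval of the grid. -/
theorem conc_grid {S : Set ℝ} {l : ℝ} (hl : 0 < l) (hS : S ⊆ Icc 0 1) {n : ℕ} (hn : 0 < n)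
    {t : ℝ} (h : ENNReal.ofReal (l / 4) ≤ volume (S ∩ Ioo (t - 1 / n) (t + 1 / n))) :
    ∃ k : ℤ, k ∈ Finset.Icc (-2 : ℤ) n ∧
      ENNReal.ofReal (l / 4) ≤ volume (S ∩ Icc ((k : ℝ) / n) (k / n + 3 / n)) := by
  have hn0 : (0 : ℝ) < n := by exact_mod_cast hn
  have h0 : 0 < volume (S ∩ Ioo (t - 1 / n) (t + 1 / n)) :=
    lt_of_lt_of_le (ENNReal.ofReal_pos.mpr (by linarith)) h
  obtain ⟨y, hy, hy2⟩ := nonempty_of_measure_ne_zero h0.ne'
  have hy1 := hS hy
  have f1 := Int.floor_le (t * n)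
  have f2 := Int.lt_floor_add_one (t * n)
  have g1 : t * n - 1 < y * n := by
    have := mul_lt_mul_of_pos_right hy2.1 hn0
    rw [sub_mul, one_div, inv_mul_cancel₀ hn0.ne'] at this
    exact this
  have g2 : y * n < t * n + 1 := by
    have := mul_lt_mul_of_pos_right hy2.2 hn0
    rw [add_mul, one_div, inv_mul_cancel₀ hn0.ne'] at this
    exact this
  have g3 : 0 ≤ y * n := mul_nonneg hy1.1 hn0.le
  have g4 : y * n ≤ n := by nlinarith [hy1.2]
  refine ⟨⌊t * n⌋ - 1, ?_, h.trans (measure_mono ?_)⟩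
  · rw [Finset.mem_Icc]
    constructor
    · have : (-2 : ℝ) < (⌊t * n⌋ : ℝ) := by linarith
      have : (-2 : ℤ) < ⌊t * n⌋ := by exact_mod_cast this
      omega
    · have : (⌊t * n⌋ : ℝ) < n + 1 := by linarith
      have : (⌊t * n⌋ : ℤ) < n + 1 := by exact_mod_cast this
      omega
  · rintro z ⟨hz1, hz2⟩
    refine ⟨hz1, ?_, ?_⟩
    · rw [div_le_iff₀ hn0]
      have := mul_lt_mul_of_pos_right hz2.1 hn0
      rw [sub_mul, one_div, inv_mul_cancel₀ hn0.ne'] at this
      push_cast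
      linarith
    · rw [← add_div, le_div_iff₀ hn0]
      have := mul_lt_mul_of_pos_right hz2.2 hn0
      rw [add_mul, one_div, inv_mul_cancel₀ hn0.ne'] at this
      push_cast
      linarith

theorem Sub.of_frac {ι : Type} {J I : Finset ι} {c : ℝ} (hJ : J ⊆ I) (hc : 0 < c)
    (h : c * I.card ≤ J.card) : Sub (Real.log (1 / c)) J I := by
  refine ⟨hJ, le_trans (le_of_eq ?_) h⟩
  rw [one_div, Real.log_inv, neg_neg, Real.exp_log hc]

/-- Pigeonhole: the bad indices share an interval of the grid. -/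
theorem grid_pigeon {ι : Type} {I : Finset ι} (hI : I.Nonempty) {D : ι → Set ℝ} {l : ℝ}
    (hl : 0 < l) {n : ℕ} (hn : 0 < n) (hD : ∀ i ∈ I, Dn (D i) l)
    (hbad : ∀ i ∈ I, ¬ Sep (D i) (1 / n) (l / 2)) :
    ∃ k : ℤ, ∃ J, Sub (Real.log (4 * n)) J I ∧ ∀ i ∈ J,
      ENNReal.ofReal (l / 4) ≤ volume (D i ∩ Icc ((k : ℝ) / n) (k / n + 3 / n)) := by
  classical
  have hn0 : (0 : ℝ) < n := by exact_mod_cast hn
  have key : ∀ i ∈ I, ∃ k : ℤ, k ∈ Finset.Icc (-2 : ℤ) n ∧
      ENNReal.ofReal (l / 4) ≤ volume (D i ∩ Icc ((k : ℝ) / n) (k / n + 3 / n)) := by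
    intro i hi
    have h1 : ∃ t s, volume (fr (D i) (1 / n) t s) < ENNReal.ofReal (l / 2) := by
      by_contra hcon
      push Not at hcon
      exact hbad i hi ⟨by linarith, by linarith [(hD i hi).le_one], (hD i hi).meas,
        (hD i hi).sub, hcon⟩
    obtain ⟨t, s, hts⟩ := h1
    rcases concentrated (hD i hi) hts with h2 | h2
    · exact conc_grid hl (hD i hi).sub hn h2
    · exact conc_grid hl (hD i hi).sub hn h2
  choose! κ hκ1 hκ2 using key
  have hK : (Finset.Icc (-2 : ℤ) n).Nonempty := ⟨0, by rw [Finset.mem_Icc]; omega⟩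
  have hcard : ((Finset.Icc (-2 : ℤ) n).card : ℝ) ≤ 4 * n := by
    rw [Int.card_Icc]
    have : (((n : ℤ) + 1 - -2).toNat : ℝ) = n + 3 := by
      have h2 : ((n : ℤ) + 1 - -2).toNat = n + 3 := by omega
      rw [h2]; push_cast; ring
    rw [this]
    have : (1 : ℝ) ≤ n := by exact_mod_cast hn
    linarith
  obtain ⟨k, _, hk⟩ := Finset.exists_le_card_fiber_of_nsmul_le_card_of_maps_to
    (s := I) (t := Finset.Icc (-2 : ℤ) n) (f := κ) (b := (I.card : ℝ) / (4 * n)) hκ1 hK (by
      rw [nsmul_eq_mul, mul_div_assoc', div_le_iff₀ (by positivity), mul_comm]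
      gcongr)
  refine ⟨k, I.filter (fun i => κ i = k), ?_, ?_⟩
  · have := Sub.of_frac (c := 1 / (4 * n)) (Finset.filter_subset (fun i => κ i = k) I)
      (by positivity) (by
        refine le_trans (le_of_eq ?_) hk
        ring)
    rwa [one_div_one_div] at this
  · intro i hi
    obtain ⟨h1, h2⟩ := Finset.mem_filter.mp hi
    rw [← h2]
    exact hκ2 i h1

theorem half_card {ι : Type} [DecidableEq ι] (I : Finset ι) (P : ι → Prop) [DecidablePred P] :
    (I.card : ℝ) ≤ 2 * ((I.filter P).card : ℝ) ∨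
      (I.card : ℝ) ≤ 2 * ((I.filter (fun i => ¬ P i)).card : ℝ) := by
  have h := Finset.card_filter_add_card_filter_not (s := I) P
  have h' : ((I.filter P).card : ℝ) + ((I.filter (fun i => ¬ P i)).card : ℝ) = I.card := by
    exact_mod_cast h
  by_contra hcon
  push Not at hcon
  linarith [hcon.1, hcon.2]

/-- the conclusion of `GFW` -/
def Res {ι : Type} (a K C E : ℝ) (m : ℕ) (l : ℝ) (I : Finset ι) (D : ι → Set ℝ) : Prop :=
  ∃ J, Sub (C * Real.log (1 / l) + E) J I ∧ ∃ (T : Finset ℝ) (w : ℝ → ℝ),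
    (∀ t ∈ T, ∀ i ∈ J, t ∈ D i) ∧ T.card ≤ m ∧ (∀ t ∈ T, 0 ≤ w t) ∧ ∑ t ∈ T, w t = a ∧
    ∀ d : ℕ, AKd d T w (d * (K * Real.log (1 / l) + E))

theorem Res.weak {ι : Type} {a K C E : ℝ} {m : ℕ} {l : ℝ} {I I' : Finset ι} {D : ι → Set ℝ}
    {K' C' E' l' e : ℝ} (h : Res a K C E m l I D) (hI : Sub e I I')
    (h1 : C * Real.log (1 / l) + E + e ≤ C' * Real.log (1 / l') + E')
    (h2 : K * Real.log (1 / l) + E ≤ K' * Real.log (1 / l') + E') :
    Res a K' C' E' m l' I' D := by
  obtain ⟨J, hJ, T, w, t1, t2, t3, t4, t5⟩ := h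
  exact ⟨J, (hJ.trans hI).mono h1, T, w, t1, t2, t3, t4,
    fun d => AKd.mono' (t5 d) (mul_le_mul_of_nonneg_left h2 (Nat.cast_nonneg d))⟩

/-- Undoing the rescaling. -/
theorem Res.unzoom {ι : Type} {a K C E : ℝ} {m : ℕ} {l : ℝ} {I I' : Finset ι} {D : ι → Set ℝ}
    {x q : ℝ} (hq : 0 < q) (h : Res a K C E m l I (fun i => zoom (D i) x q))
    {K' C' E' l' e : ℝ} (hI : Sub e I I')
    (h1 : C * Real.log (1 / l) + E + e ≤ C' * Real.log (1 / l') + E')
    (h2 : K * Real.log (1 / l) + E + Real.log (2 * (1 / q) + 2) ≤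
      K' * Real.log (1 / l') + E') :
    Res a K' C' E' m l' I' D := by
  classical
  obtain ⟨J, hJ, T, w, t1, t2, t3, t4, t5⟩ := h
  have hinj : Set.InjOn (fun t => x + q * t) (T : Set ℝ) := by
    intro a _ b _ hab
    have : q * a = q * b := by simpa using hab
    exact mul_left_cancel₀ hq.ne' this
  have e1 : ∀ t : ℝ, (x + q * t - x) / q = t := fun t => by field_simp; ring
  refine ⟨J, (hJ.trans hI).mono h1, T.image (fun t => x + q * t), fun t => w ((t - x) / q),
    ?_, ?_, ?_, ?_, fun d => AKd.mono' (AKd.rescale (t5 d) x hq) ?_⟩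
  · intro t ht i hi
    obtain ⟨t', ht', rfl⟩ := Finset.mem_image.mp ht
    exact (t1 t' ht' i hi).2
  · exact Finset.card_image_le.trans t2
  · intro t ht
    obtain ⟨t', ht', rfl⟩ := Finset.mem_image.mp ht
    show 0 ≤ w ((x + q * t' - x) / q)
    rw [e1]
    exact t3 t' ht'
  · rw [Finset.sum_image hinj, ← t4]
    exact Finset.sum_congr rfl (fun t _ => by rw [e1])
  · rw [← mul_add]
    exact mul_le_mul_of_nonneg_left h2 (Nat.cast_nonneg d)

/-- From separated families to all families. -/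
theorem GT.toGF {a K₀ K : ℝ} (h : GT a K₀) (hK₀ : 0 ≤ K₀) (hK : K₀ ≤ K) (hK1 : 20 / 19 ≤ K) :
    GF a K := by
  classical
  obtain ⟨n, hn⟩ : ∃ n : ℕ, n = 2 ^ 76 := ⟨_, rfl⟩
  have hnr : (n : ℝ) = 2 ^ 76 := by rw [hn]; norm_num
  have hn0 : 0 < n := by rw [hn]; positivity
  have hn0' : (0 : ℝ) < n := by exact_mod_cast hn0
  have hn1 : (1 : ℝ) / n ≤ 1 := by
    rw [div_le_one hn0', hnr]; norm_num
  obtain ⟨C₁, m, hC₁, H⟩ := h
  obtain ⟨E₁, hE₁, H⟩ := H (1 / n) (by positivity) hn1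
  obtain ⟨g, hg⟩ : ∃ g, g = Real.log (n / 12) := ⟨_, rfl⟩
  have hlog2 : 0 < Real.log 2 := Real.log_pos (by norm_num)
  have hlog3 : Real.log 3 ≤ 1.6 * Real.log 2 := by
    have e1 : (5 : ℝ) * Real.log 3 ≤ 8 * Real.log 2 := by
      have := Real.log_le_log (by positivity : (0 : ℝ) < 3 ^ 5) (by norm_num : (3 : ℝ) ^ 5 ≤ 2 ^ 8)
      rw [Real.log_pow, Real.log_pow] at this
      push_cast at this
      exact this
    linarith
  have hlogn : Real.log n = 76 * Real.log 2 := by
    rw [hnr, Real.log_pow]; norm_num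
  have hlog12 : Real.log 12 = 2 * Real.log 2 + Real.log 3 := by
    rw [show (12 : ℝ) = 2 ^ 2 * 3 by norm_num, Real.log_mul (by norm_num) (by norm_num),
      Real.log_pow]
    norm_num
  have hg' : g = 76 * Real.log 2 - (2 * Real.log 2 + Real.log 3) := by
    rw [hg, Real.log_div hn0'.ne' (by norm_num), hlogn, hlog12]
  have hg72 : 72.4 * Real.log 2 ≤ g := by rw [hg']; linarith
  have hg0 : 0 < g := by linarith
  -- the cost of rescaling
  have hresc : Real.log (2 * (1 / (3 / n)) + 2) ≤ K * g := by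
    have e1 : Real.log (2 * (1 / (3 / n)) + 2) ≤ 76 * Real.log 2 := by
      rw [← hlogn]
      refine Real.log_le_log (by positivity) ?_
      have e2 : 2 * (1 / (3 / (n : ℝ))) + 2 = 2 / 3 * n + 2 := by field_simp
      rw [e2, hnr]
      norm_num
    have e2 : 20 / 19 * g ≤ K * g := mul_le_mul_of_nonneg_right hK1 hg0.le
    linarith
  have hfrac : Real.log (4 * n) + Real.log 2 ≤ (C₁ + 2) * g := by
    have e1 : Real.log (4 * n) = 78 * Real.log 2 := by
      rw [Real.log_mul (by norm_num) hn0'.ne', hlogn, show (4 : ℝ) = 2 ^ 2 by norm_num,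
        Real.log_pow]
      push_cast
      ring
    rw [e1]
    nlinarith
  obtain ⟨E, hE⟩ : ∃ E, E = C₁ * Real.log 2 + E₁ + Real.log 2 + K₀ * Real.log 2 := ⟨_, rfl⟩
  refine ⟨C₁ + 2, E, m, by linarith, by rw [hE]; positivity, ?_⟩
  have hx1 : 0 ≤ C₁ * Real.log 2 := by positivity
  have hx2 : 0 ≤ K₀ * Real.log 2 := by positivity
  -- one step
  have step : ∀ l : ℝ, 0 < l → (∀ (ι : Type) (I : Finset ι) (D : ι → Set ℝ), I.Nonempty →
      (∀ i ∈ I, Dn (D i) (n * l / 12)) → Res a K (C₁ + 2) E m (n * l / 12) I D) →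
      ∀ (ι : Type) (I : Finset ι) (D : ι → Set ℝ), I.Nonempty →
      (∀ i ∈ I, Dn (D i) l) → Res a K (C₁ + 2) E m l I D := by
    intro l hl ih ι I D hI hD
    obtain ⟨i0, hi0⟩ := hI
    have hl1 : l ≤ 1 := (hD i0 hi0).le_one
    have hΛ : 0 ≤ Real.log (1 / l) := log_inv_nonneg hl hl1
    have hIc : (0 : ℝ) < I.card := by exact_mod_cast Finset.card_pos.mpr ⟨i0, hi0⟩
    rcases half_card I (fun i => Sep (D i) (1 / n) (l / 2)) with h1 | h1
    · -- many separated sets
      have hsub : Sub (Real.log 2) (I.filter (fun i => Sep (D i) (1 / n) (l / 2))) I := by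
        have := Sub.of_frac (c := 1 / 2)
          (Finset.filter_subset (fun i => Sep (D i) (1 / n) (l / 2)) I) (by norm_num)
          (by linarith)
        rwa [one_div_one_div] at this
      have h2 := H (l / 2) ι _ D (hsub.nonempty ⟨i0, hi0⟩)
        (fun i hi => (Finset.mem_filter.mp hi).2)
      have e1 : Real.log (1 / (l / 2)) = Real.log (1 / l) + Real.log 2 := by
        rw [← Real.log_mul (by positivity) (by norm_num)]
        congr 1
        field_simp
      refine Res.weak (K := K₀) (C := C₁) (E := E₁) h2 hsub ?_ ?_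
      · rw [e1, hE]; nlinarith
      · rw [e1, hE]; nlinarith
    · -- many concentrated sets
      have hsub : Sub (Real.log 2) (I.filter (fun i => ¬ Sep (D i) (1 / n) (l / 2))) I := by
        have := Sub.of_frac (c := 1 / 2)
          (Finset.filter_subset (fun i => ¬ Sep (D i) (1 / n) (l / 2)) I) (by norm_num)
          (by linarith)
        rwa [one_div_one_div] at this
      obtain ⟨k, J, hJ, hk⟩ := grid_pigeon (hsub.nonempty ⟨i0, hi0⟩) hl hn0
        (fun i hi => hD i (hsub.1 hi)) (fun i hi => (Finset.mem_filter.mp hi).2)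
      have hl' : n * l / 12 = l / 4 / (3 / n) := by field_simp; ring
      have h2 := ih ι J (fun i => zoom (D i) (k / n) (3 / n))
        ((hJ.trans hsub).nonempty ⟨i0, hi0⟩) (by
          intro i hi
          refine ⟨by positivity, measurableSet_zoom (hD i ((hJ.trans hsub).1 hi)).meas _ _,
            fun t ht => ht.1, ?_⟩
          rw [hl']
          exact zoom_vol (by positivity) (hk i hi))
      have e1 : Real.log (1 / (n * l / 12)) = Real.log (1 / l) - g := by
        rw [hg, one_div, one_div, Real.log_inv, Real.log_inv, mul_div_right_comm,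
          Real.log_mul (by positivity) hl.ne']
        ring
      refine Res.unzoom (by positivity : (0 : ℝ) < 3 / n) h2 (hJ.trans hsub) ?_ ?_
      · rw [e1]; linarith
      · rw [e1]; linarith
  -- induction on the density
  have main : ∀ j : ℕ, ∀ l : ℝ, 0 < l → (12 / n : ℝ) ^ j ≤ l →
      ∀ (ι : Type) (I : Finset ι) (D : ι → Set ℝ), I.Nonempty →
      (∀ i ∈ I, Dn (D i) l) → Res a K (C₁ + 2) E m l I D := by
    intro j
    induction j with
    | zero =>
      intro l hl hl1
      refine step l hl ?_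
      intro ι I D hI hD
      obtain ⟨i0, hi0⟩ := hI
      have h1 := (hD i0 hi0).le_one
      rw [pow_zero] at hl1
      have : (n : ℝ) * l / 12 > 1 := by
        rw [gt_iff_lt, lt_div_iff₀ (by norm_num), hnr]
        nlinarith
      linarith
    | succ j ih =>
      intro l hl hl1
      refine step l hl (ih (n * l / 12) (by positivity) ?_)
      rw [pow_succ] at hl1
      calc (12 / n : ℝ) ^ j = (12 / n : ℝ) ^ j * (12 / n) * (n / 12) := by field_simp
        _ ≤ l * (n / 12) := by gcongr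
        _ = n * l / 12 := by ring
  intro l ι I D hI hD
  obtain ⟨i0, hi0⟩ := hI
  have hl0 : 0 < l := (hD i0 hi0).pos
  have h12 : (12 / n : ℝ) < 1 := by
    rw [div_lt_one hn0', hnr]; norm_num
  obtain ⟨j, hj⟩ := exists_pow_lt_of_lt_one hl0 h12
  exact main j l hl0 hj.le ι I D ⟨i0, hi0⟩ hD

end Pool.Agent.H49.KH.Q
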