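import Mathlib
import Pool.Agent.H49.KH.CountDefs
import Pool.Agent.H49.KH.Num2

/-!
# The counting forms with exponent 1.6753
-/

set_option autoImplicit false

open MeasureTheory Set
open scoped ENNReal

namespace Pool.Agent.H49.KH.Q

open Pool.Agent.H49.Ent Pool.Agent.H49.KH

/-- The counting consequence of the slope inequality for a subfamily. -/
theorem count_core {d : ℕ} {a c κ : ℝ} (_ha : 0 < a) (I : Type) [Fintype I]
    (u v : I → Fin d → ℝ) (A : I → Set ℝ) {M : ℝ} (hM : 1 ≤ M)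
    (hinj : Function.Injective fun i => fun k => ⌊v i k⌋)
    (hcell : ∀ t ∈ Icc (0 : ℝ) 1, ((Set.ncard {z : Fin d → ℤ | ∃ i, t ∈ A i ∧
      z = fun k => ⌊u i k + t * v i k⌋} : ℕ) : ℝ) ≤ M)
    (hA : ∀ i, A i ⊆ Icc 0 1) {J : Finset I} (hJ : Sub c J Finset.univ) (hne : J.Nonempty)
    {T : Finset ℝ} {w : ℝ → ℝ} (hT : ∀ t ∈ T, ∀ i ∈ J, t ∈ A i) (hw : ∀ t ∈ T, 0 ≤ w t)
    (hsum : ∑ t ∈ T, w t = a) (hAK : AKd d T w κ) :
    (Fintype.card I : ℝ) ≤ Real.exp (c + κ) * M ^ a := by
  classical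
  have hJne : Nonempty J := ⟨⟨_, hne.choose_spec⟩⟩
  have h1 := hAK.card_le hw hsum (A := J) (fun i => u i.1) (fun i => v i.1) hM (by
    intro t ht
    obtain ⟨i1, hi1⟩ := hne
    refine le_trans ?_ (hcell t (hA i1 (hT t ht i1 hi1)))
    have hfin : Set.Finite {z : Fin d → ℤ | ∃ i, t ∈ A i ∧ z = fun k => ⌊u i k + t * v i k⌋} := by
      refine (Set.finite_range (fun i : I => fun k => ⌊u i k + t * v i k⌋)).subset ?_
      rintro z ⟨i, _, rfl⟩
      exact ⟨i, rfl⟩
    have h2 : ((Finset.univ.image (fun x : J => rd (u x.1 + t • v x.1)) : Finset _) :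
        Set (Fin d → ℤ)) ⊆ {z : Fin d → ℤ | ∃ i, t ∈ A i ∧ z = fun k => ⌊u i k + t * v i k⌋} := by
      intro z hz
      rw [Finset.coe_image] at hz
      obtain ⟨x, _, rfl⟩ := hz
      exact ⟨x.1, hT t ht x.1 x.2, rfl⟩
    have h3 := Set.ncard_le_ncard h2 hfin
    rw [Set.ncard_coe_finset] at h3
    exact_mod_cast h3)
  have h2 : (Finset.univ.image (fun x : J => rd (v x.1))).card = J.card := by
    have hinj' : Function.Injective (fun x : J => rd (v x.1)) :=
      fun x y hxy => Subtype.ext (hinj hxy)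
    rw [Finset.card_image_of_injective _ hinj', Finset.card_univ, Fintype.card_coe]
  rw [h2] at h1
  have h3 := hJ.2
  rw [Finset.card_univ] at h3
  have h4 : Real.exp (-c) * Fintype.card I ≤ Real.exp κ * M ^ a := h3.trans h1
  calc (Fintype.card I : ℝ) = Real.exp c * (Real.exp (-c) * Fintype.card I) := by
        rw [← mul_assoc, ← Real.exp_add]; simp
    _ ≤ Real.exp c * (Real.exp κ * M ^ a) := mul_le_mul_of_nonneg_left h4 (Real.exp_pos _).le
    _ = Real.exp (c + κ) * M ^ a := by rw [Real.exp_add]; ring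

theorem exp_log_split {l X Y : ℝ} (hl : 0 < l) :
    Real.exp (X * Real.log (1 / l) + Y) = Real.exp Y * l ^ (-X) := by
  rw [Real.exp_add, one_div, Real.log_inv, Real.rpow_def_of_pos hl, mul_comm]
  congr 2
  ring

/-- The counting form for all sets of times. -/
theorem count1 (d : ℕ) : ∃ K : ℝ, Count1 d 1.6753 K := by
  classical
  obtain ⟨C, E, m, hC, hE, H⟩ := GF_low
  refine ⟨C + d * (20 / 19), Real.exp (E + d * E), Real.exp_pos _, ?_⟩
  intro I _ u v A l M hl hl1 hM hm hA hvol hinj hcell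
  rcases isEmpty_or_nonempty I with hI | hI
  · rw [Fintype.card_eq_zero]
    have : 0 ≤ M := by linarith
    rw [Nat.cast_zero]
    positivity
  obtain ⟨J, hJ, T, w, t1, t2, t3, t4, t5⟩ := H l I Finset.univ A Finset.univ_nonempty
    (fun i _ => ⟨hl, hm i, hA i, hvol i⟩)
  have h1 := count_core (by norm_num) I u v A hM hinj hcell hA hJ
    (hJ.nonempty Finset.univ_nonempty) t1 t3 t4 (t5 d)
  have e1 : C * Real.log (1 / l) + E + d * (20 / 19 * Real.log (1 / l) + E) =
      (C + d * (20 / 19)) * Real.log (1 / l) + (E + d * E) := by ring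
  rwa [e1, exp_log_split hl] at h1

/-- The part of a non-concentrated set away from two points. -/
theorem sep_of_two_ends {S : Set ℝ} {ρ l : ℝ} (hl : 0 < l) (hl1 : l ≤ 1) (hm : MeasurableSet S)
    (hS : S ⊆ Icc 0 1) (hv : ENNReal.ofReal l ≤ volume S)
    (h : ∀ s, volume (S ∩ Icc (s - ρ) (s + ρ)) ≤ volume S / 8) : Sep S ρ (l / 2) := by
  refine ⟨by linarith, by linarith, hm, hS, fun t s => ?_⟩
  by_contra hcon
  push Not at hcon
  have h1 : S ⊆ fr S ρ t s ∪ (S ∩ Icc (t - ρ) (t + ρ) ∪ S ∩ Icc (s - ρ) (s + ρ)) := by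
    intro τ hτ
    by_cases h2 : ρ ≤ |τ - t|
    · by_cases h3 : ρ ≤ |τ - s|
      · exact Or.inl ⟨hτ, h2, h3⟩
      · right; right
        push Not at h3
        rw [abs_lt] at h3
        exact ⟨hτ, by linarith [h3.1], by linarith [h3.2]⟩
    · right; left
      push Not at h2
      rw [abs_lt] at h2
      exact ⟨hτ, by linarith [h2.1], by linarith [h2.2]⟩
  have hfin : volume S ≠ ∞ := ne_top_of_le_ne_top ENNReal.one_ne_top (vol_le_one hS)
  have h2 : volume S ≤ volume (fr S ρ t s) + (volume S / 8 + volume S / 8) :=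
    (measure_mono h1).trans ((measure_union_le _ _).trans
      (add_le_add_right ((measure_union_le _ _).trans (add_le_add (h t) (h s))) _))
  obtain ⟨V, hV⟩ : ∃ V, V = (volume S).toReal := ⟨_, rfl⟩
  have hV0 : 0 ≤ V := by rw [hV]; exact ENNReal.toReal_nonneg
  have hVS : volume S = ENNReal.ofReal V := by rw [hV, ENNReal.ofReal_toReal hfin]
  have hlV : l ≤ V := by
    rw [hVS] at hv
    exact (ENNReal.ofReal_le_ofReal_iff hV0).mp hv
  have h3 : volume S / 8 = ENNReal.ofReal (V / 8) := by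
    rw [hVS, ENNReal.ofReal_div_of_pos (by norm_num)]
    norm_num
  have h4 : volume (fr S ρ t s) + (volume S / 8 + volume S / 8) <
      ENNReal.ofReal (l / 2) + (ENNReal.ofReal (V / 8) + ENNReal.ofReal (V / 8)) := by
    rw [h3]
    exact ENNReal.add_lt_add_right (by simp) hcon
  rw [← ENNReal.ofReal_add (by positivity) (by positivity),
    ← ENNReal.ofReal_add (by positivity) (by positivity)] at h4
  have h5 := h2.trans_lt h4
  rw [hVS, ENNReal.ofReal_lt_ofReal_iff (by positivity)] at h5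
  linarith

/-- The counting form for non-concentrated sets of times: the constant `C₀` does not depend on the
dimension. -/
theorem count2 : ∃ C₀ : ℝ, ∀ d : ℕ, Count2 d 1.6753 (0.98 * d + C₀) := by
  classical
  obtain ⟨C, m, hC, H⟩ := GT_low
  refine ⟨C, fun d ρ hρ => ?_⟩
  obtain ⟨ρ', hρ'⟩ : ∃ ρ', ρ' = min ρ 1 := ⟨_, rfl⟩
  obtain ⟨E, hE, H⟩ := H ρ' (by rw [hρ']; exact lt_min hρ one_pos) (by rw [hρ']; exact min_le_right _ _)
  refine ⟨Real.exp (E + d * E + (0.98 * d + C) * Real.log 2), Real.exp_pos _, ?_⟩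
  intro I _ u v A l M hl hl1 hM hm hA hvol hte hinj hcell
  rcases isEmpty_or_nonempty I with hI | hI
  · rw [Fintype.card_eq_zero]
    have : 0 ≤ M := by linarith
    rw [Nat.cast_zero]
    positivity
  obtain ⟨J, hJ, T, w, t1, t2, t3, t4, t5⟩ := H (l / 2) I Finset.univ A Finset.univ_nonempty
    (fun i _ => by
      refine sep_of_two_ends hl hl1 (hm i) (hA i) (hvol i) (fun s => ?_)
      refine (measure_mono ?_).trans (hte i s)
      refine Set.inter_subset_inter_right _ (Icc_subset_Icc ?_ ?_)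
      · have : ρ' ≤ ρ := by rw [hρ']; exact min_le_left _ _
        linarith
      · have : ρ' ≤ ρ := by rw [hρ']; exact min_le_left _ _
        linarith)
  have h1 := count_core (by norm_num) I u v A hM hinj hcell hA hJ
    (hJ.nonempty Finset.univ_nonempty) t1 t3 t4 (t5 d)
  have e2 : Real.log (1 / (l / 2)) = Real.log (1 / l) + Real.log 2 := by
    rw [← Real.log_mul (by positivity) (by norm_num)]
    congr 1
    field_simp
  have e1 : C * Real.log (1 / (l / 2)) + E + d * (0.98 * Real.log (1 / (l / 2)) + E) =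
      (0.98 * d + C) * Real.log (1 / l) + (E + d * E + (0.98 * d + C) * Real.log 2) := by
    rw [e2]; ring
  rwa [e1, exp_log_split hl] at h1

end Pool.Agent.H49.KH.Q
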