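import Mathlib
import Pool.Agent.H49.KH.Bridge
import Pool.Agent.H49.KH.Count

/-!
# The discrete forms: full strength in large dimension, polynomial loss in all dimensions
-/

set_option autoImplicit false

open MeasureTheory Set
open scoped ENNReal

namespace Pool.Agent.H49.KH

open Pool.Agent.H32.Dense Pool.Agent.H70.Dense

/-- The discrete form in large dimension. -/
theorem denseCount_large : ∃ d₀ : ℕ, ∀ d : ℕ, d₀ ≤ d → DenseCount d 1.6753 := by
  obtain ⟨C₀, h⟩ := Q.count2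
  obtain ⟨d₀, hd₀⟩ := exists_nat_ge (50 * C₀)
  refine ⟨d₀, fun d hd => denseCount_of_strong (by norm_num) ?_ (strong_of_count2 (h d))⟩
  have : (d₀ : ℝ) ≤ d := by exact_mod_cast hd
  linarith

/-- The discrete form with a power `P` of the density, without loss in the scale. -/
def DensePow (d : ℕ) (a P : ℝ) : Prop :=
  ∃ c : ℝ, 0 < c ∧ ∀ (m N : ℕ) (u : Fin N → Fin d → ℝ) (v : Fin N → Fin d → ℤ)
    (A : Fin N → Finset ℤ) (κ : ℝ), 0 < κ → Function.Injective v →
    (∀ i k, |v i k| ≤ 2 ^ m) → (∀ i, A i ⊆ Finset.Ico 0 (2 ^ m : ℤ)) →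
    (∀ i, κ * 2 ^ m ≤ (A i).card) →
    c * (2 ^ m * κ ^ P * (N : ℝ) ^ (1 / a)) ≤
      ∑ j ∈ Finset.Ico 0 (2 ^ m : ℤ),
        (((Finset.univ.filter fun i => j ∈ A i).image
          fun i => rd (pos (2 ^ m) (u i) (v i) j)).card : ℝ)

/-- Removing the times with many cells. -/
theorem heavy {m N : ℕ} (A : Fin N → Finset ℤ) {κ W : ℝ} (f : ℤ → ℝ) (hf : ∀ j, 0 ≤ f j)
    (hκ : 0 < κ) (hA : ∀ i, A i ⊆ Finset.Ico 0 (2 ^ m : ℤ)) (hcard : ∀ i, κ * 2 ^ m ≤ (A i).card)
    (hW : ∑ j ∈ Finset.Ico 0 (2 ^ m : ℤ), f j = W) (hW0 : 0 < W) (i : Fin N) :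
    κ / 2 * 2 ^ m ≤ (((A i).filter fun j => f j ≤ 2 * W / (κ * 2 ^ m)).card : ℝ) := by
  classical
  have h2m : (0 : ℝ) < 2 ^ m := by positivity
  have h1 := Finset.card_filter_add_card_filter_not (s := A i)
    (fun j => f j ≤ 2 * W / (κ * 2 ^ m))
  have h2 : (((A i).filter fun j => ¬ f j ≤ 2 * W / (κ * 2 ^ m)).card : ℝ) ≤ κ / 2 * 2 ^ m := by
    have h3 : (((A i).filter fun j => ¬ f j ≤ 2 * W / (κ * 2 ^ m)).card : ℝ) *
        (2 * W / (κ * 2 ^ m)) ≤ W := by
      rw [← nsmul_eq_mul, ← Finset.sum_const, ← hW]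
      refine (Finset.sum_le_sum (fun j hj => (not_le.mp (Finset.mem_filter.mp hj).2).le)).trans ?_
      exact Finset.sum_le_sum_of_subset_of_nonneg
        ((Finset.filter_subset _ _).trans (hA i)) (fun j _ _ => hf j)
    have h4 : (((A i).filter fun j => ¬ f j ≤ 2 * W / (κ * 2 ^ m)).card : ℝ) *
        (2 * W / (κ * 2 ^ m)) * (κ * 2 ^ m / (2 * W)) =
        (((A i).filter fun j => ¬ f j ≤ 2 * W / (κ * 2 ^ m)).card : ℝ) := by
      rw [mul_assoc]
      have : 2 * W / (κ * 2 ^ m) * (κ * 2 ^ m / (2 * W)) = 1 := by field_simp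
      rw [this, mul_one]
    have h5 := mul_le_mul_of_nonneg_right h3 (by positivity : 0 ≤ κ * 2 ^ m / (2 * W))
    rw [h4] at h5
    refine h5.trans (le_of_eq ?_)
    field_simp
  have h3 := hcard i
  rw [← h1] at h3
  push_cast at h3
  linarith

/-- The discrete form with polynomial loss in the density. -/
theorem densePow_of_count1 {d : ℕ} {a K : ℝ} (ha : 0 < a) (h : Count1 d a K) :
    DensePow d a (1 + K / a) := by
  classical
  obtain ⟨C, hC, H⟩ := h
  obtain ⟨c, hc⟩ : ∃ c : ℝ, c = 1 / 2 / 3 ^ d * (2 ^ (-K) / C) ^ (1 / a) := ⟨_, rfl⟩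
  refine ⟨c, by rw [hc]; positivity, ?_⟩
  intro m N u v A κ hκ hinj hv hA hcard
  obtain ⟨f, hf⟩ : ∃ f : ℤ → ℝ, f = fun j => (((Finset.univ.filter fun i => j ∈ A i).image
          fun i => rd (pos (2 ^ m) (u i) (v i) j)).card : ℝ) := ⟨_, rfl⟩
  have hf0 : ∀ j, 0 ≤ f j := by intro j; rw [hf]; exact Nat.cast_nonneg _
  obtain ⟨W, hW⟩ : ∃ W, ∑ j ∈ Finset.Ico 0 (2 ^ m : ℤ), f j = W := ⟨_, rfl⟩
  have hgoal : c * (2 ^ m * κ ^ (1 + K / a) * (N : ℝ) ^ (1 / a)) ≤ W → c * (2 ^ m *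
      κ ^ (1 + K / a) * (N : ℝ) ^ (1 / a)) ≤ ∑ j ∈ Finset.Ico 0 (2 ^ m : ℤ),
        (((Finset.univ.filter fun i => j ∈ A i).image
          fun i => rd (pos (2 ^ m) (u i) (v i) j)).card : ℝ) := by
    intro h
    rw [← hW, hf] at h
    exact h
  apply hgoal
  rcases Nat.eq_zero_or_pos N with rfl | hN
  · rw [Nat.cast_zero, Real.zero_rpow (by positivity), mul_zero, mul_zero, ← hW]
    exact Finset.sum_nonneg (fun j _ => hf0 j)
  have h2m : (0 : ℝ) < 2 ^ m := by positivity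
  have i0 : Fin N := ⟨0, hN⟩
  have hcell : ∀ i j, j ∈ A i → 1 ≤ f j := by
    intro i j hj
    rw [hf]
    have : 0 < ((Finset.univ.filter fun i => j ∈ A i).image
        fun i => rd (pos (2 ^ m) (u i) (v i) j)).card :=
      Finset.card_pos.mpr ⟨_, Finset.mem_image_of_mem _
        (Finset.mem_filter.mpr ⟨Finset.mem_univ i, hj⟩)⟩
    have h3 : (1 : ℝ) ≤ ((Finset.univ.filter fun i => j ∈ A i).image
        fun i => rd (pos (2 ^ m) (u i) (v i) j)).card := by exact_mod_cast this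
    exact h3
  have hW0 : 0 < W := by
    have h3 : (0 : ℝ) < (A i0).card := lt_of_lt_of_le (by positivity) (hcard i0)
    have h4 : (A i0).Nonempty := Finset.card_pos.mp (by exact_mod_cast h3)
    obtain ⟨j, hj⟩ := h4
    rw [← hW]
    exact Finset.sum_pos' (fun j _ => hf0 j)
      ⟨j, hA i0 hj, lt_of_lt_of_le one_pos (hcell i0 j hj)⟩
  have hheavy := heavy A f hf0 hκ hA hcard hW hW0
  obtain ⟨R, hR⟩ : ∃ R, R = 2 * W / (κ * 2 ^ m) := ⟨_, rfl⟩
  rw [← hR] at hheavy
  have hR1 : 1 ≤ R := by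
    have h3 : (0 : ℝ) < ((A i0).filter fun j => f j ≤ R).card :=
      lt_of_lt_of_le (by positivity) (hheavy i0)
    have h4 : ((A i0).filter fun j => f j ≤ R).Nonempty := Finset.card_pos.mp (by exact_mod_cast h3)
    obtain ⟨j, hj⟩ := h4
    obtain ⟨hj1, hj2⟩ := Finset.mem_filter.mp hj
    exact (hcell i0 j hj1).trans hj2
  have hκ1 : κ ≤ 1 := by
    have h3 := Finset.card_le_card (hA i0)
    rw [Int.card_Ico] at h3
    have h4 : ((A i0).card : ℝ) ≤ 2 ^ m := by
      have : ((2 : ℤ) ^ m - 0).toNat = 2 ^ m := by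
        rw [sub_zero]
        have : ((2 : ℤ) ^ m) = ((2 ^ m : ℕ) : ℤ) := by push_cast; rfl
        rw [this, Int.toNat_natCast]
      rw [this] at h3
      exact_mod_cast h3
    have h5 := (hcard i0).trans h4
    by_contra hcon
    push Not at hcon
    have := mul_lt_mul_of_pos_right hcon h2m
    linarith
  have h3d : (1 : ℝ) ≤ 3 ^ d := one_le_pow₀ (by norm_num)
  have key := H (Fin N) u (fun i k => (v i k : ℝ)) (fun i => rt' m ((A i).filter fun j => f j ≤ R))
    (κ / 2) (3 ^ d * R) (by linarith) (by linarith)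
    (by nlinarith) (fun i => rt'_meas m _)
    (fun i => rt'_sub ((Finset.filter_subset _ _).trans (hA i))) (by
      intro i
      rw [rt'_vol]
      refine ENNReal.ofReal_le_ofReal ?_
      rw [le_div_iff₀ h2m]
      exact hheavy i) (by
      intro i j hij
      apply hinj
      funext k
      have := congrFun hij k
      simpa using this) (by
      intro t _
      by_cases hne : ∃ i, t ∈ rt' m ((A i).filter fun j => f j ≤ R)
      · have hfR : f ⌊(2 : ℝ) ^ m * t⌋ ≤ R := by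
          obtain ⟨i, hi⟩ := hne
          exact (Finset.mem_filter.mp hi).2
        refine (cells_near ((Finset.univ.filter fun i => ⌊(2 : ℝ) ^ m * t⌋ ∈ A i).image
          fun i => rd (pos (2 ^ m) (u i) (v i) ⌊(2 : ℝ) ^ m * t⌋)) _ ?_).trans
          (mul_le_mul_of_nonneg_left (by rw [hf] at hfR; exact hfR) (by positivity))
        rintro z ⟨i, hi, rfl⟩
        exact ⟨_, Finset.mem_image_of_mem _ (Finset.mem_filter.mpr ⟨Finset.mem_univ i,
          (Finset.mem_filter.mp hi).1⟩), fun k => near_cell (hv i) t k⟩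
      · have : {z : Fin d → ℤ | ∃ i, t ∈ rt' m ((A i).filter fun j => f j ≤ R) ∧
            z = fun k => ⌊u i k + t * (v i k : ℝ)⌋} = ∅ := by
          ext z
          simp only [Set.mem_ofPred_eq, Set.mem_empty_iff_false, iff_false, not_exists, not_and]
          intro i hi
          exact absurd ⟨i, hi⟩ hne
        rw [this, Set.ncard_empty, Nat.cast_zero]
        nlinarith)
  rw [Fintype.card_fin] at key
  have hRpos : 0 < R := by linarith
  -- solve for `W`
  have h5 : (N : ℝ) * (2 ^ (-K) / C) * κ ^ K ≤ (3 ^ d * R) ^ a := by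
    have e1 : (κ / 2) ^ (-K) = κ ^ (-K) * (2 ^ (-K))⁻¹ := by
      rw [Real.div_rpow hκ.le (by norm_num), div_eq_mul_inv]
    have e2 : κ ^ (-K) * κ ^ K = 1 := by
      rw [← Real.rpow_add hκ]; simp
    rw [e1] at key
    have h6 := mul_le_mul_of_nonneg_right key (by positivity : 0 ≤ (2 : ℝ) ^ (-K) / C * κ ^ K)
    calc (N : ℝ) * (2 ^ (-K) / C) * κ ^ K = N * (2 ^ (-K) / C * κ ^ K) := by ring
      _ ≤ _ := h6
      _ = (κ ^ (-K) * κ ^ K) * (3 ^ d * R) ^ a := by field_simp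
      _ = _ := by rw [e2, one_mul]
  have h6 := Real.rpow_le_rpow (by positivity) h5 (by positivity : 0 ≤ 1 / a)
  rw [← Real.rpow_mul (by positivity), mul_one_div_cancel ha.ne', Real.rpow_one,
    Real.mul_rpow (by positivity) (by positivity), Real.mul_rpow (by positivity) (by positivity),
    ← Real.rpow_mul hκ.le, mul_one_div] at h6
  have h7 : W = κ * 2 ^ m / 2 * R := by
    rw [hR]; field_simp
  rw [h7, hc, Real.rpow_add hκ, Real.rpow_one]
  calc 1 / 2 / 3 ^ d * (2 ^ (-K) / C) ^ (1 / a) * (2 ^ m * (κ * κ ^ (K / a)) * (N : ℝ) ^ (1 / a))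
      = κ * 2 ^ m / 2 / 3 ^ d * ((N : ℝ) ^ (1 / a) * (2 ^ (-K) / C) ^ (1 / a) * κ ^ (K / a)) := by
        ring
    _ ≤ κ * 2 ^ m / 2 / 3 ^ d * (3 ^ d * R) := mul_le_mul_of_nonneg_left h6 (by positivity)
    _ = κ * 2 ^ m / 2 * R := by field_simp

/-- The discrete form with polynomial loss in the density, in all dimensions. -/
theorem densePow_all (d : ℕ) : ∃ P : ℝ, DensePow d 1.6753 P := by
  obtain ⟨K, h⟩ := Q.count1 d
  exact ⟨_, densePow_of_count1 (by norm_num) h⟩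

end Pool.Agent.H49.KH
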