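import Mathlib
import Pool.Agent.H49.KH.Chain

/-!
# The numerical iteration: the exponent 1.6753
-/

set_option autoImplicit false

namespace Pool.Agent.H49.KH

theorem DG_dec {d : ℕ} {a : ℝ} (h : DG d a) (h1 : 1.6753 ≤ a) (h2 : a ≤ 2) :
    DG d (a - 1 / 20000) := by
  have hL := LBX_iter h (by linarith : 1 < a) 10
  have ha0 : 0 < a := by linarith
  have hq0 : 0 ≤ (a - 1) / a := by
    have : 0 ≤ a - 1 := by linarith
    positivity
  have hq1 : (a - 1) / a ≤ 1 / 2 := by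
    rw [div_le_div_iff₀ ha0 (by norm_num)]
    linarith
  obtain ⟨Q, hQ⟩ : ∃ Q, Q = (((a - 1) / a) ^ 2) ^ 10 := ⟨_, rfl⟩
  have hQ0 : 0 ≤ Q := by rw [hQ]; positivity
  have hQ1 : Q ≤ 1 / 1000000 := by
    rw [hQ]
    calc (((a - 1) / a) ^ 2) ^ 10 ≤ (((1 : ℝ) / 2) ^ 2) ^ 10 := by gcongr
      _ ≤ 1 / 1000000 := by norm_num
  rw [← hQ] at hL
  have hD : 0 < 2 * a - 1 := by linarith
  have hA : 0 ≤ (a ^ 2 + 4 * a - 2) / (2 * a - 1) * (1 - Q) := by
    refine mul_nonneg (div_nonneg (by nlinarith) hD.le) (by linarith)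
  have hs := DG_step h (by linarith) hA hL
  refine hs.mono ?_
  have hden : 0 < 2 + (a - 1) * ((a ^ 2 + 4 * a - 2) / (2 * a - 1) * (1 - Q)) := by
    have : 0 ≤ a - 1 := by linarith
    positivity
  rw [div_le_iff₀ hden]
  have e1 : 2 * a + 1 + (a - 1) * ((3 * a ^ 2 + a - 1) / (2 * a - 1) * (1 - Q)) =
      ((2 * a + 1) * (2 * a - 1) + (a - 1) * (3 * a ^ 2 + a - 1) * (1 - Q)) / (2 * a - 1) := by
    field_simp
  have e2 : (a - 1 / 20000) *
      (2 + (a - 1) * ((a ^ 2 + 4 * a - 2) / (2 * a - 1) * (1 - Q))) =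
      ((a - 1 / 20000) * (2 * (2 * a - 1) + (a - 1) * (a ^ 2 + 4 * a - 2) * (1 - Q))) /
        (2 * a - 1) := by
    have hD' := hD.ne'
    generalize 2 * a - 1 = D at hD' ⊢
    field_simp
  rw [e1, e2]
  refine div_le_div_of_nonneg_right ?_ hD.le
  have k1 : 0 ≤ a ^ 3 - 4 * a + 2 - 1 / 1400 := by
    obtain ⟨b, rfl⟩ : ∃ b, a = 1.6753 + b := ⟨a - 1.6753, by ring⟩
    have hb : 0 ≤ b := by linarith
    have hb2 : 0 ≤ b ^ 2 := by positivity
    have hb3 : 0 ≤ b ^ 3 := by positivity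
    nlinarith
  have k2 : a ^ 3 + 3 * a ^ 2 - 2 * a ≤ 12 * a := by nlinarith
  have k3 : (a - 1) * ((a - 1 / 20000) * (a ^ 2 + 4 * a - 2) - (3 * a ^ 2 + a - 1)) ≤ 20 * a := by
    have : (a - 1) ≤ 1 := by linarith
    have h3 : (a - 1 / 20000) * (a ^ 2 + 4 * a - 2) - (3 * a ^ 2 + a - 1) ≤ 20 * a := by
      nlinarith
    have h4 : 0 ≤ 20 * a := by linarith
    have h5 : 0 ≤ a - 1 := by linarith
    calc (a - 1) * ((a - 1 / 20000) * (a ^ 2 + 4 * a - 2) - (3 * a ^ 2 + a - 1)) ≤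
        (a - 1) * (20 * a) := mul_le_mul_of_nonneg_left h3 h5
      _ ≤ 1 * (20 * a) := mul_le_mul_of_nonneg_right this h4
      _ = 20 * a := one_mul _
  have k4 : Q * ((a - 1) * ((a - 1 / 20000) * (a ^ 2 + 4 * a - 2) - (3 * a ^ 2 + a - 1))) ≤
      1 / 1000000 * (20 * a) := by
    calc _ ≤ Q * (20 * a) := mul_le_mul_of_nonneg_left k3 hQ0
      _ ≤ _ := mul_le_mul_of_nonneg_right hQ1 (by linarith)
  have k5 := mul_nonneg ha0.le k1
  nlinarith

theorem DG_low (d : ℕ) : DG d 1.6753 := by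
  have ind : ∀ k : ℕ, DG d (max 1.6753 (2 - k / 20000)) := by
    intro k
    induction k with
    | zero =>
      refine (DG_two d).mono ?_
      simp
    | succ k ih =>
      rcases le_total (2 - (k : ℝ) / 20000) 1.6753 with h | h
      · rw [max_eq_left h] at ih
        exact ih.mono (le_max_left _ _)
      · rw [max_eq_right h] at ih
        have h2 : (2 : ℝ) - k / 20000 ≤ 2 := by
          have : (0 : ℝ) ≤ (k : ℝ) / 20000 := by positivity
          linarith
        refine (DG_dec ih h h2).mono (le_max_of_le_right ?_)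
        push_cast
        linarith
  have := ind 6494
  rw [max_eq_left (by norm_num)] at this
  exact this

end Pool.Agent.H49.KH
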